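import Pool.Agent.H98.BG.Stmt

set_option autoImplicit false

namespace Pool.Agent.H98.BG

open Finset
open scoped Pointwise

/-- Gibbs' inequality -/
theorem gib : GIB := by
  intro α _ p r hp hr hr1 hpr
  have h1 : ∀ x, Real.negMulLog (p x) + p x * Real.log (r x) ≤ r x - p x := by
    intro x
    by_cases h0 : p x = 0
    · rw [h0, Real.negMulLog_zero, zero_mul, add_zero, sub_zero]
      exact hr x
    · have hpos : 0 < p x := lt_of_le_of_ne (hp.1 x) (Ne.symm h0)
      have hrpos := hpr x h0
      have h2 := Real.log_le_sub_one_of_pos (div_pos hrpos hpos)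
      rw [Real.log_div hrpos.ne' h0] at h2
      unfold Real.negMulLog
      have h3 := mul_le_mul_of_nonneg_left h2 hpos.le
      have h4 : p x * (r x / p x - 1) = r x - p x := by field_simp
      rw [h4] at h3
      linarith
  have h5 := Finset.sum_le_sum (s := univ) (fun x _ => h1 x)
  rw [sum_add_distrib, sum_sub_distrib, hp.2] at h5
  unfold H
  linarith

end Pool.Agent.H98.BG
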