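import Pool.Agent.H98.BG.Stmt

set_option autoImplicit false

namespace Pool.Agent.H98.BG

open Finset
open scoped Pointwise ComplexConjugate

namespace FIN2L

variable {G : Type} [AddCommGroup G] [Fintype G] [DecidableEq G]

/-- the weights -/
noncomputable def w (g : G → ℝ) (χ : AddChar G ℂ) : ℝ :=
  ‖∑ x, (g x : ℂ) * χ x‖ ^ 2 / Fintype.card G

lemma sq_norm_eq (f : G → ℝ) (χ : AddChar G ℂ) :
    ((‖∑ x, (f x : ℂ) * χ x‖ ^ 2 : ℝ) : ℂ) = ∑ x, ∑ x', (f x : ℂ) * f x' * χ (x - x') := by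
  have h1 : ((‖∑ x, (f x : ℂ) * χ x‖ ^ 2 : ℝ) : ℂ) =
      (∑ x, (f x : ℂ) * χ x) * conj (∑ x, (f x : ℂ) * χ x) := by
    rw [Complex.mul_conj, Complex.normSq_eq_norm_sq]
  rw [h1, map_sum, Finset.sum_mul_sum]
  refine Finset.sum_congr rfl fun x _ => Finset.sum_congr rfl fun x' _ => ?_
  rw [map_mul, Complex.conj_ofReal, ← AddChar.map_neg_eq_conj, sub_eq_add_neg,
    AddChar.map_add_eq_mul]
  ring

lemma F_eq (g : G → ℝ) (y : G) :
    ((∑ x, g x * g (x + y) : ℝ) : ℂ) = ∑ χ : AddChar G ℂ, (w g χ : ℂ) * χ y := by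
  have hG : (Fintype.card G : ℂ) ≠ 0 := by
    have : 0 < Fintype.card G := Fintype.card_pos
    exact_mod_cast this.ne'
  have h1 : ∀ χ : AddChar G ℂ, (w g χ : ℂ) * χ y =
      ∑ x, ∑ x', (g x : ℂ) * g x' * χ (x - x' + y) / Fintype.card G := by
    intro χ
    unfold w
    rw [Complex.ofReal_div, sq_norm_eq, Complex.ofReal_natCast, div_mul_eq_mul_div,
      Finset.sum_mul, Finset.sum_div]
    refine Finset.sum_congr rfl fun x _ => ?_
    rw [Finset.sum_mul, Finset.sum_div]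
    refine Finset.sum_congr rfl fun x' _ => ?_
    rw [AddChar.map_add_eq_mul]
    ring
  rw [Finset.sum_congr rfl (fun χ _ => h1 χ), Finset.sum_comm]
  push_cast
  refine Finset.sum_congr rfl fun x _ => ?_
  rw [Finset.sum_comm]
  have h2 : ∀ x', ∑ χ : AddChar G ℂ, (g x : ℂ) * g x' * χ (x - x' + y) / Fintype.card G =
      if x' = x + y then (g x : ℂ) * g (x + y) else 0 := by
    intro x'
    rw [← Finset.sum_div, ← Finset.mul_sum, AddChar.sum_apply_eq_ite]
    by_cases h : x' = x + y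
    · rw [if_pos h, if_pos (by rw [h]; abel), h]
      field_simp
    · rw [if_neg h, if_neg (fun h' => h ?_)]
      · simp
      · have : x' = x + y - (x - x' + y) := by abel
        rw [this, h', sub_zero]
  rw [Finset.sum_congr rfl (fun x' _ => h2 x')]
  simp

end FIN2L

open FIN2L in
theorem fin2 : FIN2 := by
  intro G _ _ _ σ τ hσ hτ h y hy
  set g : G → ℝ := fun x => √(σ x) with hg
  -- the coefficient of `τ`
  set T : AddChar G ℂ → ℝ := fun χ => ‖∑ t, (τ t : ℂ) * χ t‖ ^ 2 with hT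
  have hw0 : ∀ χ, 0 ≤ w g χ := fun χ => by unfold w; positivity
  have hw1 : ∑ χ, w g χ = 1 := by
    have h1 := F_eq g 0
    have h2 : (∑ x, g x * g (x + 0) : ℝ) = 1 := by
      rw [← hσ.2]
      refine Finset.sum_congr rfl fun x _ => ?_
      rw [add_zero]
      exact Real.mul_self_sqrt (hσ.1 x)
    rw [h2] at h1
    simp only [AddChar.map_zero_eq_one, mul_one] at h1
    exact_mod_cast h1.symm
  have hF : ∀ z : G, (∑ x, g x * g (x + z) : ℝ) = ∑ χ, w g χ * (χ z).re := by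
    intro z
    have h1 := congrArg Complex.re (F_eq g z)
    rw [Complex.ofReal_re, Complex.re_sum] at h1
    rw [h1]
    refine Finset.sum_congr rfl fun χ _ => ?_
    rw [Complex.re_ofReal_mul]
  have hT1 : ∀ χ, T χ ≤ 1 := by
    intro χ
    have h1 : ‖∑ t, (τ t : ℂ) * χ t‖ ≤ 1 := by
      rw [← hτ.2]
      refine (norm_sum_le _ _).trans (Finset.sum_le_sum fun t _ => ?_)
      rw [norm_mul, AddChar.norm_apply, mul_one, Complex.norm_real, Real.norm_of_nonneg (hτ.1 t)]
    exact pow_le_one₀ (norm_nonneg _) h1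
  have hTre : ∀ χ, T χ = ∑ t, ∑ t', τ t * τ t' * (χ (t - t')).re := by
    intro χ
    have h1 := congrArg Complex.re (sq_norm_eq τ χ)
    rw [Complex.ofReal_re] at h1
    rw [hT]
    simp only
    rw [h1, Complex.re_sum]
    refine Finset.sum_congr rfl fun t _ => ?_
    rw [Complex.re_sum]
    refine Finset.sum_congr rfl fun t' _ => ?_
    rw [← Complex.ofReal_mul, Complex.re_ofReal_mul]
  have hmain : ∑ t, ∑ t', τ t * τ t' * (1 - ∑ x, √(σ x) * √(σ (x + (t - t')))) =
      ∑ χ, w g χ * (1 - T χ) := by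
    have h1 : ∀ t t' : G, τ t * τ t' * (1 - ∑ x, √(σ x) * √(σ (x + (t - t')))) =
        ∑ χ, w g χ * (τ t * τ t' - τ t * τ t' * (χ (t - t')).re) := by
      intro t t'
      have h2 : ∑ x, √(σ x) * √(σ (x + (t - t'))) = ∑ χ, w g χ * (χ (t - t')).re := hF (t - t')
      rw [h2]
      conv_lhs => rw [← hw1]
      rw [← Finset.sum_sub_distrib, Finset.mul_sum]
      exact Finset.sum_congr rfl fun χ _ => by ring
    rw [Finset.sum_congr rfl (fun t _ => Finset.sum_congr rfl fun t' _ => h1 t t')]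
    rw [Finset.sum_congr rfl (fun t _ => Finset.sum_comm), Finset.sum_comm]
    refine Finset.sum_congr rfl fun χ _ => ?_
    have h3 : (1 : ℝ) = ∑ t, ∑ t', τ t * τ t' := by
      rw [← Finset.sum_mul_sum, hτ.2, one_mul]
    rw [hTre χ]
    nth_rewrite 1 [h3]
    rw [← Finset.sum_sub_distrib, Finset.mul_sum]
    refine Finset.sum_congr rfl fun t _ => ?_
    rw [← Finset.sum_sub_distrib, Finset.mul_sum]
  rw [hmain] at h
  -- the value at `y`
  have hpt : ∀ χ : AddChar G ℂ, 3 / 4 - 7 / 2 * (1 - T χ) ≤ (χ y).re := by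
    intro χ
    have hn : ‖χ y‖ = 1 := AddChar.norm_apply χ y
    by_cases hc : 1 / 2 ≤ T χ
    · have h1 := hy χ hc
      have h2 : |(χ y - 1).re| ≤ 1 / 4 := (Complex.abs_re_le_norm _).trans h1
      rw [Complex.sub_re, Complex.one_re] at h2
      have h3 := (abs_le.1 h2).1
      have h4 := hT1 χ
      linarith
    · push Not at hc
      have h2 : |(χ y).re| ≤ 1 := (Complex.abs_re_le_norm _).trans hn.le
      have h3 := (abs_le.1 h2).1
      linarith
  have hpos : 0 < ∑ x, g x * g (x + y) := by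
    rw [hF y]
    have h1 : ∑ χ, w g χ * (3 / 4 - 7 / 2 * (1 - T χ)) ≤ ∑ χ, w g χ * (χ y).re :=
      Finset.sum_le_sum fun χ _ => mul_le_mul_of_nonneg_left (hpt χ) (hw0 χ)
    have h2 : ∑ χ, w g χ * (3 / 4 - 7 / 2 * (1 - T χ)) =
        3 / 4 * ∑ χ, w g χ - 7 / 2 * ∑ χ, w g χ * (1 - T χ) := by
      rw [Finset.mul_sum, Finset.mul_sum, ← Finset.sum_sub_distrib]
      exact Finset.sum_congr rfl fun χ _ => by ring
    rw [h2, hw1] at h1
    linarith
  obtain ⟨x, -, hx⟩ := Finset.exists_ne_zero_of_sum_ne_zero hpos.ne'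
  refine ⟨x + y, x, ?_, ?_, by abel⟩
  · intro h0
    apply hx
    simp [hg, h0]
  · intro h0
    apply hx
    simp [hg, h0]

end Pool.Agent.H98.BG
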