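import Pool.Agent.H98.BG.Final

/-!
# Vector spaces over the field with two elements
-/

set_option autoImplicit false

namespace Pool.Agent.H98.BG

open Finset
open scoped Pointwise

namespace F2L

variable {n : ℕ}

abbrev V2 (n : ℕ) : Type := Fin n → ZMod 2

lemma add_self (v : V2 n) : v + v = 0 := by
  funext i
  exact CharTwo.add_self_eq_zero (v i)

lemma sq_one (χ : AddChar (V2 n) ℂ) (v : V2 n) : χ v = 1 ∨ χ v = -1 := by
  have h : χ v * χ v = 1 := by
    rw [← AddChar.map_add_eq_mul, add_self, AddChar.map_zero_eq_one]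
  exact mul_self_eq_one_iff.1 h

/-- the linear form of a character -/
noncomputable def lf (χ : AddChar (V2 n) ℂ) (v : V2 n) : ZMod 2 := by
  classical exact if χ v = 1 then 0 else 1

lemma lf_add (χ : AddChar (V2 n) ℂ) (v w : V2 n) : lf χ (v + w) = lf χ v + lf χ w := by
  unfold lf
  have h : χ (v + w) = χ v * χ w := AddChar.map_add_eq_mul χ v w
  have h2 : (-1 : ℂ) ≠ 1 := by norm_num
  rcases sq_one χ v with hv | hv <;> rcases sq_one χ w with hw | hw
  · simp [h, hv, hw]
  · simp [h, hv, hw, h2]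
  · simp [h, hv, hw, h2]
  · simp [h, hv, hw, h2]
    decide

/-- the linear map of a set of characters -/
noncomputable def lm (Γ : Finset (AddChar (V2 n) ℂ)) : V2 n →ₗ[ZMod 2] (Γ → ZMod 2) :=
  AddMonoidHom.toZModLinearMap 2
    { toFun := fun v χ => lf χ.1 v
      map_zero' := by
        funext χ
        have h := lf_add χ.1 (0 : V2 n) 0
        rw [add_zero] at h
        simpa using h
      map_add' := fun v w => by
        funext χ
        exact lf_add χ.1 v w }

lemma lm_apply (Γ : Finset (AddChar (V2 n) ℂ)) (v : V2 n) (χ : Γ) : lm Γ v χ = lf χ.1 v := rfl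

lemma exists_submodule (Γ : Finset (AddChar (V2 n) ℂ)) :
    ∃ V : Submodule (ZMod 2) (V2 n), n ≤ Module.finrank (ZMod 2) V + Γ.card ∧
      ∀ v ∈ V, ∀ χ ∈ Γ, χ v = 1 := by
  have : Fact (Nat.Prime 2) := ⟨Nat.prime_two⟩
  refine ⟨LinearMap.ker (lm Γ), ?_, ?_⟩
  · have h1 := LinearMap.finrank_range_add_finrank_ker (lm Γ)
    have h2 : Module.finrank (ZMod 2) (LinearMap.range (lm Γ)) ≤ Γ.card := by
      refine (Submodule.finrank_le _).trans ?_
      rw [Module.finrank_fintype_fun_eq_card, Fintype.card_coe]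
    have h3 : Module.finrank (ZMod 2) (V2 n) = n := by
      rw [Module.finrank_fintype_fun_eq_card, Fintype.card_fin]
    rw [h3] at h1
    omega
  · intro v hv χ hχ
    have h1 : lm Γ v ⟨χ, hχ⟩ = 0 := by
      rw [LinearMap.mem_ker.1 hv]; rfl
    rw [lm_apply] at h1
    unfold lf at h1
    by_contra h2
    rw [if_neg h2] at h1
    exact one_ne_zero h1

end F2L

open F2L

/-- sets of density at least `1/K` -/
theorem f2 (k : ℕ) (hk : 1 ≤ k) : ∃ C : ℝ, 0 < C ∧
    ∀ (n : ℕ) (A : Finset (Fin n → ZMod 2)) (K : ℝ), A.Nonempty → 2 ≤ K →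
      (2 : ℝ) ^ n ≤ K * A.card →
      ∃ V : Submodule (ZMod 2) (Fin n → ZMod 2),
        (n : ℝ) ≤ Module.finrank (ZMod 2) V + C * Real.log K ^ ((2 : ℝ) + 1 / k) ∧
        ∀ v ∈ V, v ∈ (k + 1) • A - (k + 1) • A := by
  obtain ⟨C, c, hC, hc, h⟩ := fgEnergy k hk
  have hk1 : (1 : ℝ) ≤ k := by exact_mod_cast hk
  set e : ℝ := (2 : ℝ) + 1 / k with he
  have he2 : 2 ≤ e := by
    have : (0 : ℝ) ≤ 1 / k := by positivity
    linarith
  have he3 : e ≤ 3 := by
    have : (1 : ℝ) / k ≤ 1 := by rw [div_le_one (by linarith)]; exact hk1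
    linarith
  refine ⟨24 * C, by positivity, ?_⟩
  intro n A K hA hK hAK
  have hcA : (0 : ℝ) < A.card := by exact_mod_cast hA.card_pos
  have hcard : (Fintype.card (Fin n → ZMod 2) : ℝ) = 2 ^ n := by
    rw [Fintype.card_fun, ZMod.card, Fintype.card_fin]; push_cast; rfl
  have hE : (A.card : ℝ) ^ 3 ≤ K * (A.addEnergy A : ℕ) := by
    have h1 : A.card ^ 2 * A.card ^ 2 ≤ (A + A).card * A.addEnergy A :=
      Finset.le_card_add_mul_addEnergy A A
    have h2 : (A.card : ℝ) ^ 2 * (A.card : ℝ) ^ 2 ≤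
        ((A + A).card : ℝ) * ((A.addEnergy A : ℕ) : ℝ) := by
      exact_mod_cast h1
    have h3 : ((A + A).card : ℝ) ≤ 2 ^ n := by
      rw [← hcard]
      exact_mod_cast Finset.card_le_univ (A + A)
    have h4 : (0 : ℝ) ≤ ((A.addEnergy A : ℕ) : ℝ) := Nat.cast_nonneg _
    have h5 : (A.card : ℝ) * (A.card : ℝ) ^ 3 ≤ A.card * (K * ((A.addEnergy A : ℕ) : ℝ)) := by
      calc (A.card : ℝ) * (A.card : ℝ) ^ 3 = (A.card : ℝ) ^ 2 * (A.card : ℝ) ^ 2 := by ring
        _ ≤ ((A + A).card : ℝ) * ((A.addEnergy A : ℕ) : ℝ) := h2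
        _ ≤ (2 : ℝ) ^ n * ((A.addEnergy A : ℕ) : ℝ) := mul_le_mul_of_nonneg_right h3 h4
        _ ≤ (K * A.card) * ((A.addEnergy A : ℕ) : ℝ) := mul_le_mul_of_nonneg_right hAK h4
        _ = _ := by ring
    exact le_of_mul_le_mul_left h5 hcA
  obtain ⟨Γ, hΓ, hy⟩ := h (Fin n → ZMod 2) A K hA (by linarith) hE
  obtain ⟨V, hV, hVχ⟩ := exists_submodule Γ
  have hcardA : (A.card : ℝ) ≤ 2 ^ n := by
    rw [← hcard]; exact_mod_cast Finset.card_le_univ A
  have hl2 : (0.69 : ℝ) ≤ Real.log 2 := by linarith [Real.log_two_gt_d9]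
  have hlK : Real.log 2 ≤ Real.log K := Real.log_le_log (by norm_num) hK
  have h2K : Real.log (2 * K) ≤ 2 * Real.log K := by
    rw [Real.log_mul (by norm_num) (by linarith)]; linarith
  have hℓ : Real.log (2 * Fintype.card (Fin n → ZMod 2) / A.card) ≤ 2 * Real.log K := by
    rw [hcard]
    refine le_trans ?_ h2K
    apply Real.log_le_log (by positivity)
    rw [div_le_iff₀ hcA]
    linarith
  have hpow : (2 * Real.log K) ^ e ≤ 8 * Real.log K ^ e := by
    calc (2 * Real.log K) ^ e = 2 ^ e * Real.log K ^ e :=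
          Real.mul_rpow (by norm_num) (by linarith)
      _ ≤ 2 ^ (3 : ℝ) * Real.log K ^ e := by
          apply mul_le_mul_of_nonneg_right
          · exact Real.rpow_le_rpow_of_exponent_le (by norm_num) he3
          · exact Real.rpow_nonneg (by linarith) _
      _ = 8 * Real.log K ^ e := by norm_num
  have h1 : 2 * Real.log K ≤ 8 * Real.log K ^ e := by
    refine le_trans ?_ hpow
    calc 2 * Real.log K = (2 * Real.log K) ^ (1 : ℝ) := (Real.rpow_one _).symm
      _ ≤ (2 * Real.log K) ^ e := Real.rpow_le_rpow_of_exponent_le (by linarith) (by linarith)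
  have h3 : Real.log (2 * K) ^ e ≤ 8 * Real.log K ^ e := by
    refine le_trans ?_ hpow
    exact Real.rpow_le_rpow (Real.log_nonneg (by linarith)) h2K (by linarith)
  have hpos : 0 ≤ Real.log K ^ e := Real.rpow_nonneg (by linarith) _
  refine ⟨V, ?_, ?_⟩
  · have h4 : (n : ℝ) ≤ Module.finrank (ZMod 2) V + Γ.card := by exact_mod_cast hV
    have h5 : (Γ.card : ℝ) ≤ 24 * C * Real.log K ^ e := by
      refine hΓ.trans ?_
      calc C * (Real.log (2 * Fintype.card (Fin n → ZMod 2) / A.card) +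
            Real.log (2 * K) ^ e) ≤ C * (24 * Real.log K ^ e) :=
            mul_le_mul_of_nonneg_left (by linarith) hC.le
        _ = _ := by ring
    linarith
  · intro v hv
    apply hy
    intro χ hχ
    rw [hVχ v hv χ hχ, sub_self, norm_zero]
    apply div_nonneg hc.le
    apply Real.log_nonneg
    rw [hcard, le_div_iff₀ hcA]
    linarith

end Pool.Agent.H98.BG
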