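import Pool.Agent.H98.BG.Final

/-!
# Vector spaces over prime fields
-/

set_option autoImplicit false

namespace Pool.Agent.H98.BG

open Finset
open scoped Pointwise

namespace FqL

variable {n q : ℕ} [hq : Fact q.Prime]

/-- the kernel of a character -/
def kerc (χ : AddChar (Fin n → ZMod q) ℂ) : AddSubgroup (Fin n → ZMod q) where
  carrier := {v | χ v = 1}
  zero_mem' := AddChar.map_zero_eq_one χ
  add_mem' := by
    intro a b ha hb
    simp only [Set.mem_ofPred_eq] at *
    rw [AddChar.map_add_eq_mul, ha, hb, mul_one]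
  neg_mem' := by
    intro a ha
    simp only [Set.mem_ofPred_eq] at *
    rw [AddChar.map_neg_eq_inv, ha, inv_one]

lemma mem_kerc (χ : AddChar (Fin n → ZMod q) ℂ) (v : Fin n → ZMod q) :
    v ∈ kerc χ ↔ χ v = 1 := Iff.rfl

lemma kerc_index (χ : AddChar (Fin n → ZMod q) ℂ) : (kerc χ).index ≤ q := by
  classical
  have hq0 : 0 < q := hq.out.pos
  have hroot : ∀ v, χ v ∈ Polynomial.nthRootsFinset q (1 : ℂ) := by
    intro v
    rw [Polynomial.mem_nthRootsFinset hq0, ← AddChar.map_nsmul_eq_pow]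
    have : q • v = 0 := by
      funext i
      simp [nsmul_eq_mul]
    rw [this, AddChar.map_zero_eq_one]
  let f : (Fin n → ZMod q) ⧸ kerc χ → Polynomial.nthRootsFinset q (1 : ℂ) :=
    Quotient.lift (fun v => (⟨χ v, hroot v⟩ : Polynomial.nthRootsFinset q (1 : ℂ))) (by
      intro a b hab
      have h1 : -a + b ∈ kerc χ := QuotientAddGroup.leftRel_apply.1 hab
      rw [mem_kerc, AddChar.map_add_eq_mul, AddChar.map_neg_eq_inv] at h1
      have h0 : χ a ≠ 0 := by
        intro h
        rw [h, inv_zero, zero_mul] at h1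
        exact zero_ne_one h1
      apply Subtype.ext
      change χ a = χ b
      field_simp at h1
      exact h1.symm)
  have hf : Function.Injective f := by
    intro x y
    refine Quotient.inductionOn₂ x y ?_
    intro a b hab
    have h1 : χ a = χ b := congrArg Subtype.val hab
    apply Quotient.sound
    refine QuotientAddGroup.leftRel_apply.2 ?_
    rw [mem_kerc, AddChar.map_add_eq_mul, AddChar.map_neg_eq_inv, h1]
    have h0 : χ b ≠ 0 := by
      intro h
      have := AddChar.norm_apply χ b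
      rw [h, norm_zero] at this
      exact zero_ne_one this
    exact inv_mul_cancel₀ h0
  have h1 : Nat.card ((Fin n → ZMod q) ⧸ kerc χ) ≤
      Nat.card (Polynomial.nthRootsFinset q (1 : ℂ)) := Nat.card_le_card_of_injective f hf
  rw [Nat.card_eq_fintype_card (α := Polynomial.nthRootsFinset q (1 : ℂ)), Fintype.card_coe] at h1
  refine h1.trans ?_
  unfold Polynomial.nthRootsFinset
  exact (Multiset.toFinset_card_le _).trans (Polynomial.card_nthRoots q 1)

lemma exists_sub (Γ : Finset (AddChar (Fin n → ZMod q) ℂ)) :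
    ∃ S : AddSubgroup (Fin n → ZMod q), S.index ≤ q ^ Γ.card ∧ ∀ v ∈ S, ∀ χ ∈ Γ, χ v = 1 := by
  classical
  induction Γ using Finset.induction_on with
  | empty => exact ⟨⊤, by simp, by simp⟩
  | insert χ Γ hχ ih =>
    obtain ⟨S, hS, hS'⟩ := ih
    refine ⟨S ⊓ kerc χ, ?_, ?_⟩
    · rw [Finset.card_insert_of_notMem hχ, pow_succ]
      exact AddSubgroup.index_inf_le.trans (Nat.mul_le_mul hS (kerc_index χ))
    · intro v hv χ' hχ'
      rw [Finset.mem_insert] at hχ'
      rcases hχ' with rfl | h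
      · exact hv.2
      · exact hS' v hv.1 χ' h

lemma exists_submodule (Γ : Finset (AddChar (Fin n → ZMod q) ℂ)) :
    ∃ V : Submodule (ZMod q) (Fin n → ZMod q), n ≤ Module.finrank (ZMod q) V + Γ.card ∧
      ∀ v ∈ V, ∀ χ ∈ Γ, χ v = 1 := by
  classical
  obtain ⟨S, hS, hS'⟩ := exists_sub Γ
  refine ⟨AddSubgroup.toZModSubmodule q S, ?_, ?_⟩
  · have h1 : Nat.card S * S.index = Nat.card (Fin n → ZMod q) := S.card_mul_index
    have h2 : Nat.card (Fin n → ZMod q) = q ^ n := by
      rw [Nat.card_eq_fintype_card, Fintype.card_fun, ZMod.card, Fintype.card_fin]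
    have h3 : Nat.card S = q ^ Module.finrank (ZMod q) (AddSubgroup.toZModSubmodule q S) := by
      have := Module.card_eq_pow_finrank (K := ZMod q) (V := AddSubgroup.toZModSubmodule q S)
      rw [ZMod.card] at this
      rw [← this, Nat.card_eq_fintype_card]
      rfl
    rw [h2, h3] at h1
    have h4 : q ^ n ≤ q ^ (Module.finrank (ZMod q) (AddSubgroup.toZModSubmodule q S) + Γ.card) := by
      rw [← h1, pow_add]
      exact Nat.mul_le_mul_left _ hS
    exact (Nat.pow_le_pow_iff_right hq.out.one_lt).1 h4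
  · intro v hv
    exact hS' v hv

end FqL

open FqL

/-- sets of density at least `1/K` -/
theorem fq (k : ℕ) (hk : 1 ≤ k) : ∃ C : ℝ, 0 < C ∧
    ∀ (q : ℕ) [Fact q.Prime] (n : ℕ) (A : Finset (Fin n → ZMod q)) (K : ℝ), A.Nonempty → 2 ≤ K →
      (q : ℝ) ^ n ≤ K * A.card →
      ∃ V : Submodule (ZMod q) (Fin n → ZMod q),
        (n : ℝ) ≤ Module.finrank (ZMod q) V + C * Real.log K ^ ((2 : ℝ) + 1 / k) ∧
        ∀ v ∈ V, v ∈ (k + 1) • A - (k + 1) • A := by
  obtain ⟨C, c, hC, hc, h⟩ := fgEnergy k hk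
  have hk1 : (1 : ℝ) ≤ k := by exact_mod_cast hk
  set e : ℝ := (2 : ℝ) + 1 / k with he
  have he2 : 2 ≤ e := by
    have : (0 : ℝ) ≤ 1 / k := by positivity
    linarith
  have he3 : e ≤ 3 := by
    have : (1 : ℝ) / k ≤ 1 := by rw [div_le_one (by linarith)]; exact hk1
    linarith
  refine ⟨24 * C, by positivity, ?_⟩
  intro q hq n A K hA hK hAK
  have hcA : (0 : ℝ) < A.card := by exact_mod_cast hA.card_pos
  have hcard : (Fintype.card (Fin n → ZMod q) : ℝ) = (q : ℝ) ^ n := by
    rw [Fintype.card_fun, ZMod.card, Fintype.card_fin]; push_cast; rfl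
  have hE : (A.card : ℝ) ^ 3 ≤ K * (A.addEnergy A : ℕ) := by
    have h1 : A.card ^ 2 * A.card ^ 2 ≤ (A + A).card * A.addEnergy A :=
      Finset.le_card_add_mul_addEnergy A A
    have h2 : (A.card : ℝ) ^ 2 * (A.card : ℝ) ^ 2 ≤
        ((A + A).card : ℝ) * ((A.addEnergy A : ℕ) : ℝ) := by
      exact_mod_cast h1
    have h3 : ((A + A).card : ℝ) ≤ (q : ℝ) ^ n := by
      rw [← hcard]
      exact_mod_cast Finset.card_le_univ (A + A)
    have h4 : (0 : ℝ) ≤ ((A.addEnergy A : ℕ) : ℝ) := Nat.cast_nonneg _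
    have h5 : (A.card : ℝ) * (A.card : ℝ) ^ 3 ≤ A.card * (K * ((A.addEnergy A : ℕ) : ℝ)) := by
      calc (A.card : ℝ) * (A.card : ℝ) ^ 3 = (A.card : ℝ) ^ 2 * (A.card : ℝ) ^ 2 := by ring
        _ ≤ ((A + A).card : ℝ) * ((A.addEnergy A : ℕ) : ℝ) := h2
        _ ≤ (q : ℝ) ^ n * ((A.addEnergy A : ℕ) : ℝ) := mul_le_mul_of_nonneg_right h3 h4
        _ ≤ (K * A.card) * ((A.addEnergy A : ℕ) : ℝ) := mul_le_mul_of_nonneg_right hAK h4
        _ = _ := by ring
    exact le_of_mul_le_mul_left h5 hcA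
  obtain ⟨Γ, hΓ, hy⟩ := h (Fin n → ZMod q) A K hA (by linarith) hE
  obtain ⟨V, hV, hVχ⟩ := FqL.exists_submodule Γ
  have hcardA : (A.card : ℝ) ≤ (q : ℝ) ^ n := by
    rw [← hcard]; exact_mod_cast Finset.card_le_univ A
  have hl2 : (0.69 : ℝ) ≤ Real.log 2 := by linarith [Real.log_two_gt_d9]
  have hlK : Real.log 2 ≤ Real.log K := Real.log_le_log (by norm_num) hK
  have h2K : Real.log (2 * K) ≤ 2 * Real.log K := by
    rw [Real.log_mul (by norm_num) (by linarith)]; linarith
  have hqn : (0 : ℝ) < (q : ℝ) ^ n := by linarith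
  have hℓ : Real.log (2 * Fintype.card (Fin n → ZMod q) / A.card) ≤ 2 * Real.log K := by
    rw [hcard]
    refine le_trans ?_ h2K
    apply Real.log_le_log (by positivity)
    rw [div_le_iff₀ hcA]
    linarith
  have hpow : (2 * Real.log K) ^ e ≤ 8 * Real.log K ^ e := by
    calc (2 * Real.log K) ^ e = 2 ^ e * Real.log K ^ e :=
          Real.mul_rpow (by norm_num) (by linarith)
      _ ≤ 2 ^ (3 : ℝ) * Real.log K ^ e := by
          apply mul_le_mul_of_nonneg_right
          · exact Real.rpow_le_rpow_of_exponent_le (by norm_num) he3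
          · exact Real.rpow_nonneg (by linarith) _
      _ = 8 * Real.log K ^ e := by norm_num
  have h1 : 2 * Real.log K ≤ 8 * Real.log K ^ e := by
    refine le_trans ?_ hpow
    calc 2 * Real.log K = (2 * Real.log K) ^ (1 : ℝ) := (Real.rpow_one _).symm
      _ ≤ (2 * Real.log K) ^ e := Real.rpow_le_rpow_of_exponent_le (by linarith) (by linarith)
  have h3 : Real.log (2 * K) ^ e ≤ 8 * Real.log K ^ e := by
    refine le_trans ?_ hpow
    exact Real.rpow_le_rpow (Real.log_nonneg (by linarith)) h2K (by linarith)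
  have hpos : 0 ≤ Real.log K ^ e := Real.rpow_nonneg (by linarith) _
  refine ⟨V, ?_, ?_⟩
  · have h4 : (n : ℝ) ≤ Module.finrank (ZMod q) V + Γ.card := by exact_mod_cast hV
    have h5 : (Γ.card : ℝ) ≤ 24 * C * Real.log K ^ e := by
      refine hΓ.trans ?_
      calc C * (Real.log (2 * Fintype.card (Fin n → ZMod q) / A.card) +
            Real.log (2 * K) ^ e) ≤ C * (24 * Real.log K ^ e) :=
            mul_le_mul_of_nonneg_left (by linarith) hC.le
        _ = _ := by ring
    linarith
  · intro v hv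
    apply hy
    intro χ hχ
    rw [hVχ v hv χ hχ, sub_self, norm_zero]
    apply div_nonneg hc.le
    apply Real.log_nonneg
    rw [hcard, le_div_iff₀ hcA]
    linarith

end Pool.Agent.H98.BG
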