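import Pool.Agent.H98.BG.Stmt

set_option autoImplicit false

namespace Pool.Agent.H98.BG

open Finset
open scoped Pointwise BigOperators

namespace CH1L

variable {G : Type} [AddCommGroup G] [Fintype G]

lemma addDissociated {Λ : Finset (AddChar G ℂ)} (h : Diss Λ) :
    AddDissociated (Λ : Set (AddChar G ℂ)) := by
  classical
  by_contra hn
  obtain ⟨t, u, ht, hu, hd, hne, he⟩ := not_addDissociated_iff_exists_disjoint.1 hn
  set e : AddChar G ℂ → ℤ := fun l => if l ∈ t then 1 else if l ∈ u then -1 else 0 with hedef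
  have h1 : ∏ l ∈ Λ, l ^ e l = 1 := by
    have ht' : t ⊆ Λ := by exact_mod_cast ht
    have hu' : u ⊆ Λ := by exact_mod_cast hu
    have h2 : ∀ l : AddChar G ℂ, l ^ e l = (if l ∈ t then l else 1) * (if l ∈ u then l⁻¹ else 1) := by
      intro l
      simp only [hedef]
      by_cases hlt : l ∈ t
      · have hlu : l ∉ u := fun h' => Finset.disjoint_left.1 hd hlt h'
        simp [hlt, hlu]
      · by_cases hlu : l ∈ u
        · simp [hlt, hlu]
        · simp [hlt, hlu]
    rw [Finset.prod_congr rfl (fun l _ => h2 l), Finset.prod_mul_distrib, Finset.prod_ite_mem,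
      Finset.prod_ite_mem, Finset.inter_eq_right.2 ht', Finset.inter_eq_right.2 hu',
      Finset.prod_inv_distrib, mul_inv_eq_one]
    exact he
  have h3 := h e (fun l => by simp only [hedef]; split_ifs <;> simp) h1
  apply hne
  ext l
  constructor
  · intro hl
    have := h3 l (by exact_mod_cast ht hl)
    simp [hedef, hl] at this
  · intro hl
    have hlt : l ∉ t := fun h' => Finset.disjoint_left.1 hd h' hl
    have := h3 l (by exact_mod_cast hu hl)
    simp [hedef, hl, hlt] at this

end CH1L

open CH1L in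
theorem ch1 : CH1 := by
  classical
  intro G _ _ Λ a hΛ
  have hG : (0 : ℝ) < Fintype.card G := by
    have : 0 < Fintype.card G := Fintype.card_pos
    exact_mod_cast this
  -- the coefficients
  set ω : AddChar G ℂ → ℂ := fun l => if a l = 0 then 1 else a l / ‖a l‖ with hω
  have hω1 : ∀ l, ‖ω l‖ = 1 := by
    intro l
    simp only [hω]
    split_ifs with h0
    · simp
    · rw [norm_div, Complex.norm_real, norm_norm, div_self (norm_ne_zero_iff.2 h0)]
  have haω : ∀ l, a l = (‖a l‖ : ℂ) * ω l := by
    intro l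
    simp only [hω]
    split_ifs with h0
    · simp [h0]
    · have : (‖a l‖ : ℂ) ≠ 0 := by exact_mod_cast norm_ne_zero_iff.2 h0
      field_simp
  set c : AddChar G ℂ → ℝ := fun l => if l ∈ Λ then Real.cosh ‖a l‖ else 1 with hc
  set d : AddChar G ℂ → ℂ := fun l => if l ∈ Λ then (Real.sinh ‖a l‖ : ℂ) * ω l else 0 with hd
  have hdis : AddDissociated {ψ | d ψ ≠ 0} := by
    refine AddDissociated.subset ?_ (addDissociated hΛ)
    intro l hl
    by_contra hn
    apply hl
    have : l ∉ Λ := by simpa using hn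
    simp [hd, this]
  have hr := AddDissociated.randomisation c d hdis
  have hpt : ∀ x : G, Real.exp (∑ l ∈ Λ, (a l * l x).re) ≤ ∏ ψ, (c ψ + (d ψ * ψ x).re) := by
    intro x
    have h1 : ∏ ψ, (c ψ + (d ψ * ψ x).re) =
        ∏ l ∈ Λ, (Real.cosh ‖a l‖ + (ω l * l x).re * Real.sinh ‖a l‖) := by
      rw [← Finset.prod_subset (Finset.subset_univ Λ)]
      · refine Finset.prod_congr rfl fun l hl => ?_
        simp only [hc, hd, hl, if_true]
        rw [mul_assoc, Complex.re_ofReal_mul]
        ring
      · intro l _ hl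
        simp [hc, hd, hl]
    rw [h1, Real.exp_sum]
    refine Finset.prod_le_prod (fun l _ => (Real.exp_pos _).le) fun l _ => ?_
    have h2 : (a l * l x).re = (ω l * l x).re * ‖a l‖ := by
      conv_lhs => rw [haω l]
      rw [mul_assoc, Complex.re_ofReal_mul]
      ring
    rw [h2]
    refine Real.exp_mul_le_cosh_add_mul_sinh ?_ _
    refine (Complex.abs_re_le_norm _).trans ?_
    rw [norm_mul, hω1, AddChar.norm_apply, one_mul]
  calc ∑ x : G, Real.exp (∑ l ∈ Λ, (a l * l x).re)
      ≤ ∑ x : G, ∏ ψ, (c ψ + (d ψ * ψ x).re) := Finset.sum_le_sum fun x _ => hpt x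
    _ = (Fintype.card G : ℝ) * ∏ ψ, c ψ := by
        rw [← hr, Fintype.expect_eq_sum_div_card]
        field_simp
    _ = (Fintype.card G : ℝ) * ∏ l ∈ Λ, Real.cosh ‖a l‖ := by
        congr 1
        rw [← Finset.prod_subset (Finset.subset_univ Λ)]
        · exact Finset.prod_congr rfl fun l hl => by simp [hc, hl]
        · intro l _ hl
          simp [hc, hl]
    _ ≤ (Fintype.card G : ℝ) * Real.exp (∑ l ∈ Λ, ‖a l‖ ^ 2 / 2) := by
        refine mul_le_mul_of_nonneg_left ?_ hG.le
        rw [Real.exp_sum]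
        exact Finset.prod_le_prod (fun l _ => (Real.cosh_pos _).le) fun l _ =>
          Real.cosh_le_exp_half_sq _

end Pool.Agent.H98.BG
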