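import Pool.Agent.H98.BG.Stmt

set_option autoImplicit false

namespace Pool.Agent.H98.BG

open Finset
open scoped Pointwise

namespace CH2L

theorem sumY {G : Type} [AddCommGroup G] [Fintype G] (τ : G → ℝ) (Λ : Finset (AddChar G ℂ)) :
    ∑ x, τ x * (∑ l ∈ Λ, ((starRingEnd ℂ) (∑ t, (τ t : ℂ) * l t) * l x).re) =
      ∑ l ∈ Λ, ‖∑ t, (τ t : ℂ) * l t‖ ^ 2 := by
  simp only [Finset.mul_sum]
  rw [Finset.sum_comm]
  refine Finset.sum_congr rfl (fun l _ => ?_)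
  have h1 : ∀ x, τ x * ((starRingEnd ℂ) (∑ t, (τ t : ℂ) * l t) * l x).re =
      ((starRingEnd ℂ) (∑ t, (τ t : ℂ) * l t) * ((τ x : ℂ) * l x)).re := by
    intro x
    have h2 : (starRingEnd ℂ) (∑ t, (τ t : ℂ) * l t) * ((τ x : ℂ) * l x) =
        (τ x : ℂ) * ((starRingEnd ℂ) (∑ t, (τ t : ℂ) * l t) * l x) := by ring
    rw [h2, Complex.re_ofReal_mul]
  simp only [h1]
  rw [← Complex.re_sum, ← Finset.mul_sum, mul_comm, Complex.mul_conj, Complex.ofReal_re,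
    Complex.normSq_eq_norm_sq]

end CH2L

theorem ch2 (gib : GIB) (ch1 : CH1) : CH2 := by
  intro G _ _ _ τ Λ D hτ hD hΛ hl
  set b : AddChar G ℂ → ℂ := fun l => ∑ t, (τ t : ℂ) * l t with hb
  set Y : G → ℝ := fun x => ∑ l ∈ Λ, ((starRingEnd ℂ) (b l) * l x).re with hY
  set Z : ℝ := ∑ x, Real.exp (Y x) with hZ
  have hZpos : 0 < Z := Finset.sum_pos (fun x _ => Real.exp_pos _) ⟨0, Finset.mem_univ _⟩
  have hcard : (0 : ℝ) < Fintype.card G := by exact_mod_cast Fintype.card_pos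
  have h1 := gib G τ (fun x => Real.exp (Y x) / Z) hτ (fun x => by positivity)
    (by rw [← Finset.sum_div, ← hZ, div_self hZpos.ne']) (fun x _ => by positivity)
  have h2 : ∀ x, Real.log (Real.exp (Y x) / Z) = Y x - Real.log Z := by
    intro x
    rw [Real.log_div (Real.exp_pos _).ne' hZpos.ne', Real.log_exp]
  simp only [h2] at h1
  have h3 : ∑ x, τ x * (Y x - Real.log Z) = (∑ l ∈ Λ, ‖b l‖ ^ 2) - Real.log Z := by
    have h4 : ∑ x, τ x * Y x = ∑ l ∈ Λ, ‖b l‖ ^ 2 := CH2L.sumY τ Λ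
    simp only [mul_sub]
    rw [Finset.sum_sub_distrib, h4, ← Finset.sum_mul, hτ.2, one_mul]
  rw [h3] at h1
  have h5 : Z ≤ (Fintype.card G : ℝ) * Real.exp (∑ l ∈ Λ, ‖b l‖ ^ 2 / 2) := by
    have h6 := ch1 G Λ (fun l => (starRingEnd ℂ) (b l)) hΛ
    have h7 : ∀ l, ‖(starRingEnd ℂ) (b l)‖ = ‖b l‖ := fun l => RCLike.norm_conj _
    simp only [h7] at h6
    exact h6
  have h8 : Real.log Z ≤ Real.log (Fintype.card G) + ∑ l ∈ Λ, ‖b l‖ ^ 2 / 2 := by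
    have h9 := Real.log_le_log hZpos h5
    rw [Real.log_mul hcard.ne' (Real.exp_pos _).ne', Real.log_exp] at h9
    exact h9
  have h10 : ∑ l ∈ Λ, ‖b l‖ ^ 2 / 2 = (∑ l ∈ Λ, ‖b l‖ ^ 2) / 2 := by rw [Finset.sum_div]
  have h11 : (Λ.card : ℝ) * (1 / 2) ≤ ∑ l ∈ Λ, ‖b l‖ ^ 2 := by
    have h12 := Finset.card_nsmul_le_sum Λ (fun l => ‖b l‖ ^ 2) (1 / 2) (fun l hlΛ => hl l hlΛ)
    rw [nsmul_eq_mul] at h12
    exact h12
  rw [h10] at h8
  linarith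

end Pool.Agent.H98.BG
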