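import Pool.Agent.H98.BG.Stmt

/-!
# The span of a maximal dissociated subset
-/

set_option autoImplicit false

namespace Pool.Agent.H98.BG

open Finset
open scoped Pointwise

namespace CH3L

variable {G : Type} [AddCommGroup G] [Fintype G]

theorem inv_bound (l : AddChar G ℂ) (y : G) : ‖l⁻¹ y - 1‖ = ‖l y - 1‖ := by
  have h1 : ‖l y‖ = 1 := l.norm_apply y
  have h0 : l y ≠ 0 := by
    intro h
    rw [h, norm_zero] at h1
    exact zero_ne_one h1
  have h2 : l⁻¹ y = (l y)⁻¹ := AddChar.inv_apply' l y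
  rw [h2]
  have h3 : (l y)⁻¹ - 1 = -((l y)⁻¹ * (l y - 1)) := by
    rw [mul_sub, inv_mul_cancel₀ h0]
    ring
  rw [h3, norm_neg, norm_mul, norm_inv, h1, inv_one, one_mul]

theorem zpow_bound (l : AddChar G ℂ) (e : ℤ) (he : e = -1 ∨ e = 0 ∨ e = 1) (y : G) :
    ‖(l ^ e) y - 1‖ ≤ ‖l y - 1‖ := by
  rcases he with rfl | rfl | rfl
  · rw [zpow_neg_one, inv_bound]
  · rw [zpow_zero, AddChar.one_apply, sub_self, norm_zero]
    exact norm_nonneg _
  · rw [zpow_one]

theorem prod_bound (Λ : Finset (AddChar G ℂ)) (f : AddChar G ℂ → AddChar G ℂ) (y : G) :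
    ‖(∏ l ∈ Λ, f l) y - 1‖ ≤ ∑ l ∈ Λ, ‖f l y - 1‖ := by
  classical
  induction Λ using Finset.induction_on with
  | empty => simp
  | insert a s ha ih =>
    rw [Finset.prod_insert ha, Finset.sum_insert ha, AddChar.mul_apply]
    have h1 : f a y * (∏ l ∈ s, f l) y - 1 = f a y * ((∏ l ∈ s, f l) y - 1) + (f a y - 1) := by
      ring
    rw [h1]
    refine le_trans (norm_add_le _ _) ?_
    rw [norm_mul, AddChar.norm_apply, one_mul]
    linarith

end CH3L

theorem ch3 : CH3 := by
  intro G _ _ S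
  classical
  have hempty : (∅ : Finset (AddChar G ℂ)) ∈ S.powerset.filter Diss := by
    rw [Finset.mem_filter]
    refine ⟨Finset.mem_powerset.2 (Finset.empty_subset _), ?_⟩
    intro e _ _ l hl
    exact absurd hl (Finset.notMem_empty l)
  obtain ⟨Λ, hΛ, hmax⟩ := Finset.exists_max_image (S.powerset.filter Diss) Finset.card ⟨∅, hempty⟩
  rw [Finset.mem_filter, Finset.mem_powerset] at hΛ
  refine ⟨Λ, hΛ.1, hΛ.2, ?_⟩
  intro χ hχ y ε hε
  by_cases hmem : χ ∈ Λ
  · have h1 := hε χ hmem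
    have h2 : 0 ≤ ε := le_trans (norm_nonneg _) h1
    have h3 : (1 : ℝ) ≤ Λ.card := by
      exact_mod_cast Finset.card_pos.2 ⟨χ, hmem⟩
    nlinarith
  · have hnd : ¬ Diss (insert χ Λ) := by
      intro hd
      have h1 : insert χ Λ ∈ S.powerset.filter Diss := by
        rw [Finset.mem_filter, Finset.mem_powerset]
        exact ⟨Finset.insert_subset hχ hΛ.1, hd⟩
      have h2 := hmax _ h1
      rw [Finset.card_insert_of_notMem hmem] at h2
      omega
    unfold Diss at hnd
    push Not at hnd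
    obtain ⟨e, he, hprod, l0, hl0, hne⟩ := hnd
    rw [Finset.prod_insert hmem] at hprod
    have hsum : ‖(∏ l ∈ Λ, l ^ e l) y - 1‖ ≤ Λ.card * ε := by
      refine le_trans (CH3L.prod_bound Λ (fun l => l ^ e l) y) ?_
      refine le_trans (Finset.sum_le_sum (fun l hl =>
        le_trans (CH3L.zpow_bound l (e l) (he l) y) (hε l hl))) ?_
      rw [Finset.sum_const, nsmul_eq_mul]
    rcases he χ with h | h | h
    · rw [h, zpow_neg_one, inv_mul_eq_one] at hprod
      rw [hprod]
      exact hsum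
    · exfalso
      rw [h, zpow_zero, one_mul] at hprod
      have h1 := hΛ.2 e he hprod
      rcases Finset.mem_insert.1 hl0 with h2 | h2
      · rw [h2] at hne
        exact hne h
      · exact hne (h1 l0 h2)
    · rw [h, zpow_one] at hprod
      have h1 : χ = (∏ l ∈ Λ, l ^ e l)⁻¹ := eq_inv_of_mul_eq_one_left hprod
      have h2 : ‖χ y - 1‖ = ‖(∏ l ∈ Λ, l ^ e l)⁻¹ y - 1‖ := by rw [← h1]
      rw [h2, CH3L.inv_bound]
      exact hsum

end Pool.Agent.H98.BG
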