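import Mathlib

/-!
# Bogolyubov's lemma with many summands: definitions

All random variables take values in a finite abelian group `G` and are given by their weights.
-/

set_option autoImplicit false

namespace Pool.Agent.H98.BG

open Finset

/-- probability weights -/
def IsP {α : Type} [Fintype α] (p : α → ℝ) : Prop := (∀ x, 0 ≤ p x) ∧ ∑ x, p x = 1

/-- Shannon entropy -/
noncomputable def H {α : Type} [Fintype α] (p : α → ℝ) : ℝ := ∑ x, Real.negMulLog (p x)

section

variable {G : Type} [AddCommGroup G] [Fintype G] [DecidableEq G]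

/-- the law of `S + T` for independent `S`, `T` with laws `σ`, `τ` -/
noncomputable def cv (σ τ : G → ℝ) (y : G) : ℝ := ∑ t, σ (y - t) * τ t

/-- the law of `S - T` for independent `S`, `T` with laws `σ`, `τ` -/
noncomputable def cm (σ τ : G → ℝ) (y : G) : ℝ := ∑ t, σ (y + t) * τ t

/-- the probability that `x + S` is in `B` -/
noncomputable def pr (σ : G → ℝ) (B : Finset G) (x : G) : ℝ :=
  ∑ s, if x + s ∈ B then σ s else 0

/-- the proportion of the indices `i` with `x + z i ∈ B` -/
noncomputable def em {m : ℕ} (B : Finset G) (z : Fin m → G) (x : G) : ℝ :=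
  (∑ i, if x + z i ∈ B then (1 : ℝ) else 0) / m

/-- the expectation over `m` independent samples with law `σ` -/
noncomputable def Ex {m : ℕ} (σ : G → ℝ) (φ : (Fin m → G) → ℝ) : ℝ :=
  ∑ s : Fin m → G, (∏ i, σ (s i)) * φ s

/-- the joint weight of `z = (S_i + T)_i` and of `t = T` -/
noncomputable def Wt {m : ℕ} (σ τ : G → ℝ) (z : Fin m → G) (t : G) : ℝ :=
  τ t * ∏ i, σ (z i - t)

/-- the law of `z = (S_i + T)_i` -/
noncomputable def Pz {m : ℕ} (σ τ : G → ℝ) (z : Fin m → G) : ℝ := ∑ t, Wt σ τ z t

/-- the law of `T` given `z` -/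
noncomputable def post {m : ℕ} (σ τ : G → ℝ) (z : Fin m → G) (t : G) : ℝ :=
  Wt σ τ z t / Pz σ τ z

end

end Pool.Agent.H98.BG
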