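import Pool.Agent.H98.BG.Stmt

set_option autoImplicit false

namespace Pool.Agent.H98.BG

open Finset
open scoped Pointwise

namespace FIN1L

variable {G : Type} [AddCommGroup G] [Fintype G] [DecidableEq G]

lemma sum_sub (f : G → ℝ) (t : G) : ∑ y, f (y - t) = ∑ y, f y :=
  Equiv.sum_comp (Equiv.subRight t) f

lemma point (a r : ℝ) (ha : 0 ≤ a) (hr : 0 ≤ r) (har : 0 < a → 0 < r) :
    2 * a - 2 * (√a * √r) ≤ a * Real.log a - a * Real.log r := by
  rcases ha.eq_or_lt with rfl | ha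
  · simp
  have hr := har ha
  have h1 : Real.log r - Real.log a = 2 * Real.log (√(r / a)) := by
    rw [Real.log_sqrt (by positivity), Real.log_div hr.ne' ha.ne']
    ring
  have h2 : Real.log (√(r / a)) ≤ √(r / a) - 1 :=
    Real.log_le_sub_one_of_pos (Real.sqrt_pos.2 (by positivity))
  have h3 : a * √(r / a) = √a * √r := by
    rw [Real.sqrt_div hr.le]
    have h4 : √a * √a = a := Real.mul_self_sqrt ha.le
    have h5 : √a ≠ 0 := (Real.sqrt_pos.2 ha).ne'
    field_simp
    nlinarith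
  have h6 : a * (Real.log r - Real.log a) ≤ a * (2 * (√(r / a) - 1)) :=
    mul_le_mul_of_nonneg_left (by rw [h1]; linarith) ha.le
  nlinarith

end FIN1L

open FIN1L in
theorem fin1 : FIN1 := by
  intro G _ _ _ σ τ c hσ hτ h
  set ρ := cv σ τ with hρ
  have hρ0 : ∀ y, 0 ≤ ρ y := fun y =>
    Finset.sum_nonneg fun t _ => mul_nonneg (hσ.1 _) (hτ.1 _)
  have hρ1 : ∑ y, ρ y = 1 := by
    have : ∑ y, ρ y = ∑ t, ∑ y, σ (y - t) * τ t := by
      rw [Finset.sum_comm]
      rfl
    rw [this, Finset.sum_congr rfl (fun t _ => by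
      rw [← Finset.sum_mul, sum_sub, hσ.2, one_mul]), hτ.2]
  have hpos : ∀ t y, 0 < τ t → 0 < σ (y - t) → 0 < ρ y := by
    intro t y h1 h2
    refine lt_of_lt_of_le (mul_pos h2 h1) ?_
    exact Finset.single_le_sum (f := fun t => σ (y - t) * τ t)
      (fun t _ => mul_nonneg (hσ.1 _) (hτ.1 _)) (Finset.mem_univ t)
  -- the entropies
  have hHρ : H ρ = ∑ t, ∑ y, τ t * (-(σ (y - t) * Real.log (ρ y))) := by
    rw [Finset.sum_comm]
    unfold H
    refine Finset.sum_congr rfl fun y _ => ?_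
    unfold Real.negMulLog
    have h1 : ρ y = ∑ t, σ (y - t) * τ t := rfl
    calc -ρ y * Real.log (ρ y) = -((∑ t, σ (y - t) * τ t) * Real.log (ρ y)) := by
          rw [← h1]; ring
      _ = _ := by
        rw [Finset.sum_mul, ← Finset.sum_neg_distrib]
        exact Finset.sum_congr rfl fun t _ => by ring
  have hHσ : H σ = ∑ t, ∑ y, τ t * (-(σ (y - t) * Real.log (σ (y - t)))) := by
    have h1 : ∀ t, ∑ y, τ t * (-(σ (y - t) * Real.log (σ (y - t)))) = τ t * H σ := by
      intro t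
      rw [← Finset.mul_sum]
      congr 1
      unfold H
      rw [← sum_sub (fun y => Real.negMulLog (σ y)) t]
      exact Finset.sum_congr rfl fun y _ => by unfold Real.negMulLog; ring
    rw [Finset.sum_congr rfl (fun t _ => h1 t), ← Finset.sum_mul, hτ.2, one_mul]
  have key : ∑ t, ∑ y, τ t * (2 * σ (y - t) - 2 * (√(σ (y - t)) * √(ρ y))) ≤ H ρ - H σ := by
    rw [hHρ, hHσ, ← Finset.sum_sub_distrib]
    refine Finset.sum_le_sum fun t _ => ?_
    rw [← Finset.sum_sub_distrib]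
    refine Finset.sum_le_sum fun y _ => ?_
    rcases (hτ.1 t).eq_or_lt with h0 | h0
    · rw [← h0]
      simp
    · have h1 := point (σ (y - t)) (ρ y) (hσ.1 _) (hρ0 _) (hpos t y h0)
      have h2 := mul_le_mul_of_nonneg_left h1 h0.le
      linarith
  -- the mean of the translates
  set M : G → ℝ := fun y => ∑ t, τ t * √(σ (y - t)) with hM
  have e1 : ∑ t, ∑ y, τ t * (2 * σ (y - t) - 2 * (√(σ (y - t)) * √(ρ y))) =
      2 - 2 * ∑ y, M y * √(ρ y) := by
    have h1 : ∑ t, ∑ y, τ t * (2 * σ (y - t) - 2 * (√(σ (y - t)) * √(ρ y))) =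
        ∑ t, ∑ y, 2 * (τ t * σ (y - t)) - ∑ t, ∑ y, 2 * (τ t * √(σ (y - t)) * √(ρ y)) := by
      rw [← Finset.sum_sub_distrib]
      refine Finset.sum_congr rfl fun t _ => ?_
      rw [← Finset.sum_sub_distrib]
      exact Finset.sum_congr rfl fun y _ => by ring
    rw [h1]
    congr 1
    · simp_rw [← Finset.mul_sum]
      rw [Finset.sum_congr rfl (fun t _ => by rw [sum_sub, hσ.2, mul_one]), hτ.2]
      norm_num
    · rw [Finset.sum_comm, Finset.mul_sum]
      refine Finset.sum_congr rfl fun y _ => ?_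
      rw [← Finset.mul_sum, ← Finset.sum_mul]
  have e2 : ∑ t, ∑ t', τ t * τ t' * (1 - ∑ x, √(σ x) * √(σ (x + (t - t')))) =
      1 - ∑ y, M y ^ 2 := by
    have h1 : ∀ t t' : G, ∑ x, √(σ x) * √(σ (x + (t - t'))) =
        ∑ y, √(σ (y - t)) * √(σ (y - t')) := by
      intro t t'
      rw [← sum_sub (fun x => √(σ x) * √(σ (x + (t - t')))) t]
      refine Finset.sum_congr rfl fun y _ => ?_
      rw [sub_add_sub_cancel]
    have h2 : ∀ y, M y ^ 2 = ∑ t, ∑ t', τ t * τ t' * (√(σ (y - t)) * √(σ (y - t'))) := by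
      intro y
      rw [sq, hM]
      simp only
      rw [Finset.sum_mul_sum]
      exact Finset.sum_congr rfl fun t _ => Finset.sum_congr rfl fun t' _ => by ring
    have h3 : ∑ y, M y ^ 2 = ∑ t, ∑ t', τ t * τ t' * ∑ y, √(σ (y - t)) * √(σ (y - t')) := by
      rw [Finset.sum_congr rfl (fun y _ => h2 y), Finset.sum_comm]
      refine Finset.sum_congr rfl fun t _ => ?_
      rw [Finset.sum_comm]
      refine Finset.sum_congr rfl fun t' _ => ?_
      rw [Finset.mul_sum]
    rw [h3]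
    have h4 : (1 : ℝ) = ∑ t, ∑ t', τ t * τ t' := by
      rw [← Finset.sum_mul_sum, hτ.2, one_mul]
    nth_rewrite 2 [h4]
    rw [← Finset.sum_sub_distrib]
    refine Finset.sum_congr rfl fun t _ => ?_
    rw [← Finset.sum_sub_distrib]
    refine Finset.sum_congr rfl fun t' _ => ?_
    rw [h1]
    ring
  rw [e1] at key
  rw [e2]
  have h5 : 0 ≤ ∑ y, (M y - √(ρ y)) ^ 2 := Finset.sum_nonneg fun y _ => sq_nonneg _
  have h6 : ∑ y, (M y - √(ρ y)) ^ 2 = ∑ y, M y ^ 2 - 2 * ∑ y, M y * √(ρ y) + 1 := by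
    rw [← hρ1, Finset.mul_sum, ← Finset.sum_sub_distrib, ← Finset.sum_add_distrib]
    refine Finset.sum_congr rfl fun y _ => ?_
    have := Real.sq_sqrt (hρ0 y)
    nlinarith
  linarith

end Pool.Agent.H98.BG
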