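import Pool.Agent.H98.BG.Stmt3

/-!
# The result for finite groups, sets of small doubling
-/

set_option autoImplicit false

namespace Pool.Agent.H98.BG

open Finset
open scoped Pointwise

theorem fg3 (gon : GON3) (fin1 : FIN1) (fin2 : FIN2) (ch2 : CH2) (ch3 : CH3) : FG3 := by
  intro n hn
  obtain ⟨C0, hC0, h0⟩ := gon n hn
  refine ⟨4 * (1 + C0), by positivity, ?_⟩
  intro G _ _ _ A K hA hK hAA
  obtain ⟨Φ, a, b, σ, τ, -, -, -, hdf, -, hσ, hτ, hP, -, hD, hc⟩ := h0 G A K hA hK hAA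
  classical
  obtain ⟨Γ, hΓS, hdiss, hspan⟩ := ch3 G
    (Finset.univ.filter fun χ : AddChar G ℂ => 1 / 2 ≤ ‖∑ t, (τ t : ℂ) * χ t‖ ^ 2)
  have hcA : (0 : ℝ) < A.card := by exact_mod_cast hA.card_pos
  have hcG : (0 : ℝ) < Fintype.card G := by
    have : 0 < Fintype.card G := Fintype.card_pos_iff.2 ⟨hA.choose⟩
    exact_mod_cast this
  have hcard := ch2 G τ Γ (Real.log (Fintype.card G) - H τ) hτ le_rfl hdiss
    (fun l hl => (Finset.mem_filter.1 (hΓS hl)).2)
  have hΛ : 0 ≤ (1 + Real.log K) ^ ((2 : ℝ) + 1 / n) := by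
    have : 0 ≤ Real.log K := Real.log_nonneg hK
    positivity
  have hlog : 0 ≤ Real.log ((Fintype.card G : ℝ) / A.card) := by
    apply Real.log_nonneg
    rw [le_div_iff₀ hcA, one_mul]
    exact_mod_cast Finset.card_le_univ A
  refine ⟨Γ, ?_, ?_⟩
  · have e : Real.log ((Fintype.card G : ℝ) / A.card) =
        Real.log (Fintype.card G) - Real.log A.card := Real.log_div hcG.ne' hcA.ne'
    have : (Γ.card : ℝ) ≤ 4 * (Real.log ((Fintype.card G : ℝ) / A.card) +
        C0 * (1 + Real.log K) ^ ((2 : ℝ) + 1 / n)) := by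
      rw [e]; linarith
    refine this.trans ?_
    nlinarith [mul_nonneg hC0.le hlog]
  · intro y hy
    have hy' : ∀ χ : AddChar G ℂ, 1 / 2 ≤ ‖∑ t, (τ t : ℂ) * χ t‖ ^ 2 → ‖χ y - 1‖ ≤ 1 / 4 := by
      intro χ hχ
      by_cases h0 : Γ.card = 0
      · have := hspan χ (Finset.mem_filter.2 ⟨Finset.mem_univ _, hχ⟩) y 0
          (fun l hl => by
            rw [Finset.card_eq_zero] at h0; rw [h0] at hl; exact absurd hl (by simp))
        rw [h0] at this
        simp only [Nat.cast_zero, mul_zero] at this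
        linarith
      · have hpos : (0 : ℝ) < Γ.card := by exact_mod_cast Nat.pos_of_ne_zero h0
        have := hspan χ (Finset.mem_filter.2 ⟨Finset.mem_univ _, hχ⟩) y (1 / (4 * (Γ.card : ℝ)))
          (fun l hl => by
            rw [le_div_iff₀ (by positivity)]; exact hy l hl)
        refine this.trans (le_of_eq ?_)
        field_simp
    obtain ⟨u, v, hu, hv, rfl⟩ := fin2 G σ τ hσ hτ (fin1 G σ τ (1 / 16) hσ hτ hc) y hy'
    exact hdf _ u (hP u hu) v (hP v hv)

end Pool.Agent.H98.BG
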