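import Pool.Agent.H98.BG.Stmt

/-!
# The start and one step
-/

set_option autoImplicit false
set_option linter.unusedSectionVars false

namespace Pool.Agent.H98.BG

open Finset
open scoped Pointwise

namespace GO0L

section

variable {G : Type} [AddCommGroup G] [Fintype G] [DecidableEq G]

/-- the uniform weights on `A` -/
noncomputable def un (A : Finset G) (x : G) : ℝ := if x ∈ A then (A.card : ℝ)⁻¹ else 0

theorem un_isP (A : Finset G) (hA : A.Nonempty) : IsP (un A) := by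
  have h : (0 : ℝ) < A.card := by exact_mod_cast hA.card_pos
  constructor
  · intro x
    unfold un
    split_ifs <;> positivity
  · unfold un
    rw [Finset.sum_ite_mem, univ_inter, sum_const, nsmul_eq_mul, mul_inv_cancel₀ h.ne']

theorem un_supp (A : Finset G) (x : G) (h : un A x ≠ 0) : x ∈ A := by
  by_contra hx
  exact h (if_neg hx)

theorem un_H (A : Finset G) (hA : A.Nonempty) : H (un A) = Real.log A.card := by
  have h : (0 : ℝ) < A.card := by exact_mod_cast hA.card_pos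
  have h1 : ∀ x, Real.negMulLog (un A x) = if x ∈ A then (A.card : ℝ)⁻¹ * Real.log A.card else 0 := by
    intro x
    unfold un
    split_ifs
    · rw [Real.negMulLog, Real.log_inv]
      ring
    · rw [Real.negMulLog_zero]
  unfold H
  simp only [h1]
  rw [Finset.sum_ite_mem, univ_inter, sum_const, nsmul_eq_mul, ← mul_assoc, mul_inv_cancel₀ h.ne',
    one_mul]

theorem cv_supp (σ τ : G → ℝ) (P Q : Finset G) (hσ : ∀ x, σ x ≠ 0 → x ∈ P)
    (hτ : ∀ x, τ x ≠ 0 → x ∈ Q) (y : G) (h : cv σ τ y ≠ 0) : y ∈ P + Q := by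
  unfold cv at h
  obtain ⟨t, -, ht⟩ := Finset.exists_ne_zero_of_sum_ne_zero h
  have h1 := hσ _ (left_ne_zero_of_mul ht)
  have h2 := hτ _ (right_ne_zero_of_mul ht)
  have h3 := Finset.add_mem_add h1 h2
  rwa [sub_add_cancel] at h3

theorem X_eq (A U V : Finset G) : A + (U - V) - (U - V) = (A + U + V) - (V + U) := by
  simp only [sub_eq_add_neg, neg_add, neg_neg]
  ac_rfl

theorem nsm (A : Finset G) (i : ℕ) : A + (2 ^ i) • A + (2 ^ i - 1) • A = (2 ^ (i + 1)) • A := by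
  have h1 : 2 ^ (i + 1) = 1 + 2 ^ i + (2 ^ i - 1) := by
    have := Nat.one_le_two_pow (n := i)
    rw [pow_succ]
    omega
  rw [h1, add_nsmul, add_nsmul, one_nsmul]

theorem nsm2 (A : Finset G) (i : ℕ) : (2 ^ i - 1) • A + (2 ^ i) • A = (2 ^ (i + 1) - 1) • A := by
  have h1 : 2 ^ (i + 1) - 1 = (2 ^ i - 1) + 2 ^ i := by
    have := Nat.one_le_two_pow (n := i)
    rw [pow_succ]
    omega
  rw [h1, add_nsmul]

theorem X_eq2 (A : Finset G) (i : ℕ) :
    A + ((2 ^ i) • A - (2 ^ i - 1) • A) - ((2 ^ i) • A - (2 ^ i - 1) • A) =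
      (2 ^ (i + 1)) • A - (2 ^ (i + 1) - 1) • A := by
  rw [X_eq, nsm, nsm2]

theorem R_eq1 (A : Finset G) (i : ℕ) :
    (2 ^ i) • A - (2 ^ i - 1) • A - A = (2 ^ i) • A - (2 ^ i) • A := by
  have h1 : 2 ^ i = (2 ^ i - 1) + 1 := by
    have := Nat.one_le_two_pow (n := i)
    omega
  have h2 : (2 ^ i) • A = (2 ^ i - 1) • A + A := by
    conv_lhs => rw [h1, add_nsmul, one_nsmul]
  conv_rhs => rw [h2]
  rw [← h2, sub_sub]
  rw [← h2]

theorem R_eq2 (A : Finset G) (i : ℕ) :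
    (2 ^ i) • A - (2 ^ i - 1) • A - -A = (2 ^ i + 1) • A - (2 ^ i - 1) • A := by
  rw [add_nsmul, one_nsmul]
  simp only [sub_eq_add_neg, neg_neg]
  ac_rfl

theorem card_le (A : Finset G) (hA : A.Nonempty) (K : ℝ) (hK : 1 ≤ K)
    (h : ((A - A).card : ℝ) ≤ K * A.card) (a b M : ℕ) (hab : a + b ≤ M) :
    ((a • A - b • A).card : ℝ) ≤ K ^ M * A.card := by
  have h0 : (0 : ℝ) < A.card := by exact_mod_cast hA.card_pos
  have h1 := Finset.pluennecke_ruzsa_inequality_nsmul_sub_nsmul_sub hA A a b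
  have h2 : ((a • A - b • A).card : ℝ) ≤ (((A - A).card : ℝ) / A.card) ^ (a + b) * A.card := by
    have h4 := (NNRat.cast_le (K := ℝ)).2 h1
    push_cast at h4
    exact h4
  refine h2.trans ?_
  have h3 : ((A - A).card : ℝ) / A.card ≤ K := by
    rw [div_le_iff₀ h0]
    exact h
  gcongr
  exact (pow_le_pow_left₀ (by positivity) h3 _).trans (pow_le_pow_right₀ hK hab)

end

end GO0L

open GO0L

theorem go0 (bas : BAS) : GO0 := by
  intro G _ _ _ A K hA hK
  obtain ⟨b1, b2, b3, b4, b5, b6, b7⟩ := bas G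
  have h0 : (0 : ℝ) < A.card := by exact_mod_cast hA.card_pos
  have hnA : (-A).Nonempty := hA.neg
  have hAA : (0 : ℝ) < (A - A).card := by exact_mod_cast (hA.sub hA).card_pos
  have hK0 : 0 < K := by
    by_contra hneg
    push Not at hneg
    nlinarith
  refine ⟨un A, un (-A), un_isP A hA, un_isP (-A) hnA, ?_, Or.inr (un_supp (-A)), ?_, ?_⟩
  · intro x hx
    have h1 := un_supp A x hx
    rw [pow_zero, one_nsmul, Nat.sub_self, zero_nsmul, sub_zero]
    exact h1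
  · rw [un_H (-A) hnA, Finset.card_neg, sub_self]
  · rw [un_H A hA]
    have h1 := b1 (cv (un A) (un (-A))) (A + -A) (b3 _ _ (un_isP A hA) (un_isP (-A) hnA)).2
      (fun t ht => cv_supp _ _ A (-A) (un_supp A) (un_supp (-A)) t ht)
    rw [← sub_eq_add_neg] at h1
    have h2 : Real.log (A - A).card ≤ Real.log (K * A.card) := Real.log_le_log hAA hK
    rw [Real.log_mul hK0.ne' h0.ne'] at h2
    linarith

theorem gos (bas : BAS) (step : STEP) : GOS := by
  intro G _ _ _ A K n i q m d c c' hA hK1 hK hin hgood hm hq hqm hqc hqK hc'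
  obtain ⟨b1, b2, b3, b4, b5, b6, b7⟩ := bas G
  obtain ⟨σ, τ, hσ, hτ, hσs, hτs, hd, hc⟩ := hgood
  have hpow : 2 ^ (i + 2) ≤ 2 ^ (n + 3) := Nat.pow_le_pow_right (by norm_num) (by omega)
  have hp1 := Nat.one_le_two_pow (n := i + 1)
  have hp2 : 2 ^ (i + 2) = 2 ^ (i + 1) + 2 ^ (i + 1) := by rw [pow_succ 2 (i + 1)]; omega
  have key : ∀ Q : Finset G, (∀ t, τ t ≠ 0 → t ∈ Q) → Q.card = A.card →
      (((2 ^ (i + 1)) • A - (2 ^ (i + 1) - 1) • A - Q).card : ℝ) ≤ K ^ (2 ^ (n + 3)) * A.card →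
      ∃ σ' τ' : G → ℝ, IsP σ' ∧ IsP τ' ∧
        (∀ x, σ' x ≠ 0 → x ∈ (2 ^ (i + 1)) • A - (2 ^ (i + 1) - 1) • A) ∧
        (∀ t, τ' t ≠ 0 → t ∈ Q) ∧ Real.log A.card - H τ' ≤ 2 * (d + m * c) + 1 ∧
        H (cm σ' τ') - H σ' ≤ c' := by
    intro Q hQ hQc hR
    obtain ⟨σ', τ', h1, h2, h3, h4, h5, h6⟩ := step G σ τ ((2 ^ i) • A - (2 ^ i - 1) • A) Q A
      (A + ((2 ^ i) • A - (2 ^ i - 1) • A)) ((2 ^ (i + 1)) • A - (2 ^ (i + 1) - 1) • A)
      ((2 ^ (i + 1)) • A - (2 ^ (i + 1) - 1) • A - Q) q m (K ^ (2 ^ (n + 3))) c c'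
      (Real.log A.card) hσ hτ hσs hQ hA (fun a ha p hp => Finset.add_mem_add ha hp)
      (fun b hb p hp => by
        rw [← X_eq2]
        exact Finset.sub_mem_sub hb hp)
      (fun x hx t ht => Finset.sub_mem_sub hx ht)
      (card_le A hA K hK1 hK _ _ _ (by omega)) hR (by rw [hQc]) hc hm hq hqm hqc hqK hc'
    exact ⟨σ', τ', h1, h2, h3, h4, h5.trans (by linarith), h6⟩
  rcases hτs with hτs | hτs
  · obtain ⟨σ', τ', h1, h2, h3, h4, h5, h6⟩ := key A hτs rfl (by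
      rw [R_eq1]
      exact card_le A hA K hK1 hK _ _ _ (by omega))
    obtain ⟨c1, c2, c3⟩ := b7 σ' τ' h2
    refine ⟨σ', fun t => τ' (-t), h1, c1, h3, Or.inr fun t ht => ?_, ?_, ?_⟩
    · exact Finset.mem_neg'.2 (h4 _ ht)
    · rw [c2]
      exact h5
    · rw [c3]
      exact h6
  · obtain ⟨σ', τ', h1, h2, h3, h4, h5, h6⟩ := key (-A) hτs (Finset.card_neg A) (by
      rw [R_eq2]
      exact card_le A hA K hK1 hK _ _ _ (by omega))
    obtain ⟨c1, c2, c3⟩ := b7 σ' τ' h2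
    refine ⟨σ', fun t => τ' (-t), h1, c1, h3, Or.inl fun t ht => ?_, ?_, ?_⟩
    · have h7 := Finset.mem_neg'.1 (h4 _ ht)
      rwa [neg_neg] at h7
    · rw [c2]
      exact h5
    · rw [c3]
      exact h6

end Pool.Agent.H98.BG
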