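import Pool.Agent.H98.BG.Stmt3
import Pool.Agent.H98.BG.GO0

/-!
# The start and one step
-/

set_option autoImplicit false
set_option linter.unusedSectionVars false

namespace Pool.Agent.H98.BG

open Finset
open scoped Pointwise

open GO0L

theorem go03 (bas : BAS) : GO03 := by
  intro G _ _ _ A K hA hK
  obtain ⟨b1, b2, b3, b4, b5, b6, b7⟩ := bas G
  have h0 : (0 : ℝ) < A.card := by exact_mod_cast hA.card_pos
  have hnA : (-A).Nonempty := hA.neg
  have hAA : (0 : ℝ) < (A - A).card := by exact_mod_cast (hA.sub hA).card_pos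
  have hK0 : 0 < K := by
    by_contra hneg
    push Not at hneg
    nlinarith
  refine ⟨id, 0, 0, un A, un (-A), by norm_num, fun W W' h => h, ?_, ?_, ?_, un_isP A hA,
    un_isP (-A) hnA, ?_, Or.inr (un_supp (-A)), ?_, ?_⟩
  · intro g W y hy
    exact Finset.add_mem_add (Finset.mem_singleton_self g) hy
  · intro W y hy y' hy'
    exact Finset.sub_mem_sub hy hy'
  · intro W
    simp only [id, zero_nsmul, sub_zero]
    exact Finset.Subset.refl W
  · intro x hx
    have h1 := un_supp A x hx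
    simpa using h1
  · rw [un_H (-A) hnA, Finset.card_neg, sub_self]
  · rw [un_H A hA]
    have h1 := b1 (cv (un A) (un (-A))) (A + -A) (b3 _ _ (un_isP A hA) (un_isP (-A) hnA)).2
      (fun t ht => cv_supp _ _ A (-A) (un_supp A) (un_supp (-A)) t ht)
    rw [← sub_eq_add_neg] at h1
    have h2 : Real.log (A - A).card ≤ Real.log (K * A.card) := Real.log_le_log hAA hK
    rw [Real.log_mul hK0.ne' h0.ne'] at h2
    linarith

namespace GO03L

variable {G : Type} [AddCommGroup G] [Fintype G] [DecidableEq G]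

lemma pr_mono {σ : G → ℝ} (hσ : IsP σ) {B B' : Finset G} {x x' : G}
    (h : ∀ s, x + s ∈ B → x' + s ∈ B') : pr σ B x ≤ pr σ B' x' := by
  unfold pr
  apply Finset.sum_le_sum
  intro s _
  by_cases hs : x + s ∈ B
  · rw [if_pos hs, if_pos (h s hs)]
  · rw [if_neg hs]
    split_ifs
    · exact hσ.1 s
    · exact le_rfl

lemma pr_common {σ : G → ℝ} (hσ : IsP σ) {B : Finset G} {y y' : G} (h : 3 / 4 ≤ pr σ B y)
    (h' : 3 / 4 ≤ pr σ B y') : ∃ s, y + s ∈ B ∧ y' + s ∈ B := by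
  by_contra hcon
  push Not at hcon
  have : pr σ B y + pr σ B y' ≤ ∑ s, σ s := by
    unfold pr
    rw [← Finset.sum_add_distrib]
    apply Finset.sum_le_sum
    intro s _
    have := hσ.1 s
    by_cases hs : y + s ∈ B
    · rw [if_pos hs, if_neg (hcon s hs), add_zero]
    · rw [if_neg hs, zero_add]
      split_ifs
      · exact le_rfl
      · exact this
  rw [hσ.2] at this
  linarith

lemma pr_pos {σ : G → ℝ} {B : Finset G} {y : G} (h : 3 / 4 ≤ pr σ B y) :
    ∃ s, σ s ≠ 0 ∧ y + s ∈ B := by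
  have h1 : pr σ B y ≠ 0 := by intro h0; rw [h0] at h; norm_num at h
  obtain ⟨s, -, hs⟩ := Finset.exists_ne_zero_of_sum_ne_zero h1
  by_cases hb : y + s ∈ B
  · rw [if_pos hb] at hs
    exact ⟨s, hs, hb⟩
  · exact absurd (by rw [if_neg hb]) hs

lemma set1 (A : Finset G) (a b i : ℕ) :
    (i + 1) • A - (a • A - b • A) = (i + 1 + b) • A - a • A := by
  rw [add_nsmul (A) (i + 1) b]
  simp only [sub_eq_add_neg, neg_add, neg_neg]
  ac_rfl

lemma set2 (A W : Finset G) (a b i : ℕ) :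
    W - (a • A - b • A) - ((i + 1 + b) • A - a • A) =
      W - ((a + (i + 1 + b)) • A - (b + a) • A) := by
  rw [add_nsmul A a (i + 1 + b), add_nsmul A b a]
  simp only [sub_eq_add_neg, neg_add, neg_neg]
  ac_rfl

end GO03L

open GO03L

theorem gos3 (bas : BAS) (step3 : STEP3) : GOS3 := by
  intro G _ _ _ A K n i q m d c c' hA hK1 hK hin hgood hm hq hqm hqc hqK hc'
  obtain ⟨b1, b2, b3, b4, b5, b6, b7⟩ := bas G
  obtain ⟨Φ, a, b, σ, τ, hab, hmono, htr, hdf, hcon, hσ, hτ, hσs, hτs, hd, hc⟩ := hgood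
  have hpow : 2 ^ (i + 2) ≤ 2 ^ (n + 3) := Nat.pow_le_pow_right (by norm_num) (by omega)
  have hp2 : 2 ^ (i + 2) = 2 ^ (i + 1) + 2 ^ (i + 1) := by rw [pow_succ 2 (i + 1)]; omega
  have hP : Φ ((i + 1) • A) ⊆ (i + 1 + b) • A - a • A := by
    rw [← set1]; exact hcon _
  -- the new sets
  let Φ' : Finset G → Finset G := fun W => Finset.univ.filter fun y => 3 / 4 ≤ pr σ (Φ W) y
  have hΦ' : ∀ W y, y ∈ Φ' W ↔ 3 / 4 ≤ pr σ (Φ W) y := by
    intro W y; simp [Φ']
  have hcon' : ∀ W, Φ' W ⊆ W - ((a + (i + 1 + b)) • A - (b + a) • A) := by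
    intro W y hy
    obtain ⟨s, hs0, hs⟩ := pr_pos ((hΦ' W y).1 hy)
    rw [← set2]
    have : y = (y + s) - s := by abel
    rw [this]
    exact Finset.sub_mem_sub (hcon W hs) (hP (hσs s hs0))
  have hmono' : ∀ W W' : Finset G, W ⊆ W' → Φ' W ⊆ Φ' W' := by
    intro W W' h y hy
    rw [hΦ'] at hy ⊢
    exact hy.trans (pr_mono hσ fun s hs => hmono W W' h hs)
  have htr' : ∀ (g : G) (W : Finset G), ∀ y ∈ Φ' W, g + y ∈ Φ' ({g} + W) := by
    intro g W y hy
    rw [hΦ'] at hy ⊢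
    refine hy.trans (pr_mono hσ fun s hs => ?_)
    rw [add_assoc]
    exact htr g W _ hs
  have hdf' : ∀ W : Finset G, ∀ y ∈ Φ' W, ∀ y' ∈ Φ' W, y - y' ∈ W - W := by
    intro W y hy y' hy'
    rw [hΦ'] at hy hy'
    obtain ⟨s, hs1, hs2⟩ := pr_common hσ hy hy'
    have : y - y' = (y + s) - (y' + s) := by abel
    rw [this]
    exact hdf W _ hs1 _ hs2
  have hX : Φ ((i + 2) • A) - Φ ((i + 1) • A) ⊆
      (i + 2 + (b + a)) • A - (a + (i + 1 + b)) • A := by
    intro y hy
    have h1 := Finset.sub_subset_sub (hcon ((i + 2) • A)) hP hy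
    rw [set2] at h1
    have := set1 A (a + (i + 1 + b)) (b + a) (i + 1)
    rw [← this]
    exact h1
  have key : ∀ Q : Finset G, (∀ t, τ t ≠ 0 → t ∈ Q) → Q.card = A.card →
      ((Φ ((i + 2) • A) - Φ ((i + 1) • A) - Q).card : ℝ) ≤ K ^ (2 ^ (n + 3)) * A.card →
      ∃ σ' τ' : G → ℝ, IsP σ' ∧ IsP τ' ∧
        (∀ x, σ' x ≠ 0 → x ∈ Φ' ((i + 1 + 1) • A)) ∧
        (∀ t, τ' t ≠ 0 → t ∈ Q) ∧ Real.log A.card - H τ' ≤ 2 * (d + m * c) + 1 ∧
        H (cm σ' τ') - H σ' ≤ c' := by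
    intro Q hQ hQc hR
    obtain ⟨σ', τ', h1, h2, h3, h4, h5, h6⟩ := step3 G σ τ (Φ ((i + 1) • A)) Q A
      (Φ ((i + 2) • A)) (Φ ((i + 2) • A) - Φ ((i + 1) • A))
      (Φ ((i + 2) • A) - Φ ((i + 1) • A) - Q) q m (K ^ (2 ^ (n + 3))) c c'
      (Real.log A.card) hσ hτ hσs hQ hA
      (fun g hg p hp => by
        have h1 := htr g _ p hp
        refine hmono _ _ ?_ h1
        have e : (i + 2) • A = A + (i + 1) • A := by
          rw [show i + 2 = 1 + (i + 1) by ring, add_nsmul, one_nsmul]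
        rw [e]
        exact Finset.add_subset_add (Finset.singleton_subset_iff.2 hg) (Finset.Subset.refl _))
      (fun x hx p hp => Finset.sub_mem_sub hx hp)
      (fun x hx t ht => Finset.sub_mem_sub hx ht)
      ((Nat.cast_le.2 (Finset.card_le_card hX)).trans
        (card_le A hA K hK1 hK _ _ _ (by omega))) hR (by rw [hQc]) hc hm hq hqm hqc hqK hc'
    exact ⟨σ', τ', h1, h2, fun x hx => (hΦ' _ _).2 (h3 x hx), h4, h5.trans (by linarith), h6⟩
  rcases hτs with hτs | hτs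
  · obtain ⟨σ', τ', h1, h2, h3, h4, h5, h6⟩ := key A hτs rfl (by
      have e : (i + 2 + (b + a)) • A - (a + (i + 1 + b)) • A - A =
          (i + 2 + (b + a)) • A - (a + (i + 1 + b) + 1) • A := by
        rw [add_nsmul A (a + (i + 1 + b)) 1, one_nsmul, sub_sub]
      have h := Finset.sub_subset_sub hX (Finset.Subset.refl A)
      rw [e] at h
      exact (Nat.cast_le.2 (Finset.card_le_card h)).trans
        (card_le A hA K hK1 hK _ _ _ (by omega)))
    obtain ⟨c1, c2, c3⟩ := b7 σ' τ' h2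
    refine ⟨Φ', a + (i + 1 + b), b + a, σ', fun t => τ' (-t), by omega, hmono', htr', hdf',
      hcon', h1, c1, h3, Or.inr fun t ht => ?_, ?_, ?_⟩
    · exact Finset.mem_neg'.2 (h4 _ ht)
    · rw [c2]
      exact h5
    · rw [c3]
      exact h6
  · obtain ⟨σ', τ', h1, h2, h3, h4, h5, h6⟩ := key (-A) hτs (Finset.card_neg A) (by
      have e : (i + 2 + (b + a)) • A - (a + (i + 1 + b)) • A - -A =
          (i + 2 + (b + a) + 1) • A - (a + (i + 1 + b)) • A := by
        rw [add_nsmul A (i + 2 + (b + a)) 1, one_nsmul]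
        simp only [sub_eq_add_neg, neg_neg]
        ac_rfl
      have h := Finset.sub_subset_sub hX (Finset.Subset.refl (-A))
      rw [e] at h
      exact (Nat.cast_le.2 (Finset.card_le_card h)).trans
        (card_le A hA K hK1 hK _ _ _ (by omega)))
    obtain ⟨c1, c2, c3⟩ := b7 σ' τ' h2
    refine ⟨Φ', a + (i + 1 + b), b + a, σ', fun t => τ' (-t), by omega, hmono', htr', hdf',
      hcon', h1, c1, h3, Or.inl fun t ht => ?_, ?_, ?_⟩
    · have h7 := Finset.mem_neg'.1 (h4 _ ht)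
      rwa [neg_neg] at h7
    · rw [c2]
      exact h5
    · rw [c3]
      exact h6

end Pool.Agent.H98.BG
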