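import Pool.Agent.H98.BG.Stmt3
import Pool.Agent.H98.BG.GON

/-!
# BG-GON (helper299 for helper98): the `n` steps
-/

set_option autoImplicit false

namespace Pool.Agent.H98.BG

open Finset
open scoped Pointwise

namespace GON3L

lemma good_mono {G : Type} [AddCommGroup G] [Fintype G] [DecidableEq G] {A : Finset G} {i : ℕ}
    {d c d' c' : ℝ} (h : Good3 A i d c) (hd : d ≤ d') (hc : c ≤ c') : Good3 A i d' c' := by
  obtain ⟨Φ, a, b, σ, τ, h1, h2, h3, h4, h5, h6, h7, h8, h9, h10, h11⟩ := h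
  exact ⟨Φ, a, b, σ, τ, h1, h2, h3, h4, h5, h6, h7, h8, h9, h10.trans hd, h11.trans hc⟩

lemma four_thirds_ge (q : ℕ) : Real.exp ((q : ℝ) / 4) ≤ (4 / 3) ^ q := by
  have h1 : (4 / 3 : ℝ) ^ q = Real.exp (q * Real.log (4 / 3)) := by
    rw [Real.exp_nat_mul, Real.exp_log (by norm_num)]
  rw [h1, Real.exp_le_exp]
  have h2 : (1 : ℝ) / 4 ≤ Real.log (4 / 3) := by
    have := Real.one_sub_inv_le_log_of_pos (show (0 : ℝ) < 4 / 3 by norm_num)
    norm_num at this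
    linarith
  have h3 : (0 : ℝ) ≤ q := Nat.cast_nonneg q
  nlinarith

lemma cond {K : ℝ} (hK : 1 ≤ K) {n q : ℕ} 
    (hq : 2 ^ (n + 5) * (1 + Real.log K) ≤ (q : ℝ)) :
    K ^ (2 ^ (n + 3)) * (3 / 4) ^ q ≤ 1 / 256 := by
  have hlog : 0 ≤ Real.log K := Real.log_nonneg hK
  have e1 : 256 * K ^ (2 ^ (n + 3)) ≤ Real.exp ((q : ℝ) / 4) := by
    have h1 : K ^ (2 ^ (n + 3)) = Real.exp (((2 ^ (n + 3) : ℕ) : ℝ) * Real.log K) := by
      rw [Real.exp_nat_mul, Real.exp_log (by linarith)]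
    have h0 : (256 : ℝ) ≤ Real.exp 8 := by
      have : Real.exp 8 = Real.exp 1 ^ 8 := by rw [← Real.exp_nat_mul]; norm_num
      rw [this]
      have h2 : (2 : ℝ) ≤ Real.exp 1 := by
        have := Real.add_one_le_exp (1 : ℝ)
        linarith
      calc (256 : ℝ) = 2 ^ 8 := by norm_num
        _ ≤ Real.exp 1 ^ 8 := pow_le_pow_left₀ (by norm_num) h2 8
    calc 256 * K ^ (2 ^ (n + 3)) ≤ Real.exp 8 * K ^ (2 ^ (n + 3)) :=
          mul_le_mul_of_nonneg_right h0 (by positivity)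
      _ = Real.exp (8 + ((2 ^ (n + 3) : ℕ) : ℝ) * Real.log K) := by rw [Real.exp_add, h1]
      _ ≤ Real.exp ((q : ℝ) / 4) := by
          rw [Real.exp_le_exp]
          push_cast
          have h2 : (2 : ℝ) ^ (n + 5) = 4 * 2 ^ (n + 3) := by
            rw [show n + 5 = (n + 3) + 2 by ring, pow_add]
            ring
          rw [h2] at hq
          have h3 : (8 : ℝ) ≤ 2 ^ (n + 3) := by
            calc (8 : ℝ) = 2 ^ 3 := by norm_num
              _ ≤ 2 ^ (n + 3) := pow_le_pow_right₀ (by norm_num) (by omega)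
          nlinarith
  have e2 := four_thirds_ge q
  have e3 : (0 : ℝ) < (4 / 3) ^ q := by positivity
  have e4 : (3 / 4 : ℝ) ^ q = ((4 / 3) ^ q)⁻¹ := by
    rw [← inv_pow]; norm_num
  rw [e4, ← div_eq_mul_inv, div_le_iff₀ e3]
  linarith

end GON3L

open GON3L in
theorem gon3 (go03 : GO03) (gos3 : GOS3) : GON3 := by
  intro n hn
  refine ⟨35 * 2 ^ n * 2 ^ (2 * n + 12) * 16, by positivity, ?_⟩
  intro G _ _ _ A K hA hK hAA
  have hlog : 0 ≤ Real.log K := Real.log_nonneg hK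
  set Λ : ℝ := 1 + Real.log K with hΛ
  have hΛ1 : 1 ≤ Λ := by linarith
  have hΛ0 : 0 < Λ := by linarith
  have hn0 : (n : ℝ) ≠ 0 := by
    have : n ≠ 0 := by omega
    exact_mod_cast this
  have hn1 : (1 : ℝ) ≤ n := by exact_mod_cast hn
  set ρ : ℝ := (16 * Λ) ^ ((1 : ℝ) / n) with hρ
  have hρ1 : 1 ≤ ρ := Real.one_le_rpow (by linarith) (by positivity)
  have hρ0 : 0 < ρ := by linarith
  have hρn : ρ ^ n = 16 * Λ := by
    rw [hρ, ← Real.rpow_natCast, ← Real.rpow_mul (by positivity), one_div, inv_mul_cancel₀ hn0,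
      Real.rpow_one]
  set q : ℕ := ⌈2 ^ (n + 5) * Λ⌉₊ with hq
  have hq1 : 2 ^ (n + 5) * Λ ≤ (q : ℝ) := Nat.le_ceil _
  have hp64 : (64 : ℝ) ≤ 2 ^ (n + 5) := by
    calc (64 : ℝ) = 2 ^ 6 := by norm_num
      _ ≤ 2 ^ (n + 5) := pow_le_pow_right₀ (by norm_num) (by omega)
  have hq64' : 64 * Λ ≤ (q : ℝ) := by nlinarith
  have hq64 : (64 : ℝ) ≤ q := by nlinarith
  have hq2 : (q : ℝ) ≤ 2 ^ (n + 6) * Λ := by
    have h1 : (q : ℝ) < 2 ^ (n + 5) * Λ + 1 := Nat.ceil_lt_add_one (by positivity)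
    have h2 : (2 : ℝ) ^ (n + 6) = 2 * 2 ^ (n + 5) := by
      rw [show n + 6 = (n + 5) + 1 by ring, pow_succ]; ring
    rw [h2]
    nlinarith
  have hcond := cond hK hq1
  have hc : ∀ i, i ≤ n → 1 / 16 ≤ Λ / ρ ^ i := by
    intro i hi
    have h1 : ρ ^ i ≤ ρ ^ n := pow_le_pow_right₀ hρ1 hi
    rw [hρn] at h1
    rw [le_div_iff₀ (by positivity)]
    linarith
  have hcu : ∀ i, Λ / ρ ^ i ≤ Λ := fun i => div_le_self hΛ0.le (one_le_pow₀ hρ1)
  have key : ∀ i, i ≤ n → Good3 A i ((2 ^ i - 1) * (35 * (q : ℝ) ^ 2 * ρ)) (Λ / ρ ^ i) := by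
    intro i
    induction i with
    | zero =>
      intro _
      refine good_mono (go03 G A K hA hAA) ?_ ?_
      · simp
      · simp [hΛ]
    | succ i ih =>
      intro hi
      have hin : i < n := by omega
      have hci := hc (i + 1) hi
      have hci0 : 0 < Λ / ρ ^ (i + 1) := by positivity
      set m : ℕ := ⌈16 * (q : ℝ) ^ 2 / (Λ / ρ ^ (i + 1))⌉₊ with hm
      have hm1 : 16 * (q : ℝ) ^ 2 / (Λ / ρ ^ (i + 1)) ≤ m := Nat.le_ceil _
      have hm2 : (m : ℝ) ≤ 16 * (q : ℝ) ^ 2 / (Λ / ρ ^ (i + 1)) + 1 :=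
        (Nat.ceil_lt_add_one (by positivity)).le
      have hm3 : 2 * (q : ℝ) ≤ m := by
        refine le_trans ?_ hm1
        rw [le_div_iff₀ hci0]
        have h1 := hcu (i + 1)
        have h2 : 2 * (q : ℝ) * (Λ / ρ ^ (i + 1)) ≤ 2 * q * Λ :=
          mul_le_mul_of_nonneg_left h1 (by positivity)
        nlinarith
      have hm4 : 2 * q ≤ m := by exact_mod_cast hm3
      have hq0 : 1 ≤ q := by
        have : (1 : ℝ) ≤ q := by linarith
        exact_mod_cast this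
      have hstep := gos3 G A K n i q m _ _ (Λ / ρ ^ (i + 1)) hA hK hAA hin (ih (by omega))
        (by omega) hq0 hm4 (by
          rw [div_le_iff₀ hci0] at hm1
          linarith) hcond hci
      refine good_mono hstep ?_ le_rfl
      have hmc : (m : ℝ) * (Λ / ρ ^ i) ≤ 17 * (q : ℝ) ^ 2 * ρ := by
        have h1 : 0 ≤ Λ / ρ ^ i := by positivity
        have h2 : (16 * (q : ℝ) ^ 2 / (Λ / ρ ^ (i + 1)) + 1) * (Λ / ρ ^ i) =
            16 * (q : ℝ) ^ 2 * ρ + Λ / ρ ^ i := by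
          rw [pow_succ]
          field_simp
          ring
        have h3 := mul_le_mul_of_nonneg_right hm2 h1
        rw [h2] at h3
        have h4 := hcu i
        have h5 : Λ ≤ (q : ℝ) ^ 2 * ρ := by
          have h6 : Λ ≤ q := by linarith
          have h7 : (q : ℝ) ≤ (q : ℝ) ^ 2 := by nlinarith
          have h8 : (q : ℝ) ^ 2 ≤ (q : ℝ) ^ 2 * ρ := le_mul_of_one_le_right (by positivity) hρ1
          linarith
        linarith
      have h1q : 1 ≤ (q : ℝ) ^ 2 * ρ := by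
        have h7 : (1 : ℝ) ≤ (q : ℝ) ^ 2 := by nlinarith
        nlinarith
      have hpow : (2 : ℝ) ^ (i + 1) = 2 * 2 ^ i := by rw [pow_succ]; ring
      rw [hpow]
      nlinarith
  have hfin := key n le_rfl
  have hcn : Λ / ρ ^ n = 1 / 16 := by
    rw [hρn]
    field_simp
  rw [hcn] at hfin
  refine good_mono hfin ?_ le_rfl
  have hρu : ρ ≤ 16 * Λ ^ ((1 : ℝ) / n) := by
    rw [hρ, Real.mul_rpow (by norm_num) hΛ0.le]
    refine mul_le_mul_of_nonneg_right ?_ (by positivity)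
    calc (16 : ℝ) ^ ((1 : ℝ) / n) ≤ 16 ^ (1 : ℝ) :=
          Real.rpow_le_rpow_of_exponent_le (by norm_num) (by
            rw [div_le_one (by linarith)]; exact hn1)
      _ = 16 := Real.rpow_one _
  have hΛp : Λ ^ ((2 : ℝ) + 1 / n) = Λ ^ 2 * Λ ^ ((1 : ℝ) / n) := by
    rw [Real.rpow_add hΛ0]
    norm_num
  rw [hΛp]
  have h2n : (0 : ℝ) < 2 ^ n := by positivity
  have hq2' : (q : ℝ) ^ 2 ≤ (2 ^ (n + 6) * Λ) ^ 2 := pow_le_pow_left₀ (by positivity) hq2 2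
  have hpow2 : ((2 : ℝ) ^ (n + 6) * Λ) ^ 2 = 2 ^ (2 * n + 12) * Λ ^ 2 := by
    rw [mul_pow, ← pow_mul]
    congr 2
    ring
  rw [hpow2] at hq2'
  have hL0 : 0 < Λ ^ ((1 : ℝ) / n) := by positivity
  calc (2 ^ n - 1) * (35 * (q : ℝ) ^ 2 * ρ) ≤ 2 ^ n * (35 * (q : ℝ) ^ 2 * ρ) := by
        refine mul_le_mul_of_nonneg_right (by linarith) (by positivity)
    _ ≤ 2 ^ n * (35 * (2 ^ (2 * n + 12) * Λ ^ 2) * (16 * Λ ^ ((1 : ℝ) / n))) := by
        refine mul_le_mul_of_nonneg_left ?_ h2n.le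
        refine mul_le_mul ?_ hρu hρ0.le (by positivity)
        exact mul_le_mul_of_nonneg_left hq2' (by norm_num)
    _ = 35 * 2 ^ n * 2 ^ (2 * n + 12) * 16 * (Λ ^ 2 * Λ ^ ((1 : ℝ) / n)) := by ring

end Pool.Agent.H98.BG

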