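import Pool.Agent.H98.BG.Stmt

set_option autoImplicit false

namespace Pool.Agent.H98.BG

open Finset
open scoped Pointwise

namespace LGML

variable {G : Type} [AddCommGroup G] [Fintype G] [DecidableEq G]

theorem sum_prod {m : ℕ} (f : Fin m → G → ℝ) :
    ∑ s : Fin m → G, ∏ i, f i (s i) = ∏ i, ∑ g, f i g := by
  have h := Finset.prod_univ_sum (fun _ : Fin m => (Finset.univ : Finset G)) f
  rw [Fintype.piFinset_univ] at h
  exact h.symm

theorem Ex_add {m : ℕ} (σ : G → ℝ) (φ ψ : (Fin m → G) → ℝ) :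
    Ex σ (fun s => φ s + ψ s) = Ex σ φ + Ex σ ψ := by
  unfold Ex
  rw [← Finset.sum_add_distrib]
  exact Finset.sum_congr rfl (fun s _ => mul_add _ _ _)

theorem Ex_smul {m : ℕ} (σ : G → ℝ) (c : ℝ) (φ : (Fin m → G) → ℝ) :
    Ex σ (fun s => c * φ s) = c * Ex σ φ := by
  unfold Ex
  rw [Finset.mul_sum]
  exact Finset.sum_congr rfl (fun s _ => by ring)

theorem Ex_sum {m : ℕ} (σ : G → ℝ) {ι : Type} (I : Finset ι) (φ : ι → (Fin m → G) → ℝ) :
    Ex σ (fun s => ∑ i ∈ I, φ i s) = ∑ i ∈ I, Ex σ (φ i) := by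
  unfold Ex
  rw [Finset.sum_comm]
  exact Finset.sum_congr rfl (fun s _ => Finset.mul_sum _ _ _)

theorem Ex_mono {m : ℕ} (σ : G → ℝ) (hσ : ∀ g, 0 ≤ σ g) (φ ψ : (Fin m → G) → ℝ)
    (h : ∀ s, φ s ≤ ψ s) : Ex σ φ ≤ Ex σ ψ := by
  unfold Ex
  exact Finset.sum_le_sum (fun s _ =>
    mul_le_mul_of_nonneg_left (h s) (Finset.prod_nonneg (fun i _ => hσ (s i))))

theorem Ex_const {m : ℕ} (σ : G → ℝ) (hσ : ∑ g, σ g = 1) (c : ℝ) :
    Ex (m := m) σ (fun _ => c) = c := by
  unfold Ex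
  rw [← Finset.sum_mul, sum_prod (fun _ => σ), hσ]
  simp

theorem Ex_one {m : ℕ} (σ : G → ℝ) (hσ : ∑ g, σ g = 1) (Y : G → ℝ) (i : Fin m) :
    Ex σ (fun s : Fin m → G => Y (s i)) = ∑ g, σ g * Y g := by
  unfold Ex
  have h1 : ∀ s : Fin m → G, (∏ j, σ (s j)) * Y (s i) =
      ∏ j, (σ (s j) * (if j = i then Y (s j) else 1)) := by
    intro s
    rw [Finset.prod_mul_distrib, Finset.prod_ite_eq' Finset.univ i (fun j => Y (s j))]
    simp
  simp_rw [h1]
  rw [sum_prod (fun j g => σ g * (if j = i then Y g else 1))]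
  rw [Finset.prod_eq_single i]
  · simp
  · intro j _ hj
    simp [hj, hσ]
  · simp

theorem Ex_two {m : ℕ} (σ : G → ℝ) (Y : G → ℝ) (hY : ∑ g, σ g * Y g = 0) (i k : Fin m)
    (hik : i ≠ k) : Ex σ (fun s : Fin m → G => Y (s i) * Y (s k)) = 0 := by
  unfold Ex
  have h1 : ∀ s : Fin m → G, (∏ j, σ (s j)) * (Y (s i) * Y (s k)) =
      ∏ j, (σ (s j) * ((if j = i then Y (s j) else 1) * (if j = k then Y (s j) else 1))) := by
    intro s
    rw [Finset.prod_mul_distrib, Finset.prod_mul_distrib,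
      Finset.prod_ite_eq' Finset.univ i (fun j => Y (s j)),
      Finset.prod_ite_eq' Finset.univ k (fun j => Y (s j))]
    simp
  simp_rw [h1]
  rw [sum_prod (fun j g => σ g * ((if j = i then Y g else 1) * (if j = k then Y g else 1)))]
  apply Finset.prod_eq_zero (Finset.mem_univ i)
  simp [hik, hY]

/-- mean and variance of the empirical frequency -/
theorem Ex_em {m : ℕ} (σ : G → ℝ) (hσ : IsP σ) (B : Finset G) (x : G) (hm : 0 < m) :
    Ex σ (fun s : Fin m → G => em B s x - pr σ B x) = 0 ∧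
    Ex σ (fun s : Fin m → G => (em B s x - pr σ B x) ^ 2) =
      (pr σ B x - pr σ B x ^ 2) / m := by
  set δ := pr σ B x with hδ
  set Y : G → ℝ := fun g => (if x + g ∈ B then (1 : ℝ) else 0) - δ with hYd
  have hm0 : (m : ℝ) ≠ 0 := by exact_mod_cast hm.ne'
  have hpr : ∑ g, σ g * (if x + g ∈ B then (1 : ℝ) else 0) = δ := by
    rw [hδ]
    unfold pr
    exact Finset.sum_congr rfl (fun g _ => by split_ifs <;> simp)
  have hY : ∑ g, σ g * Y g = 0 := by
    simp only [hYd, mul_sub, Finset.sum_sub_distrib]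
    rw [hpr, ← Finset.sum_mul, hσ.2]
    ring
  have hY2 : ∑ g, σ g * (Y g) ^ 2 = δ - δ ^ 2 := by
    have e : ∀ g, σ g * (Y g) ^ 2 =
        (1 - 2 * δ) * (σ g * (if x + g ∈ B then (1 : ℝ) else 0)) + δ ^ 2 * σ g := by
      intro g
      simp only [hYd]
      split_ifs <;> ring
    simp_rw [e]
    rw [Finset.sum_add_distrib, ← Finset.mul_sum, ← Finset.mul_sum, hpr, hσ.2]
    ring
  have hem : ∀ s : Fin m → G, em B s x - δ = (1 / (m : ℝ)) * ∑ i, Y (s i) := by
    intro s
    unfold em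
    simp only [hYd, Finset.sum_sub_distrib, Finset.sum_const, Finset.card_univ, Fintype.card_fin,
      nsmul_eq_mul]
    field_simp
  constructor
  · simp_rw [hem]
    rw [Ex_smul, Ex_sum]
    have : ∀ i ∈ (Finset.univ : Finset (Fin m)), Ex σ (fun s : Fin m → G => Y (s i)) = 0 :=
      fun i _ => by rw [Ex_one σ hσ.2 Y i, hY]
    rw [Finset.sum_eq_zero this, mul_zero]
  · have e : ∀ s : Fin m → G, (em B s x - δ) ^ 2 =
        (1 / (m : ℝ)) ^ 2 * ∑ i, ∑ k, Y (s i) * Y (s k) := by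
      intro s
      rw [hem, mul_pow, sq (∑ i, Y (s i)), Finset.sum_mul_sum]
    simp_rw [e]
    rw [Ex_smul, Ex_sum]
    have h2 : ∀ i ∈ (Finset.univ : Finset (Fin m)),
        Ex σ (fun s : Fin m → G => ∑ k, Y (s i) * Y (s k)) = δ - δ ^ 2 := by
      intro i _
      rw [Ex_sum, Finset.sum_eq_single i]
      · have e2 : (fun s : Fin m → G => Y (s i) * Y (s i)) =
            fun s : Fin m → G => (fun g => (Y g) ^ 2) (s i) := by
          funext s
          ring
        rw [e2, Ex_one σ hσ.2 (fun g => (Y g) ^ 2) i, hY2]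
      · intro k _ hk
        exact Ex_two σ Y hY i k (Ne.symm hk)
      · simp
    rw [Finset.sum_congr rfl h2]
    simp only [Finset.sum_const, Finset.card_univ, Fintype.card_fin, nsmul_eq_mul]
    field_simp

end LGML

open LGML in
theorem lgm : LGM := by
  intro G _ _ _ m σ B x hσ hm hδ
  obtain ⟨h1, h2⟩ := Ex_em σ hσ B x hm
  set δ := pr σ B x with hδd
  have hδ0 : 0 < δ := by linarith
  have hmr : (0 : ℝ) < m := by exact_mod_cast hm
  have key : ∀ s : Fin m → G, -Real.log (max (em B s x) (1 / 4)) ≤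
      -Real.log δ + ((-(1 / δ)) * (em B s x - δ) + (4 / δ) * (em B s x - δ) ^ 2) := by
    intro s
    set e := em B s x with he
    set u := max e (1 / 4) with hu
    have hu4 : 1 / 4 ≤ u := le_max_right _ _
    have hue : e ≤ u := le_max_left _ _
    have hu0 : 0 < u := by linarith
    have a1 : Real.log (δ / u) ≤ δ / u - 1 := Real.log_le_sub_one_of_pos (by positivity)
    rw [Real.log_div hδ0.ne' hu0.ne'] at a1
    have a2 : δ / u - 1 = (δ - u) / δ + (δ - u) ^ 2 / (δ * u) := by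
      field_simp
      ring
    have a3 : (δ - u) ^ 2 ≤ (e - δ) ^ 2 := by
      rcases le_total (1 / 4) e with h | h
      · have : u = e := max_eq_left h
        rw [this]
        nlinarith
      · have : u = 1 / 4 := max_eq_right h
        rw [this]
        nlinarith
    have a4 : (δ - u) ^ 2 / (δ * u) ≤ (4 / δ) * (e - δ) ^ 2 := by
      have b1 : (δ - u) ^ 2 / (δ * u) ≤ (e - δ) ^ 2 / (δ * u) :=
        div_le_div_of_nonneg_right a3 (by positivity)
      have b2 : (e - δ) ^ 2 / (δ * u) ≤ (e - δ) ^ 2 / (δ * (1 / 4)) :=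
        div_le_div_of_nonneg_left (sq_nonneg _) (by positivity)
          (mul_le_mul_of_nonneg_left hu4 hδ0.le)
      have b3 : (e - δ) ^ 2 / (δ * (1 / 4)) = (4 / δ) * (e - δ) ^ 2 := by
        field_simp
      linarith
    have a5 : (δ - u) / δ ≤ (-(1 / δ)) * (e - δ) := by
      have : (-(1 / δ)) * (e - δ) = (δ - e) / δ := by
        field_simp
        ring
      rw [this]
      exact div_le_div_of_nonneg_right (by linarith) hδ0.le
    linarith
  have h3 := Ex_mono σ hσ.1 _ _ key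
  have h4 : Ex σ (fun s : Fin m → G =>
      -Real.log δ + ((-(1 / δ)) * (em B s x - δ) + (4 / δ) * (em B s x - δ) ^ 2)) =
      -Real.log δ + (4 / δ) * ((δ - δ ^ 2) / m) := by
    rw [Ex_add, Ex_add, Ex_smul, Ex_smul, h1, h2, Ex_const σ hσ.2]
    ring
  rw [h4] at h3
  refine h3.trans ?_
  have h5 : (4 / δ) * ((δ - δ ^ 2) / m) = 4 * (1 - δ) / m := by
    field_simp
  rw [h5]
  have h6 : 4 * (1 - δ) / (m : ℝ) ≤ 2 / m := div_le_div_of_nonneg_right (by linarith) hmr.le
  linarith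

end Pool.Agent.H98.BG
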