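import Pool.Agent.H98.BG.Stmt

/-!
# Moments of the empirical frequency
-/

set_option autoImplicit false

namespace Pool.Agent.H98.BG

open Finset
open scoped Pointwise

namespace MOML

set_option linter.unusedSectionVars false

variable {G : Type} [AddCommGroup G] [Fintype G] [DecidableEq G]

lemma exp_le_quad {s : ℝ} (h0 : 0 ≤ s) (h1 : s ≤ 1) : Real.exp s ≤ 1 + s + s ^ 2 := by
  have h := Real.abs_exp_sub_one_sub_id_le (x := s) (by rw [abs_of_nonneg h0]; exact h1)
  have := (abs_le.mp h).2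
  linarith

lemma em_nonneg {m : ℕ} (B : Finset G) (z : Fin m → G) (x : G) : 0 ≤ em B z x := by
  unfold em
  apply div_nonneg
  · apply Finset.sum_nonneg
    intro i _
    split_ifs <;> norm_num
  · exact Nat.cast_nonneg m

lemma Ex_mono {m : ℕ} (σ : G → ℝ) (hσ : ∀ x, 0 ≤ σ x) (φ ψ : (Fin m → G) → ℝ)
    (h : ∀ s, φ s ≤ ψ s) : Ex σ φ ≤ Ex σ ψ := by
  unfold Ex
  apply Finset.sum_le_sum
  intro s _
  exact mul_le_mul_of_nonneg_left (h s) (Finset.prod_nonneg (fun i _ => hσ _))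

lemma Ex_const_mul {m : ℕ} (σ : G → ℝ) (φ : (Fin m → G) → ℝ) (c : ℝ) :
    Ex σ (fun s => c * φ s) = c * Ex σ φ := by
  unfold Ex
  rw [Finset.mul_sum]
  apply Finset.sum_congr rfl
  intro s _
  ring

lemma Ex_prod {m : ℕ} (σ g : G → ℝ) :
    Ex σ (fun s : Fin m → G => ∏ i, g (s i)) = (∑ y, σ y * g y) ^ m := by
  unfold Ex
  rw [Fintype.sum_pow]
  apply Finset.sum_congr rfl
  intro s _
  rw [Finset.prod_mul_distrib]

lemma pow_le_aux {u δ : ℝ} (q : ℕ) (hu : 0 ≤ u) (hδ : 0 < δ) :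
    u ^ q ≤ δ ^ q * Real.exp (-(q : ℝ)) * Real.exp (q * u / δ) := by
  have h1 : u / δ ≤ Real.exp (u / δ - 1) := by
    have := Real.add_one_le_exp (u / δ - 1)
    linarith
  have h2 : (u / δ) ^ q ≤ Real.exp (u / δ - 1) ^ q :=
    pow_le_pow_left₀ (div_nonneg hu hδ.le) h1 q
  have h3 : u ^ q = δ ^ q * (u / δ) ^ q := by
    rw [← mul_pow]
    congr 1
    field_simp
  rw [h3, mul_assoc, ← Real.exp_add]
  apply mul_le_mul_of_nonneg_left _ (pow_nonneg hδ.le q)
  refine h2.trans (le_of_eq ?_)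
  rw [← Real.exp_nat_mul]
  congr 1
  ring

lemma weight_sum (σ : G → ℝ) (B : Finset G) (x : G) (a : ℝ) (hσ : IsP σ) :
    ∑ y, σ y * Real.exp (a * (if x + y ∈ B then (1 : ℝ) else 0)) =
      1 + pr σ B x * (Real.exp a - 1) := by
  have h : ∀ y, σ y * Real.exp (a * (if x + y ∈ B then (1 : ℝ) else 0)) =
      σ y + (if x + y ∈ B then σ y else 0) * (Real.exp a - 1) := by
    intro y
    split_ifs
    · rw [mul_one]; ring
    · simp
  rw [Finset.sum_congr rfl (fun y _ => h y), Finset.sum_add_distrib, hσ.2, ← Finset.sum_mul]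
  rfl

end MOML

open MOML in
/-- moments of the empirical frequency -/
theorem mom : MOM := by
  intro G _ _ _ m q σ B x δ hσ hp hδ1 hδ2 hm hq
  have hδ : 0 < δ := by linarith
  have hmR : (0 : ℝ) < m := by exact_mod_cast hm
  set s0 : ℝ := q / (m * δ) with hs0
  have hqm : (2 : ℝ) * q ≤ m := by exact_mod_cast hq
  have hmδ : 0 < (m : ℝ) * δ := mul_pos hmR hδ
  have hs0n : 0 ≤ s0 := div_nonneg (Nat.cast_nonneg q) hmδ.le
  have hs01 : s0 ≤ 1 := by
    rw [hs0, div_le_one hmδ]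
    nlinarith
  have hpn : 0 ≤ pr σ B x := by
    unfold pr
    apply Finset.sum_nonneg
    intro y _
    split_ifs
    · exact hσ.1 y
    · exact le_rfl
  -- first step: pointwise bound
  have h1 : Ex σ (fun s : Fin m → G => em B s x ^ q) ≤
      Ex σ (fun s : Fin m → G => (δ ^ q * Real.exp (-(q : ℝ))) *
        ∏ i, (fun y => Real.exp (s0 * (if x + y ∈ B then (1 : ℝ) else 0))) (s i)) := by
    apply Ex_mono σ hσ.1
    intro s
    refine (pow_le_aux q (em_nonneg B s x) hδ).trans (le_of_eq ?_)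
    congr 1
    simp only
    rw [← Real.exp_sum, ← Finset.mul_sum]
    congr 1
    unfold em
    rw [hs0]
    field_simp
  rw [Ex_const_mul, Ex_prod σ (fun y => Real.exp (s0 * (if x + y ∈ B then (1 : ℝ) else 0))),
    weight_sum σ B x s0 hσ] at h1
  refine h1.trans ?_
  have he1 : 0 ≤ Real.exp s0 - 1 := by
    have := Real.add_one_le_exp s0
    linarith
  have h2 : (1 + pr σ B x * (Real.exp s0 - 1)) ^ m ≤
      Real.exp (m * (δ * (s0 + s0 ^ 2))) := by
    rw [Real.exp_nat_mul]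
    apply pow_le_pow_left₀
    · have := mul_nonneg hpn he1
      linarith
    · have h3 := Real.add_one_le_exp (δ * (s0 + s0 ^ 2))
      have h4 : pr σ B x * (Real.exp s0 - 1) ≤ δ * (s0 + s0 ^ 2) := by
        have h5 := exp_le_quad hs0n hs01
        exact mul_le_mul hp (by linarith) he1 hδ.le
      linarith
  have h6 : (m : ℝ) * (δ * (s0 + s0 ^ 2)) ≤ q + 2 * (q : ℝ) ^ 2 / m := by
    have e1 : (m : ℝ) * δ * s0 = q := by
      rw [hs0]
      field_simp
    have e2 : s0 ≤ 2 * q / m := by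
      rw [hs0, div_le_div_iff₀ hmδ hmR]
      nlinarith [mul_nonneg (Nat.cast_nonneg (α := ℝ) q) hmR.le]
    calc (m : ℝ) * (δ * (s0 + s0 ^ 2)) = (m * δ * s0) + (m * δ * s0) * s0 := by ring
      _ = q + q * s0 := by rw [e1]
      _ ≤ q + q * (2 * q / m) := by
          have := mul_le_mul_of_nonneg_left e2 (Nat.cast_nonneg (α := ℝ) q)
          linarith
      _ = q + 2 * (q : ℝ) ^ 2 / m := by ring
  calc δ ^ q * Real.exp (-(q : ℝ)) * (1 + pr σ B x * (Real.exp s0 - 1)) ^ m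
      ≤ δ ^ q * Real.exp (-(q : ℝ)) * Real.exp (q + 2 * (q : ℝ) ^ 2 / m) := by
        apply mul_le_mul_of_nonneg_left (h2.trans (Real.exp_le_exp.mpr h6))
        positivity
    _ = δ ^ q * Real.exp (2 * (q : ℝ) ^ 2 / m) := by
        rw [mul_assoc, ← Real.exp_add]
        congr 2
        ring

end Pool.Agent.H98.BG
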