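import Pool.Agent.H98.BG.Stmt

/-!
# The cost of the new pair, first form (`S2A`)
-/

set_option autoImplicit false
set_option linter.unusedSectionVars false

namespace Pool.Agent.H98.BG

open Finset
open scoped Pointwise

namespace S2AL

variable {G : Type} [AddCommGroup G] [Fintype G] [DecidableEq G]

theorem Wt_nonneg {m : ℕ} {σ τ : G → ℝ} (hσ : IsP σ) (hτ : IsP τ) (z : Fin m → G) (t : G) :
    0 ≤ Wt σ τ z t := by
  unfold Wt
  exact mul_nonneg (hτ.1 t) (prod_nonneg fun i _ => hσ.1 _)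

theorem Pz_nonneg {m : ℕ} {σ τ : G → ℝ} (hσ : IsP σ) (hτ : IsP τ) (z : Fin m → G) :
    0 ≤ Pz σ τ z := sum_nonneg fun t _ => Wt_nonneg hσ hτ z t

theorem post_isP {m : ℕ} {σ τ : G → ℝ} (hσ : IsP σ) (hτ : IsP τ) (z : Fin m → G)
    (h : 0 < Pz σ τ z) : IsP (post σ τ z) := by
  refine ⟨fun t => div_nonneg (Wt_nonneg hσ hτ z t) h.le, ?_⟩
  have e : ∑ t, post σ τ z t = (∑ t, Wt σ τ z t) / Pz σ τ z := by
    rw [sum_div]
    rfl
  rw [e]
  exact div_self h.ne'

theorem sum_cm (σ τ φ : G → ℝ) :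
    ∑ y, cm σ τ y * φ y = ∑ t, τ t * ∑ x, σ x * φ (x - t) := by
  unfold cm
  simp only [sum_mul]
  rw [sum_comm]
  refine sum_congr rfl fun t _ => ?_
  rw [mul_sum, ← (Equiv.subRight t).sum_comp (fun y => σ (y + t) * τ t * φ y)]
  refine sum_congr rfl fun x _ => ?_
  simp only [Equiv.subRight_apply, sub_add_cancel]
  ring

theorem cm_isP {σ τ : G → ℝ} (hσ : IsP σ) (hτ : IsP τ) : IsP (cm σ τ) := by
  refine ⟨fun y => sum_nonneg fun t _ => mul_nonneg (hσ.1 _) (hτ.1 _), ?_⟩
  have h := sum_cm σ τ (fun _ => 1)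
  simp only [mul_one] at h
  rw [h, hσ.2]
  simpa using hτ.2

theorem em_shift {m : ℕ} (B : Finset G) (z : Fin m → G) (x t : G) :
    em B z (x - t) = em B (fun i => z i - t) x := by
  unfold em
  have h : ∀ i, x - t + z i = x + (z i - t) := fun i => by abel
  simp only [h]

theorem em_nonneg {m : ℕ} (B : Finset G) (z : Fin m → G) (x : G) : 0 ≤ em B z x := by
  unfold em
  refine div_nonneg (sum_nonneg fun i _ => ?_) (Nat.cast_nonneg _)
  split_ifs <;> norm_num

theorem sum_em_shift {m : ℕ} (B : Finset G) (z : Fin m → G) (q : ℕ) (t : G) :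
    ∑ x, em B (fun i => z i - t) x ^ q = ∑ y, em B z y ^ q := by
  rw [← (Equiv.subRight t).sum_comp (fun y => em B z y ^ q)]
  refine sum_congr rfl fun x _ => ?_
  simp only [Equiv.subRight_apply, em_shift]

/-- the function inside the expectation -/
noncomputable def F {m : ℕ} (q : ℕ) (σ' : G → ℝ) (B R : Finset G) (s : Fin m → G) : ℝ :=
  -(q : ℝ) * ∑ x, σ' x * Real.log (max (em B s x) (1 / 4)) +
    Real.log (∑ x, em B s x ^ q + (R.card : ℝ) * (1 / 4) ^ q)

theorem ex_ne {p : G → ℝ} (hp : IsP p) : ∃ x, p x ≠ 0 := by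
  by_contra h
  push Not at h
  have := hp.2
  simp [h] at this

theorem key (gib : GIB) {m : ℕ} (q : ℕ) {σ' p : G → ℝ} (hσ' : IsP σ') (hp : IsP p)
    (B X Q R : Finset G) (hX : ∀ x, σ' x ≠ 0 → x ∈ X) (hQ : ∀ t, p t ≠ 0 → t ∈ Q)
    (hR : ∀ x ∈ X, ∀ t ∈ Q, x - t ∈ R) (z : Fin m → G) :
    H (cm σ' p) ≤ ∑ t, p t * F q σ' B R (fun i => z i - t) := by
  set M : G → ℝ := fun y => max (em B z y) (1 / 4) with hMdef
  have hM : ∀ y, 0 < M y := fun y => lt_of_lt_of_le (by norm_num) (le_max_right _ _)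
  have hRne : R.Nonempty := by
    obtain ⟨x, hx⟩ := ex_ne hσ'
    obtain ⟨t, ht⟩ := ex_ne hp
    exact ⟨x - t, hR x (hX x hx) t (hQ t ht)⟩
  set Z : ℝ := ∑ y ∈ R, M y ^ q with hZdef
  have hZ : 0 < Z := sum_pos (fun y _ => pow_pos (hM y) q) hRne
  set ω : G → ℝ := fun y => if y ∈ R then M y ^ q / Z else 0 with hωdef
  have hω0 : ∀ y, 0 ≤ ω y := by
    intro y
    simp only [hωdef]
    split_ifs
    · exact div_nonneg (pow_nonneg (hM y).le q) hZ.le
    · exact le_rfl
  have hω1 : ∑ y, ω y = 1 := by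
    simp only [hωdef]
    rw [sum_ite_mem, univ_inter, ← sum_div]
    exact div_self hZ.ne'
  have hsupp : ∀ y, cm σ' p y ≠ 0 → y ∈ R := by
    intro y hy
    obtain ⟨t, -, ht⟩ := exists_ne_zero_of_sum_ne_zero hy
    have h1 : σ' (y + t) ≠ 0 := left_ne_zero_of_mul ht
    have h2 : p t ≠ 0 := right_ne_zero_of_mul ht
    have h3 := hR (y + t) (hX _ h1) t (hQ t h2)
    rwa [add_sub_cancel_right] at h3
  have g := gib G (cm σ' p) ω (cm_isP hσ' hp) hω0 hω1.le (fun y hy => by
    simp only [hωdef, if_pos (hsupp y hy)]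
    exact div_pos (pow_pos (hM y) q) hZ)
  have e1 : -∑ y, cm σ' p y * Real.log (ω y) =
      ∑ y, cm σ' p y * (-(q : ℝ) * Real.log (M y) + Real.log Z) := by
    rw [← sum_neg_distrib]
    refine sum_congr rfl fun y _ => ?_
    by_cases hy : cm σ' p y = 0
    · rw [hy]; simp
    · have h1 : ω y = M y ^ q / Z := by simp only [hωdef, if_pos (hsupp y hy)]
      rw [h1, Real.log_div (pow_pos (hM y) q).ne' hZ.ne', Real.log_pow]
      ring
  rw [e1, sum_cm] at g
  refine g.trans (sum_le_sum fun t _ => mul_le_mul_of_nonneg_left ?_ (hp.1 t))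
  have e2 : ∑ x, σ' x * (-(q : ℝ) * Real.log (M (x - t)) + Real.log Z) =
      -(q : ℝ) * ∑ x, σ' x * Real.log (M (x - t)) + Real.log Z := by
    have e3 : ∀ x, σ' x * (-(q : ℝ) * Real.log (M (x - t)) + Real.log Z) =
        -(q : ℝ) * (σ' x * Real.log (M (x - t))) + σ' x * Real.log Z := fun x => by ring
    simp only [e3]
    rw [sum_add_distrib, ← mul_sum, ← sum_mul, hσ'.2, one_mul]
  rw [e2]
  unfold F
  have e4 : ∀ x, M (x - t) = max (em B (fun i => z i - t) x) (1 / 4) := by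
    intro x
    simp only [hMdef, em_shift]
  simp only [e4]
  have e5 : Z ≤ ∑ x, em B (fun i => z i - t) x ^ q + (R.card : ℝ) * (1 / 4) ^ q := by
    rw [sum_em_shift]
    have h1 : Z ≤ ∑ y ∈ R, (em B z y ^ q + (1 / 4) ^ q) := by
      refine sum_le_sum fun y _ => ?_
      simp only [hMdef]
      rcases max_cases (em B z y) (1 / 4) with ⟨h, -⟩ | ⟨h, -⟩
      · rw [h]
        have : (0 : ℝ) ≤ (1 / 4) ^ q := by positivity
        linarith
      · rw [h]
        have := pow_nonneg (em_nonneg B z y) q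
        linarith
    rw [sum_add_distrib, sum_const, nsmul_eq_mul] at h1
    have h2 : ∑ y ∈ R, em B z y ^ q ≤ ∑ y, em B z y ^ q :=
      sum_le_sum_of_subset_of_nonneg (subset_univ R) fun y _ _ => pow_nonneg (em_nonneg B z y) q
    linarith
  have e6 := Real.log_le_log hZ e5
  linarith

end S2AL

open S2AL in
theorem s2a (gib : GIB) : S2A := by
  intro G _ _ _ m q σ τ σ' B X Q R hσ hτ hσ' hX hQ hR
  have h1 : ∀ z : Fin m → G, Pz σ τ z * H (cm σ' (post σ τ z)) ≤
      ∑ t, Wt σ τ z t * F q σ' B R (fun i => z i - t) := by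
    intro z
    rcases (Pz_nonneg hσ hτ z).eq_or_lt with h0 | h0
    · have h2 : ∀ t, Wt σ τ z t = 0 := by
        intro t
        have := (sum_eq_zero_iff_of_nonneg (fun t _ => Wt_nonneg hσ hτ z t)).1 h0.symm
        exact this t (mem_univ t)
      rw [← h0]
      simp [h2]
    · have h2 := key gib q hσ' (post_isP hσ hτ z h0) B X Q R hX (fun t ht => hQ t (by
        intro h
        apply ht
        unfold post Wt
        rw [h]
        simp)) hR z
      calc Pz σ τ z * H (cm σ' (post σ τ z))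
          ≤ Pz σ τ z * ∑ t, post σ τ z t * F q σ' B R (fun i => z i - t) :=
            mul_le_mul_of_nonneg_left h2 h0.le
        _ = ∑ t, Wt σ τ z t * F q σ' B R (fun i => z i - t) := by
            rw [mul_sum]
            refine sum_congr rfl fun t _ => ?_
            unfold post
            field_simp
  refine (sum_le_sum fun z _ => h1 z).trans (le_of_eq ?_)
  rw [sum_comm]
  have h3 : ∀ t, ∑ z : Fin m → G, Wt σ τ z t * F q σ' B R (fun i => z i - t) =
      τ t * Ex σ (F q σ' B R : (Fin m → G) → ℝ) := by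
    intro t
    unfold Ex
    rw [mul_sum, ← (Equiv.subRight (fun _ : Fin m => t)).sum_comp
      (fun s : Fin m → G => τ t * ((∏ i, σ (s i)) * F q σ' B R s))]
    refine sum_congr rfl fun z _ => ?_
    have e : (Equiv.subRight (fun _ : Fin m => t)) z = fun i => z i - t := by
      ext i
      simp
    rw [e]
    unfold Wt
    ring
  simp only [h3]
  rw [← sum_mul, hτ.2, one_mul]
  rfl

end Pool.Agent.H98.BG
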