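import Pool.Agent.H98.BG.Stmt

/-!
# The mean of the logarithm of the normalising factor
-/

set_option autoImplicit false
set_option linter.unusedSectionVars false

namespace Pool.Agent.H98.BG

open Finset
open scoped Pointwise

namespace S2BL

variable {G : Type} [AddCommGroup G] [Fintype G] [DecidableEq G]

lemma ex_weight_nonneg {m : ℕ} {σ : G → ℝ} (hσ : IsP σ) (s : Fin m → G) :
    0 ≤ ∏ i, σ (s i) := Finset.prod_nonneg (fun _ _ => hσ.1 _)

lemma sum_weight {m : ℕ} {σ : G → ℝ} (hσ : IsP σ) :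
    ∑ s : Fin m → G, ∏ i, σ (s i) = 1 := by
  rw [← Fintype.sum_pow, hσ.2, one_pow]

lemma ex_const {m : ℕ} {σ : G → ℝ} (hσ : IsP σ) (c : ℝ) :
    Ex σ (fun _ : Fin m → G => c) = c := by
  unfold Ex
  rw [← Finset.sum_mul, sum_weight hσ, one_mul]

/-- monotonicity on the support -/
lemma ex_mono {m : ℕ} {σ : G → ℝ} (hσ : IsP σ) {φ ψ : (Fin m → G) → ℝ}
    (h : ∀ s : Fin m → G, (∀ i, σ (s i) ≠ 0) → φ s ≤ ψ s) : Ex σ φ ≤ Ex σ ψ := by
  unfold Ex
  apply Finset.sum_le_sum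
  intro s _
  by_cases hs : ∀ i, σ (s i) ≠ 0
  · exact mul_le_mul_of_nonneg_left (h s hs) (ex_weight_nonneg hσ s)
  · push Not at hs
    obtain ⟨i, hi⟩ := hs
    have : ∏ i, σ (s i) = 0 := Finset.prod_eq_zero (Finset.mem_univ i) hi
    rw [this, zero_mul, zero_mul]

lemma ex_add {m : ℕ} (σ : G → ℝ) (φ ψ : (Fin m → G) → ℝ) :
    Ex σ (fun s => φ s + ψ s) = Ex σ φ + Ex σ ψ := by
  unfold Ex
  rw [← Finset.sum_add_distrib]
  exact Finset.sum_congr rfl (fun s _ => mul_add _ _ _)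

lemma ex_sum {m : ℕ} (σ : G → ℝ) (φ : G → (Fin m → G) → ℝ) :
    Ex σ (fun s => ∑ x, φ x s) = ∑ x, Ex σ (φ x) := by
  unfold Ex
  rw [Finset.sum_comm]
  exact Finset.sum_congr rfl (fun s _ => Finset.mul_sum _ _ _)

lemma ex_div {m : ℕ} (σ : G → ℝ) (φ : (Fin m → G) → ℝ) (c : ℝ) :
    Ex σ (fun s => φ s / c) = Ex σ φ / c := by
  unfold Ex
  rw [Finset.sum_div]
  exact Finset.sum_congr rfl (fun s _ => (mul_div_assoc _ _ _).symm)

lemma pr_nonneg {σ : G → ℝ} (hσ : IsP σ) (B : Finset G) (x : G) : 0 ≤ pr σ B x := by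
  unfold pr
  apply Finset.sum_nonneg
  intro s _
  split_ifs
  · exact hσ.1 s
  · exact le_refl _

lemma pr_le_one {σ : G → ℝ} (hσ : IsP σ) (B : Finset G) (x : G) : pr σ B x ≤ 1 := by
  rw [← hσ.2]
  unfold pr
  apply Finset.sum_le_sum
  intro s _
  split_ifs
  · exact le_refl _
  · exact hσ.1 s

lemma mem_of_pr_one {σ : G → ℝ} (hσ : IsP σ) (B : Finset G) (x : G) (h : pr σ B x = 1)
    (y : G) (hy : σ y ≠ 0) : x + y ∈ B := by
  by_contra hn
  have h1 : ∑ s, (σ s - if x + s ∈ B then σ s else 0) = 0 := by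
    rw [Finset.sum_sub_distrib, hσ.2]
    unfold pr at h
    rw [h, sub_self]
  have h2 := (Finset.sum_eq_zero_iff_of_nonneg (s := Finset.univ)
    (f := fun s => σ s - if x + s ∈ B then σ s else 0) (by
      intro s _
      show 0 ≤ σ s - if x + s ∈ B then σ s else 0
      split_ifs
      · simp
      · simpa using hσ.1 s)).1 h1 y (Finset.mem_univ y)
  simp only [if_neg hn, sub_zero] at h2
  exact hy h2

lemma not_mem_of_pr_zero {σ : G → ℝ} (hσ : IsP σ) (B : Finset G) (x : G) (h : pr σ B x = 0)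
    (y : G) (hy : σ y ≠ 0) : x + y ∉ B := by
  intro hn
  unfold pr at h
  have h2 := (Finset.sum_eq_zero_iff_of_nonneg (s := Finset.univ)
    (f := fun s => if x + s ∈ B then σ s else 0) (by
      intro s _
      show 0 ≤ if x + s ∈ B then σ s else 0
      split_ifs
      · exact hσ.1 s
      · exact le_refl _)).1 h y (Finset.mem_univ y)
  simp only [if_pos hn] at h2
  exact hy h2

lemma em_nonneg {m : ℕ} (B : Finset G) (s : Fin m → G) (x : G) : 0 ≤ em B s x := by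
  unfold em
  apply div_nonneg _ (Nat.cast_nonneg m)
  apply Finset.sum_nonneg
  intro i _
  split_ifs <;> norm_num

lemma em_one {m : ℕ} (hm : 0 < m) {σ : G → ℝ} (hσ : IsP σ) (B : Finset G) (x : G)
    (h : pr σ B x = 1) (s : Fin m → G) (hs : ∀ i, σ (s i) ≠ 0) : em B s x = 1 := by
  unfold em
  have h1 : ∀ i : Fin m, (if x + s i ∈ B then (1 : ℝ) else 0) = 1 := fun i =>
    if_pos (mem_of_pr_one hσ B x h (s i) (hs i))
  simp only [h1, Finset.sum_const, Finset.card_univ, Fintype.card_fin, nsmul_eq_mul, mul_one]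
  exact div_self (by exact_mod_cast hm.ne')

lemma em_zero {m : ℕ} {σ : G → ℝ} (hσ : IsP σ) (B : Finset G) (x : G)
    (h : pr σ B x = 0) (s : Fin m → G) (hs : ∀ i, σ (s i) ≠ 0) : em B s x = 0 := by
  unfold em
  have h1 : ∀ i : Fin m, (if x + s i ∈ B then (1 : ℝ) else 0) = 0 := fun i =>
    if_neg (not_mem_of_pr_zero hσ B x h (s i) (hs i))
  simp [h1]

lemma card_le_sum_pow (σ : G → ℝ) (hσ : IsP σ) (B C : Finset G) (q : ℕ)
    (hC : ∀ x ∈ C, pr σ B x = 1) : (C.card : ℝ) ≤ ∑ x, pr σ B x ^ q := by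
  have h1 : (C.card : ℝ) = ∑ x ∈ C, pr σ B x ^ q := by
    rw [Finset.card_eq_sum_ones]
    push_cast
    apply Finset.sum_congr rfl
    intro x hx
    rw [hC x hx, one_pow]
  rw [h1]
  exact Finset.sum_le_sum_of_subset_of_nonneg (Finset.subset_univ C)
    (fun x _ _ => pow_nonneg (pr_nonneg hσ B x) q)

end S2BL

open S2BL in
theorem s2b (mom : MOM) : S2B := by
  intro G _ _ _ m q σ B X C R β hσ hm hq hqm hCne hC hX hXc hRc
  have hCpos : (0 : ℝ) < C.card := by exact_mod_cast hCne.card_pos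
  have hβ : 0 ≤ β := by
    by_contra hneg
    push Not at hneg
    have h1 : β * C.card < 0 := mul_neg_of_neg_of_pos hneg hCpos
    have h2 : (0 : ℝ) ≤ X.card := Nat.cast_nonneg _
    linarith
  set Y : (Fin m → G) → ℝ := fun s => ∑ x, em B s x ^ q + (R.card : ℝ) * (1 / 4) ^ q with hY
  set Z0 : ℝ := ∑ x, pr σ B x ^ q with hZ0
  have hZ0C : (C.card : ℝ) ≤ Z0 := card_le_sum_pow σ hσ B C q hC
  have hZ0pos : 0 < Z0 := lt_of_lt_of_le hCpos hZ0C
  have hYC : ∀ s : Fin m → G, (∀ i, σ (s i) ≠ 0) → (C.card : ℝ) ≤ Y s := by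
    intro s hs
    have h1 : (C.card : ℝ) = ∑ x ∈ C, em B s x ^ q := by
      rw [Finset.card_eq_sum_ones]
      push_cast
      apply Finset.sum_congr rfl
      intro x hx
      rw [em_one hm hσ B x (hC x hx) s hs, one_pow]
    have h2 : ∑ x ∈ C, em B s x ^ q ≤ ∑ x, em B s x ^ q :=
      Finset.sum_le_sum_of_subset_of_nonneg (Finset.subset_univ C)
        (fun x _ _ => pow_nonneg (em_nonneg B s x) q)
    have h3 : (0 : ℝ) ≤ (R.card : ℝ) * (1 / 4) ^ q := by positivity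
    show (C.card : ℝ) ≤ ∑ x, em B s x ^ q + (R.card : ℝ) * (1 / 4) ^ q
    linarith
  set y0 : ℝ := Ex σ Y with hy0
  have hy0C : (C.card : ℝ) ≤ y0 := by
    have := ex_mono (m := m) hσ (φ := fun _ => (C.card : ℝ)) (ψ := Y) hYC
    rwa [ex_const hσ] at this
  have hy0pos : 0 < y0 := lt_of_lt_of_le hCpos hy0C
  -- concavity
  have hlog : Ex σ (fun s => Real.log (Y s)) ≤ Real.log y0 := by
    have h1 : Ex σ (fun s => Real.log (Y s)) ≤
        Ex σ (fun s => (Real.log y0 - 1) + Y s / y0) := by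
      apply ex_mono hσ
      intro s hs
      have hYs : 0 < Y s := lt_of_lt_of_le hCpos (hYC s hs)
      have h2 := Real.log_le_sub_one_of_pos (div_pos hYs hy0pos)
      rw [Real.log_div hYs.ne' hy0pos.ne'] at h2
      linarith
    have h3 : Ex σ (fun s => (Real.log y0 - 1) + Y s / y0) = Real.log y0 := by
      rw [ex_add σ (fun _ => Real.log y0 - 1) (fun s => Y s / y0), ex_const hσ, ex_div]
      rw [← hy0, div_self hy0pos.ne']
      ring
    linarith
  -- the moments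
  set E : ℝ := Real.exp (2 * (q : ℝ) ^ 2 / m) with hE
  have hE1 : 1 ≤ E := by
    rw [hE]
    apply Real.one_le_exp
    positivity
  have hmo : ∀ x, Ex σ (fun s : Fin m → G => em B s x ^ q) ≤
      E * (pr σ B x ^ q + if x ∈ X then (1 / 2 : ℝ) ^ q else 0) := by
    intro x
    have hif : (0 : ℝ) ≤ if x ∈ X then (1 / 2 : ℝ) ^ q else 0 := by
      split_ifs
      · positivity
      · exact le_refl _
    have hp0 := pr_nonneg hσ B x
    have hp1 := pr_le_one hσ B x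
    have hpq : 0 ≤ pr σ B x ^ q := pow_nonneg hp0 q
    by_cases h2 : 1 / 2 ≤ pr σ B x
    · have h3 := mom G m q σ B x (pr σ B x) hσ (le_refl _) h2 hp1 hm hqm
      have h4 : pr σ B x ^ q * E ≤
          E * (pr σ B x ^ q + if x ∈ X then (1 / 2 : ℝ) ^ q else 0) := by
        have : 0 ≤ E * (if x ∈ X then (1 / 2 : ℝ) ^ q else 0) := by positivity
        linarith [mul_add E (pr σ B x ^ q) (if x ∈ X then (1 / 2 : ℝ) ^ q else 0),
          mul_comm (pr σ B x ^ q) E]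
      exact le_trans h3 h4
    · push Not at h2
      by_cases h0 : pr σ B x = 0
      · have h3 : Ex σ (fun s : Fin m → G => em B s x ^ q) ≤ Ex σ (fun _ : Fin m → G => (0 : ℝ)) := by
          apply ex_mono hσ
          intro s hs
          rw [em_zero hσ B x h0 s hs, zero_pow (by omega)]
        rw [ex_const hσ] at h3
        have h4 : 0 ≤ E * (pr σ B x ^ q + if x ∈ X then (1 / 2 : ℝ) ^ q else 0) := by positivity
        linarith
      · have h3 := mom G m q σ B x (1 / 2) hσ h2.le (le_refl _) (by norm_num) hm hqm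
        rw [if_pos (hX x h0)]
        have h4 : 0 ≤ E * pr σ B x ^ q := by positivity
        have h5 : (1 / 2 : ℝ) ^ q * E ≤ E * (pr σ B x ^ q + (1 / 2 : ℝ) ^ q) := by
          linarith [mul_add E (pr σ B x ^ q) ((1 / 2 : ℝ) ^ q), mul_comm ((1 / 2 : ℝ) ^ q) E]
        exact le_trans h3 h5
  have hy0eq : y0 = ∑ x, Ex σ (fun s : Fin m → G => em B s x ^ q) +
      (R.card : ℝ) * (1 / 4) ^ q := by
    rw [hy0, hY]
    rw [ex_add σ (fun s => ∑ x, em B s x ^ q) (fun _ => (R.card : ℝ) * (1 / 4) ^ q),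
      ex_const hσ, ex_sum σ (fun x s => em B s x ^ q)]
  have hsum : ∑ x, Ex σ (fun s : Fin m → G => em B s x ^ q) ≤
      E * (Z0 + X.card * (1 / 2 : ℝ) ^ q) := by
    calc ∑ x, Ex σ (fun s : Fin m → G => em B s x ^ q)
        ≤ ∑ x, E * (pr σ B x ^ q + if x ∈ X then (1 / 2 : ℝ) ^ q else 0) :=
          Finset.sum_le_sum (fun x _ => hmo x)
      _ = E * (Z0 + X.card * (1 / 2 : ℝ) ^ q) := by
          rw [← Finset.mul_sum, Finset.sum_add_distrib, Finset.sum_ite_mem, Finset.univ_inter,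
            Finset.sum_const, nsmul_eq_mul]
  have h42 : (1 / 4 : ℝ) ^ q ≤ (1 / 2 : ℝ) ^ q :=
    pow_le_pow_left₀ (by norm_num) (by norm_num) q
  have hhalf : (0 : ℝ) < (1 / 2 : ℝ) ^ q := by positivity
  have hbound : y0 ≤ E * (Z0 * (1 + 2 * β * (1 / 2 : ℝ) ^ q)) := by
    have h1 : (R.card : ℝ) * (1 / 4) ^ q ≤ E * (β * C.card * (1 / 2 : ℝ) ^ q) := by
      have h2 : (R.card : ℝ) * (1 / 4) ^ q ≤ β * C.card * (1 / 2 : ℝ) ^ q :=
        mul_le_mul hRc h42 (by positivity) (by positivity)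
      have h3 : 0 ≤ β * C.card * (1 / 2 : ℝ) ^ q := by positivity
      nlinarith [mul_nonneg (sub_nonneg.2 hE1) h3]
    have h4 : E * (Z0 + X.card * (1 / 2 : ℝ) ^ q) ≤ E * (Z0 + β * C.card * (1 / 2 : ℝ) ^ q) := by
      apply mul_le_mul_of_nonneg_left _ (by linarith)
      have := mul_le_mul_of_nonneg_right hXc hhalf.le
      linarith
    have h5 : β * C.card * (1 / 2 : ℝ) ^ q ≤ Z0 * (β * (1 / 2 : ℝ) ^ q) := by
      have h6 : 0 ≤ β * (1 / 2 : ℝ) ^ q := by positivity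
      have := mul_le_mul_of_nonneg_right hZ0C h6
      calc β * C.card * (1 / 2 : ℝ) ^ q = C.card * (β * (1 / 2 : ℝ) ^ q) := by ring
        _ ≤ Z0 * (β * (1 / 2 : ℝ) ^ q) := this
    have hE0 : 0 ≤ E := by linarith
    calc y0 = ∑ x, Ex σ (fun s : Fin m → G => em B s x ^ q) +
          (R.card : ℝ) * (1 / 4) ^ q := hy0eq
      _ ≤ E * (Z0 + β * C.card * (1 / 2 : ℝ) ^ q) + E * (β * C.card * (1 / 2 : ℝ) ^ q) := by
          linarith
      _ = E * (Z0 + 2 * (β * C.card * (1 / 2 : ℝ) ^ q)) := by ring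
      _ ≤ E * (Z0 + 2 * (Z0 * (β * (1 / 2 : ℝ) ^ q))) := by
          apply mul_le_mul_of_nonneg_left _ hE0
          linarith
      _ = E * (Z0 * (1 + 2 * β * (1 / 2 : ℝ) ^ q)) := by ring
  have h1pos : 0 < 1 + 2 * β * (1 / 2 : ℝ) ^ q := by positivity
  have hlogy0 : Real.log y0 ≤ 2 * (q : ℝ) ^ 2 / m + (Real.log Z0 + 2 * β * (1 / 2 : ℝ) ^ q) := by
    have h1 := Real.log_le_log hy0pos hbound
    rw [Real.log_mul (by positivity) (by positivity), Real.log_mul hZ0pos.ne' h1pos.ne',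
      hE, Real.log_exp] at h1
    have h2 := Real.log_le_sub_one_of_pos h1pos
    linarith
  calc Ex σ (fun s : Fin m → G => Real.log (∑ x, em B s x ^ q + (R.card : ℝ) * (1 / 4) ^ q))
      = Ex σ (fun s => Real.log (Y s)) := rfl
    _ ≤ Real.log y0 := hlog
    _ ≤ 2 * (q : ℝ) ^ 2 / m + (Real.log Z0 + 2 * β * (1 / 2 : ℝ) ^ q) := hlogy0
    _ = Real.log Z0 + 2 * (q : ℝ) ^ 2 / m + 2 * β * (1 / 2) ^ q := by ring

end Pool.Agent.H98.BG
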