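import Pool.Agent.H98.BG.Stmt

/-!
# The entropy of a power, and elementary properties (helper399)
-/

set_option autoImplicit false

namespace Pool.Agent.H98.BG

open Finset
open scoped Pointwise

namespace S2DL

theorem term (q : ℕ) (hq : 1 ≤ q) (a Z : ℝ) (ha : 0 ≤ a) (hZ : 0 < Z) :
    Real.negMulLog (a ^ q / Z) =
      a ^ q / Z * Real.log Z - q * (a ^ q / Z * Real.log a) := by
  rcases ha.eq_or_lt with h | h
  · rw [← h, zero_pow (by omega), zero_div, Real.negMulLog_zero]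
    ring
  · rw [Real.negMulLog, Real.log_div (pow_pos h q).ne' hZ.ne', Real.log_pow]
    ring

end S2DL

theorem s2d : S2D := by
  intro G _ _ _ q f hq hf hZ
  unfold H
  rw [sum_congr rfl fun x _ => S2DL.term q hq (f x) (∑ x, f x ^ q) (hf x) hZ,
    sum_sub_distrib, ← sum_mul, ← sum_div, div_self hZ.ne', one_mul, ← mul_sum]

namespace S2DL

variable {G : Type} [AddCommGroup G] [Fintype G] [DecidableEq G]

/-- the entropy of a variable with values in `Q` -/
theorem b1 (gib : GIB) (τ : G → ℝ) (Q : Finset G) (hτ : IsP τ) (hQ : ∀ t, τ t ≠ 0 → t ∈ Q) :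
    H τ ≤ Real.log Q.card := by
  obtain ⟨t₀, ht₀⟩ : ∃ t, τ t ≠ 0 := by
    by_contra h
    have h' : ∀ t, τ t = 0 := fun t => by
      by_contra h2
      exact h ⟨t, h2⟩
    have h3 := hτ.2
    rw [sum_eq_zero fun t _ => h' t] at h3
    exact zero_ne_one h3
  have hc : 0 < (Q.card : ℝ) := by
    exact_mod_cast card_pos.2 ⟨t₀, hQ t₀ ht₀⟩
  have h1 := gib G τ (fun t => if t ∈ Q then (1 : ℝ) / Q.card else 0) hτ ?_ ?_ ?_
  · refine h1.trans (le_of_eq ?_)
    rw [← sum_neg_distrib]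
    have h2 : ∀ x ∈ (univ : Finset G), -(τ x * Real.log (if x ∈ Q then (1 : ℝ) / Q.card else 0)) =
        τ x * Real.log Q.card := by
      intro x _
      by_cases hx : x ∈ Q
      · rw [if_pos hx, one_div, Real.log_inv]
        ring
      · have h3 : τ x = 0 := by
          by_contra h4
          exact hx (hQ x h4)
        rw [h3]
        ring
    rw [sum_congr rfl h2, ← sum_mul, hτ.2, one_mul]
  · intro x
    split_ifs
    · positivity
    · exact le_rfl
  · rw [sum_ite_mem, univ_inter, sum_const, nsmul_eq_mul, mul_one_div, div_self hc.ne']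
  · intro x hx
    rw [if_pos (hQ x hx)]
    positivity

theorem shr (f : G → ℝ) (t : G) : ∑ y, f (y + t) = ∑ y, f y :=
  Equiv.sum_comp (Equiv.addRight t) f

theorem shl (f : G → ℝ) (t : G) : ∑ y, f (y - t) = ∑ y, f y :=
  Equiv.sum_comp (Equiv.subRight t) f

/-- the entropy of a sum -/
theorem b2 (σ τ : G → ℝ) (hσ : IsP σ) (hτ : IsP τ) : H σ ≤ H (cm σ τ) := by
  have h1 : ∀ y : G, ∑ t, τ t * Real.negMulLog (σ (y + t)) ≤ Real.negMulLog (cm σ τ y) := by
    intro y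
    have h := Real.concaveOn_negMulLog.le_map_sum (t := univ) (w := τ)
      (p := fun t => σ (y + t)) (fun i _ => hτ.1 i) hτ.2 (fun i _ => Set.mem_Ici.2 (hσ.1 _))
    simp only [smul_eq_mul] at h
    refine h.trans (le_of_eq ?_)
    unfold cm
    exact congrArg _ (sum_congr rfl fun t _ => mul_comm _ _)
  calc H σ = ∑ t, τ t * ∑ y, Real.negMulLog (σ (y + t)) := by
        rw [sum_congr rfl fun t _ => by rw [shr (fun y => Real.negMulLog (σ y)) t], ← sum_mul,
          hτ.2, one_mul, H]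
    _ = ∑ t, ∑ y, τ t * Real.negMulLog (σ (y + t)) := by
        simp only [mul_sum]
    _ = ∑ y, ∑ t, τ t * Real.negMulLog (σ (y + t)) := sum_comm
    _ ≤ ∑ y, Real.negMulLog (cm σ τ y) := sum_le_sum fun y _ => h1 y
    _ = H (cm σ τ) := rfl

theorem b3 (σ τ : G → ℝ) (hσ : IsP σ) (hτ : IsP τ) : IsP (cm σ τ) ∧ IsP (cv σ τ) := by
  refine ⟨⟨fun y => sum_nonneg fun t _ => mul_nonneg (hσ.1 _) (hτ.1 _), ?_⟩,
    ⟨fun y => sum_nonneg fun t _ => mul_nonneg (hσ.1 _) (hτ.1 _), ?_⟩⟩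
  · unfold cm
    rw [sum_comm]
    simp only [← sum_mul]
    rw [sum_congr rfl fun t _ => by rw [shr σ t, hσ.2, one_mul], hτ.2]
  · unfold cv
    rw [sum_comm]
    simp only [← sum_mul]
    rw [sum_congr rfl fun t _ => by rw [shl σ t, hσ.2, one_mul], hτ.2]

theorem wt_nonneg (m : ℕ) (σ τ : G → ℝ) (hσ : IsP σ) (hτ : IsP τ) (z : Fin m → G) (t : G) :
    0 ≤ Wt σ τ z t :=
  mul_nonneg (hτ.1 t) (prod_nonneg fun i _ => hσ.1 _)

theorem b4 (m : ℕ) (σ τ : G → ℝ) (hσ : IsP σ) (hτ : IsP τ) :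
    IsP (Pz σ τ : (Fin m → G) → ℝ) := by
  refine ⟨fun z => sum_nonneg fun t _ => wt_nonneg m σ τ hσ hτ z t, ?_⟩
  unfold Pz Wt
  rw [sum_comm]
  simp only [← mul_sum]
  have h : ∀ t : G, ∑ z : Fin m → G, ∏ i, σ (z i - t) = 1 := by
    intro t
    have h1 := Finset.prod_univ_sum (fun _ : Fin m => (univ : Finset G))
      (fun _ y => σ (y - t))
    rw [Fintype.piFinset_univ] at h1
    rw [← h1]
    exact prod_eq_one fun i _ => by rw [shl σ t, hσ.2]
  rw [sum_congr rfl fun t _ => by rw [h t, mul_one], hτ.2]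

theorem b5 (m : ℕ) (σ τ : G → ℝ) (z : Fin m → G) (hσ : IsP σ) (hτ : IsP τ)
    (hz : 0 < Pz σ τ z) : IsP (post σ τ z) := by
  refine ⟨fun t => div_nonneg (wt_nonneg m σ τ hσ hτ z t) hz.le, ?_⟩
  unfold post
  rw [← sum_div]
  exact div_self hz.ne'

theorem b6 (m : ℕ) (σ τ : G → ℝ) (z : Fin m → G) (t : G) (h : post σ τ z t ≠ 0) : τ t ≠ 0 := by
  intro h0
  refine h ?_
  unfold post Wt
  rw [h0, zero_mul, zero_div]

theorem b7 (σ τ : G → ℝ) (hτ : IsP τ) : IsP (fun t => τ (-t)) ∧ H (fun t => τ (-t)) = H τ ∧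
    cv σ (fun t => τ (-t)) = cm σ τ := by
  refine ⟨⟨fun t => hτ.1 _, ?_⟩, ?_, ?_⟩
  · rw [← hτ.2]
    exact Equiv.sum_comp (Equiv.neg G) τ
  · exact Equiv.sum_comp (Equiv.neg G) (fun t => Real.negMulLog (τ t))
  · funext y
    unfold cv cm
    rw [← Equiv.sum_comp (Equiv.neg G) (fun t => σ (y + t) * τ t)]
    refine sum_congr rfl fun t _ => ?_
    rw [Equiv.neg_apply, sub_eq_add_neg]

end S2DL

theorem bas (gib : GIB) : BAS := by
  intro G _ _ _
  exact ⟨fun τ Q => S2DL.b1 gib τ Q, fun σ τ => S2DL.b2 σ τ, fun σ τ => S2DL.b3 σ τ,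
    fun m σ τ => S2DL.b4 m σ τ, fun m σ τ z => S2DL.b5 m σ τ z, fun m σ τ z t => S2DL.b6 m σ τ z t,
    fun σ τ => S2DL.b7 σ τ⟩

end Pool.Agent.H98.BG
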