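import Pool.Agent.H98.BG.Stmt

/-!
# One step
-/

set_option autoImplicit false

namespace Pool.Agent.H98.BG

open Finset
open scoped Pointwise

namespace StepL

variable {G : Type} [AddCommGroup G] [Fintype G] [DecidableEq G]

omit [AddCommGroup G] [DecidableEq G] in
lemma Ex_add {m : ℕ} (σ : G → ℝ) (φ ψ : (Fin m → G) → ℝ) :
    Ex σ (fun s => φ s + ψ s) = Ex σ φ + Ex σ ψ := by
  simp only [Ex, mul_add, Finset.sum_add_distrib]

omit [AddCommGroup G] [DecidableEq G] in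
lemma Ex_mul {m : ℕ} (σ : G → ℝ) (a : ℝ) (φ : (Fin m → G) → ℝ) :
    Ex σ (fun s => a * φ s) = a * Ex σ φ := by
  simp only [Ex, Finset.mul_sum]
  refine Finset.sum_congr rfl fun s _ => by ring

lemma pr_nonneg {σ : G → ℝ} (hσ : IsP σ) (B : Finset G) (x : G) : 0 ≤ pr σ B x :=
  Finset.sum_nonneg fun s _ => by split_ifs <;> [exact hσ.1 s; exact le_rfl]

lemma pr_one {σ : G → ℝ} (hσ : IsP σ) {P B : Finset G} (hP : ∀ x, σ x ≠ 0 → x ∈ P) {x : G}
    (h : ∀ p ∈ P, x + p ∈ B) : pr σ B x = 1 := by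
  rw [← hσ.2]
  refine Finset.sum_congr rfl fun s _ => ?_
  by_cases h0 : σ s = 0
  · simp [h0]
  · rw [if_pos (h s (hP s h0))]

lemma pr_ne {σ : G → ℝ} {P B X : Finset G} (hP : ∀ x, σ x ≠ 0 → x ∈ P)
    (hX : ∀ b ∈ B, ∀ p ∈ P, b - p ∈ X) {x : G} (h : pr σ B x ≠ 0) : x ∈ X := by
  obtain ⟨s, -, hs⟩ := Finset.exists_ne_zero_of_sum_ne_zero h
  by_cases hb : x + s ∈ B
  · rw [if_pos hb] at hs
    have := hX _ hb s (hP s hs)
    simpa using this
  · exact absurd (by rw [if_neg hb]) hs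

/-- choice of an outcome -/
lemma select {α : Type} [Fintype α] (P F1 F2 : α → ℝ) (hP : IsP P) {a0 c' : ℝ} (ha : 0 ≤ a0)
    (hc : 0 < c') (h1 : ∑ z, P z * F1 z ≤ a0) (h2 : ∑ z, P z * F2 z ≤ c' / 2)
    (n1 : ∀ z, 0 < P z → 0 ≤ F1 z) (n2 : ∀ z, 0 < P z → 0 ≤ F2 z) :
    ∃ z, 0 < P z ∧ F1 z ≤ 2 * a0 + 1 ∧ F2 z ≤ c' := by
  by_contra hcon
  push Not at hcon
  have key : ∀ z, P z * 2 ≤ P z * (F1 z / (a0 + 1 / 2) + F2 z / (c' / 2)) := by
    intro z
    rcases (hP.1 z).eq_or_lt with h0 | hpos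
    · rw [← h0]; simp
    · apply mul_le_mul_of_nonneg_left _ hpos.le
      have g1 := n1 z hpos
      have g2 := n2 z hpos
      by_cases hF : F1 z ≤ 2 * a0 + 1
      · have := hcon z hpos hF
        have e1 : 2 ≤ F2 z / (c' / 2) := by
          rw [le_div_iff₀ (by linarith)]; linarith
        have e2 : 0 ≤ F1 z / (a0 + 1 / 2) := div_nonneg g1 (by linarith)
        linarith
      · have e1 : 2 ≤ F1 z / (a0 + 1 / 2) := by
          rw [le_div_iff₀ (by linarith)]; linarith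
        have e2 : 0 ≤ F2 z / (c' / 2) := div_nonneg g2 (by linarith)
        linarith
  have hs := Finset.sum_le_sum fun z (_ : z ∈ Finset.univ) => key z
  rw [← Finset.sum_mul, hP.2] at hs
  have e : ∑ z, P z * (F1 z / (a0 + 1 / 2) + F2 z / (c' / 2)) =
      (∑ z, P z * F1 z) / (a0 + 1 / 2) + (∑ z, P z * F2 z) / (c' / 2) := by
    rw [Finset.sum_div, Finset.sum_div, ← Finset.sum_add_distrib]
    refine Finset.sum_congr rfl fun z _ => by ring
  rw [e] at hs
  have e1 : (∑ z, P z * F1 z) / (a0 + 1 / 2) < 1 := by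
    rw [div_lt_one (by linarith)]; linarith
  have e2 : (∑ z, P z * F2 z) / (c' / 2) ≤ 1 := by
    rw [div_le_one (by linarith)]; linarith
  linarith

end StepL

open StepL

theorem step (t1 : T1) (s2a : S2A) (s2b : S2B) (s2c : S2C) (s2d : S2D) (bas : BAS) : STEP := by
  intro G _ _ _ σ τ P Q C B X R q m β c c' L hσ hτ hP hQ hC hCB hBX hXR hX hR hL hc hm hq hqm
    hqc hqβ hc'
  obtain ⟨b1, b2, b3, b4, b5, b6, b7⟩ := bas G
  have hfone : ∀ x ∈ C, pr σ B x = 1 := fun x hx => pr_one hσ hP (hCB x hx)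
  have hfX : ∀ x, pr σ B x ≠ 0 → x ∈ X := fun x hx => pr_ne hP hBX hx
  have hf0 : ∀ x, 0 ≤ pr σ B x := pr_nonneg hσ B
  set Z0 : ℝ := ∑ x, pr σ B x ^ q with hZ0
  have hZpos : 0 < Z0 := by
    obtain ⟨x0, hx0⟩ := hC
    refine Finset.sum_pos' (fun x _ => pow_nonneg (hf0 x) q) ⟨x0, Finset.mem_univ _, ?_⟩
    rw [hfone x0 hx0]; simp
  set σ' : G → ℝ := fun x => pr σ B x ^ q / Z0 with hσ'def
  have hσ' : IsP σ' := by
    constructor
    · intro x; exact div_nonneg (pow_nonneg (hf0 x) q) hZpos.le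
    · rw [hσ'def, ← Finset.sum_div]; exact div_self hZpos.ne'
  have hσ'X : ∀ x, σ' x ≠ 0 → x ∈ X := by
    intro x hx
    apply hfX
    intro h0
    apply hx
    simp only [hσ'def, h0]
    rw [zero_pow (by omega), zero_div]
  have hβ : 0 ≤ β := by
    have h1 : (0 : ℝ) < C.card := by exact_mod_cast hC.card_pos
    by_contra hneg
    push Not at hneg
    have : β * (C.card : ℝ) < 0 := mul_neg_of_neg_of_pos hneg h1
    have h2 : (0 : ℝ) ≤ X.card := Nat.cast_nonneg _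
    linarith
  have hm' : (0 : ℝ) < m := by exact_mod_cast hm
  -- the mean cost
  have hcost : ∑ z : Fin m → G, Pz σ τ z * (H (cm σ' (post σ τ z)) - H σ') ≤ c' / 2 := by
    have e0 : ∑ z : Fin m → G, Pz σ τ z * (H (cm σ' (post σ τ z)) - H σ') =
        ∑ z : Fin m → G, Pz σ τ z * H (cm σ' (post σ τ z)) - H σ' := by
      simp only [mul_sub, Finset.sum_sub_distrib]
      rw [← Finset.sum_mul, (b4 m σ τ hσ hτ).2, one_mul]
    rw [e0]
    have a1 := s2a G m q σ τ σ' B X Q R hσ hτ hσ' hσ'X hQ hXR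
    have a2 := s2b G m q σ B X C R β hσ hm hq hqm hC hfone hfX hX hR
    have a3 := s2c G m q σ B X C β hσ hm hq hC hfone hfX hX
    have a4 := s2d G q (pr σ B) hq hf0 hZpos
    have e1 : Ex σ (fun s : Fin m → G =>
        -(q : ℝ) * ∑ x, σ' x * Real.log (max (em B s x) (1 / 4)) +
        Real.log (∑ x, em B s x ^ q + (R.card : ℝ) * (1 / 4) ^ q)) =
        (q : ℝ) * Ex σ (fun s : Fin m → G =>
          -∑ x, pr σ B x ^ q / (∑ x, pr σ B x ^ q) * Real.log (max (em B s x) (1 / 4))) +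
        Ex σ (fun s : Fin m → G =>
          Real.log (∑ x, em B s x ^ q + (R.card : ℝ) * (1 / 4) ^ q)) := by
      rw [← Ex_mul, ← Ex_add]
      congr 1
      funext s
      simp only [hσ'def, hZ0]
      ring
    rw [e1] at a1
    have e2 : H σ' = Real.log Z0 -
        q * ∑ x, pr σ B x ^ q / Z0 * Real.log (pr σ B x) := a4
    rw [e2]
    have hqn : (0 : ℝ) ≤ q := Nat.cast_nonneg q
    have a3' := mul_le_mul_of_nonneg_left a3 hqn
    rw [← hZ0] at a2 a3'
    have hq1 : (1 : ℝ) ≤ q := by exact_mod_cast hq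
    -- numerics
    have n1 : 2 * (q : ℝ) ^ 2 / m ≤ c' / 8 := by
      rw [div_le_iff₀ hm']; nlinarith
    have n2 : (q : ℝ) * (2 / m) ≤ c' / 8 := by
      have : (q : ℝ) * (2 / m) = 2 * q / m := by ring
      rw [this, div_le_iff₀ hm']
      nlinarith
    have n3 : ((q : ℝ) + 2) * (β * (1 / 2) ^ q) ≤ 1 / 64 := by
      have h2 : (0 : ℝ) < 2 ^ q := by positivity
      have : ((q : ℝ) + 2) * (β * (1 / 2) ^ q) = (((q : ℝ) + 2) * β) / 2 ^ q := by
        rw [one_div, inv_pow]; ring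
      rw [this, div_le_iff₀ h2]
      linarith
    have e3 : (q : ℝ) * (-(∑ x, pr σ B x ^ q / Z0 * Real.log (pr σ B x)) + 2 / m +
        β * (1 / 2) ^ q) = -(q * ∑ x, pr σ B x ^ q / Z0 * Real.log (pr σ B x)) +
        q * (2 / m) + q * (β * (1 / 2) ^ q) := by ring
    rw [e3] at a3'
    linarith
  have hpost := t1 G m σ τ c L hσ hτ hc
  have hHτ : H τ ≤ L := (b1 τ Q hτ hQ).trans hL
  have hc0 : 0 ≤ c := by
    have h1 := (b2 σ (fun t => τ (-t)) hσ (b7 σ τ hτ).1)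
    have h2 : cm σ (fun t => τ (-t)) = cv σ τ := by
      have := (b7 σ (fun t => τ (-t)) (b7 σ τ hτ).1).2.2
      simp only [neg_neg] at this
      exact this.symm
    rw [h2] at h1
    linarith
  obtain ⟨z, hz, hz1, hz2⟩ := select (Pz σ τ : (Fin m → G) → ℝ)
    (fun z => L - H (post σ τ z)) (fun z => H (cm σ' (post σ τ z)) - H σ') (b4 m σ τ hσ hτ)
    (a0 := (L - H τ) + m * c) (c' := c')
    (by have := mul_nonneg hm'.le hc0; linarith) (by linarith) hpost hcost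
    (fun z hz => by
      have := b1 (post σ τ z) Q (b5 m σ τ z hσ hτ hz) (fun t ht => hQ t (b6 m σ τ z t ht))
      linarith)
    (fun z hz => by
      have := b2 σ' (post σ τ z) hσ' (b5 m σ τ z hσ hτ hz)
      linarith)
  exact ⟨σ', post σ τ z, hσ', b5 m σ τ z hσ hτ hz, hσ'X,
    fun t ht => hQ t (b6 m σ τ z t ht), hz1, hz2⟩

end Pool.Agent.H98.BG
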