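import Pool.Agent.H98.BG.Stmt3
import Pool.Agent.H98.BG.Step

/-!
# One step
-/

set_option autoImplicit false

namespace Pool.Agent.H98.BG

open Finset
open scoped Pointwise

open StepL

theorem step3 (t1 : T1) (s2a : S2A) (s2b : S2B) (lgm : LGM) (s2d : S2D) (bas : BAS) : STEP3 := by
  intro G _ _ _ σ τ P Q C B X R q m β c c' L hσ hτ hP hQ hC hCB hBX hXR hX hR hL hc hm hq hqm
    hqc hqβ hc'
  obtain ⟨b1, b2, b3, b4, b5, b6, b7⟩ := bas G
  have hfone : ∀ x ∈ C, pr σ B x = 1 := fun x hx => pr_one hσ hP (hCB x hx)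
  have hfX : ∀ x, pr σ B x ≠ 0 → x ∈ X := fun x hx => pr_ne hP hBX hx
  have hf0 : ∀ x, 0 ≤ pr σ B x := pr_nonneg hσ B
  set g : G → ℝ := fun x => if 3 / 4 ≤ pr σ B x then pr σ B x else 0 with hg
  have hg0 : ∀ x, 0 ≤ g x := by
    intro x; simp only [hg]; split_ifs
    · exact hf0 x
    · exact le_rfl
  have hgC : ∀ x ∈ C, g x = 1 := by
    intro x hx
    simp only [hg, hfone x hx]; norm_num
  set Z0 : ℝ := ∑ x, g x ^ q with hZ0
  have hZC : (C.card : ℝ) ≤ Z0 := by
    calc (C.card : ℝ) = ∑ x ∈ C, g x ^ q := by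
          rw [Finset.sum_congr rfl fun x hx => by rw [hgC x hx, one_pow]]; simp
      _ ≤ ∑ x, g x ^ q := Finset.sum_le_sum_of_subset_of_nonneg (Finset.subset_univ C)
          fun x _ _ => pow_nonneg (hg0 x) q
  have hCpos : (0 : ℝ) < C.card := by exact_mod_cast hC.card_pos
  have hZpos : 0 < Z0 := lt_of_lt_of_le hCpos hZC
  set σ' : G → ℝ := fun x => g x ^ q / Z0 with hσ'def
  have hσ' : IsP σ' := by
    constructor
    · intro x; exact div_nonneg (pow_nonneg (hg0 x) q) hZpos.le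
    · rw [hσ'def, ← Finset.sum_div]; exact div_self hZpos.ne'
  have hσ'U : ∀ x, σ' x ≠ 0 → 3 / 4 ≤ pr σ B x := by
    intro x hx
    by_contra h0
    apply hx
    simp only [hσ'def, hg, if_neg h0]
    rw [zero_pow (by omega), zero_div]
  have hσ'X : ∀ x, σ' x ≠ 0 → x ∈ X := by
    intro x hx
    apply hfX
    intro h0
    have := hσ'U x hx
    rw [h0] at this
    norm_num at this
  have hβ : 0 ≤ β := by
    by_contra hneg
    push Not at hneg
    have : β * (C.card : ℝ) < 0 := mul_neg_of_neg_of_pos hneg hCpos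
    have h2 : (0 : ℝ) ≤ X.card := Nat.cast_nonneg _
    linarith
  have hm' : (0 : ℝ) < m := by exact_mod_cast hm
  -- comparison of the normalising factors
  have hZ1 : ∑ x, pr σ B x ^ q ≤ Z0 * (1 + β * (3 / 4) ^ q) := by
    have h1 : ∑ x, pr σ B x ^ q ≤ ∑ x, (g x ^ q + if x ∈ X then (3 / 4 : ℝ) ^ q else 0) := by
      apply Finset.sum_le_sum
      intro x _
      have hp : (0 : ℝ) ≤ if x ∈ X then (3 / 4 : ℝ) ^ q else 0 := by
        split_ifs <;> positivity
      by_cases hx : 3 / 4 ≤ pr σ B x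
      · have : g x = pr σ B x := by simp only [hg, if_pos hx]
        rw [this]; linarith
      · push Not at hx
        by_cases h0 : pr σ B x = 0
        · rw [h0, zero_pow (by omega)]
          have := pow_nonneg (hg0 x) q
          linarith
        · rw [if_pos (hfX x h0)]
          have h2 : pr σ B x ^ q ≤ (3 / 4 : ℝ) ^ q := pow_le_pow_left₀ (hf0 x) hx.le q
          have := pow_nonneg (hg0 x) q
          linarith
    rw [Finset.sum_add_distrib, Finset.sum_ite_mem, Finset.univ_inter, Finset.sum_const,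
      nsmul_eq_mul] at h1
    have h3 : (X.card : ℝ) * (3 / 4) ^ q ≤ Z0 * (β * (3 / 4) ^ q) := by
      have h4 : (X.card : ℝ) ≤ Z0 * β := hX.trans (by nlinarith)
      calc (X.card : ℝ) * (3 / 4) ^ q ≤ Z0 * β * (3 / 4) ^ q :=
            mul_le_mul_of_nonneg_right h4 (by positivity)
        _ = Z0 * (β * (3 / 4) ^ q) := by ring
    calc ∑ x, pr σ B x ^ q ≤ Z0 + X.card * (3 / 4) ^ q := h1
      _ ≤ Z0 + Z0 * (β * (3 / 4) ^ q) := by linarith
      _ = _ := by ring
  have hlogZ : Real.log (∑ x, pr σ B x ^ q) ≤ Real.log Z0 + β * (3 / 4) ^ q := by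
    have hpos1 : 0 < ∑ x, pr σ B x ^ q := by
      obtain ⟨x0, hx0⟩ := hC
      refine Finset.sum_pos' (fun x _ => pow_nonneg (hf0 x) q) ⟨x0, Finset.mem_univ _, ?_⟩
      rw [hfone x0 hx0]; simp
    have hb : (0 : ℝ) ≤ β * (3 / 4) ^ q := by positivity
    calc Real.log (∑ x, pr σ B x ^ q) ≤ Real.log (Z0 * (1 + β * (3 / 4) ^ q)) :=
          Real.log_le_log hpos1 hZ1
      _ = Real.log Z0 + Real.log (1 + β * (3 / 4) ^ q) :=
          Real.log_mul hZpos.ne' (by linarith)
      _ ≤ _ := by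
          have := Real.log_le_sub_one_of_pos (show (0 : ℝ) < 1 + β * (3 / 4) ^ q by linarith)
          linarith
  -- the mean logarithm at a random point
  have hlgm : Ex σ (fun s : Fin m → G =>
      -∑ x, σ' x * Real.log (max (em B s x) (1 / 4))) ≤
      -(∑ x, σ' x * Real.log (g x)) + 2 / m := by
    have e1 : Ex σ (fun s : Fin m → G => -∑ x, σ' x * Real.log (max (em B s x) (1 / 4))) =
        ∑ x, σ' x * Ex σ (fun s : Fin m → G => -Real.log (max (em B s x) (1 / 4))) := by
      simp only [Ex, Finset.mul_sum, ← Finset.sum_neg_distrib]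
      rw [Finset.sum_comm]
      refine Finset.sum_congr rfl fun x _ => Finset.sum_congr rfl fun s _ => by ring
    rw [e1]
    have e2 : -(∑ x, σ' x * Real.log (g x)) + 2 / m =
        ∑ x, σ' x * (-Real.log (g x) + 2 / m) := by
      simp only [mul_add, Finset.sum_add_distrib, ← Finset.sum_mul, hσ'.2, one_mul, mul_neg,
        Finset.sum_neg_distrib]
    rw [e2]
    apply Finset.sum_le_sum
    intro x _
    rcases (hσ'.1 x).eq_or_lt with h0 | hpos
    · rw [← h0]; simp
    · have hx := hσ'U x hpos.ne'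
      have hgx : g x = pr σ B x := by simp only [hg, if_pos hx]
      rw [hgx]
      apply mul_le_mul_of_nonneg_left _ hpos.le
      exact lgm G m σ B x hσ hm (by linarith)
  -- the mean cost
  have hcost : ∑ z : Fin m → G, Pz σ τ z * (H (cm σ' (post σ τ z)) - H σ') ≤ c' / 2 := by
    have e0 : ∑ z : Fin m → G, Pz σ τ z * (H (cm σ' (post σ τ z)) - H σ') =
        ∑ z : Fin m → G, Pz σ τ z * H (cm σ' (post σ τ z)) - H σ' := by
      simp only [mul_sub, Finset.sum_sub_distrib]
      rw [← Finset.sum_mul, (b4 m σ τ hσ hτ).2, one_mul]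
    rw [e0]
    have a1 := s2a G m q σ τ σ' B X Q R hσ hτ hσ' hσ'X hQ hXR
    have a2 := s2b G m q σ B X C R β hσ hm hq hqm hC hfone hfX hX hR
    have a4 := s2d G q g hq hg0 hZpos
    have e1 : Ex σ (fun s : Fin m → G =>
        -(q : ℝ) * ∑ x, σ' x * Real.log (max (em B s x) (1 / 4)) +
        Real.log (∑ x, em B s x ^ q + (R.card : ℝ) * (1 / 4) ^ q)) =
        (q : ℝ) * Ex σ (fun s : Fin m → G =>
          -∑ x, σ' x * Real.log (max (em B s x) (1 / 4))) +
        Ex σ (fun s : Fin m → G =>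
          Real.log (∑ x, em B s x ^ q + (R.card : ℝ) * (1 / 4) ^ q)) := by
      rw [← Ex_mul, ← Ex_add]
      congr 1
      funext s
      ring
    rw [e1] at a1
    have e2 : H σ' = Real.log Z0 - q * ∑ x, σ' x * Real.log (g x) := a4
    rw [e2]
    have hqn : (0 : ℝ) ≤ q := Nat.cast_nonneg q
    have a3' := mul_le_mul_of_nonneg_left hlgm hqn
    have hq1 : (1 : ℝ) ≤ q := by exact_mod_cast hq
    -- numerics
    have n1 : 2 * (q : ℝ) ^ 2 / m ≤ c' / 8 := by
      rw [div_le_iff₀ hm']; nlinarith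
    have n2 : (q : ℝ) * (2 / m) ≤ c' / 8 := by
      have : (q : ℝ) * (2 / m) = 2 * q / m := by ring
      rw [this, div_le_iff₀ hm']
      nlinarith
    have n3 : β * (1 / 2) ^ q ≤ 1 / 256 := by
      refine le_trans ?_ hqβ
      apply mul_le_mul_of_nonneg_left _ hβ
      exact pow_le_pow_left₀ (by norm_num) (by norm_num) q
    have e3 : (q : ℝ) * (-(∑ x, σ' x * Real.log (g x)) + 2 / m) =
        -(q * ∑ x, σ' x * Real.log (g x)) + q * (2 / m) := by ring
    rw [e3] at a3'
    have e4 : 2 * β * (1 / 2) ^ q = 2 * (β * (1 / 2) ^ q) := by ring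
    rw [e4] at a2
    linarith
  have hpost := t1 G m σ τ c L hσ hτ hc
  have hHτ : H τ ≤ L := (b1 τ Q hτ hQ).trans hL
  have hc0 : 0 ≤ c := by
    have h1 := (b2 σ (fun t => τ (-t)) hσ (b7 σ τ hτ).1)
    have h2 : cm σ (fun t => τ (-t)) = cv σ τ := by
      have := (b7 σ (fun t => τ (-t)) (b7 σ τ hτ).1).2.2
      simp only [neg_neg] at this
      exact this.symm
    rw [h2] at h1
    linarith
  obtain ⟨z, hz, hz1, hz2⟩ := select (Pz σ τ : (Fin m → G) → ℝ)
    (fun z => L - H (post σ τ z)) (fun z => H (cm σ' (post σ τ z)) - H σ') (b4 m σ τ hσ hτ)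
    (a0 := (L - H τ) + m * c) (c' := c')
    (by have := mul_nonneg hm'.le hc0; linarith) (by linarith) hpost hcost
    (fun z hz => by
      have := b1 (post σ τ z) Q (b5 m σ τ z hσ hτ hz) (fun t ht => hQ t (b6 m σ τ z t ht))
      linarith)
    (fun z hz => by
      have := b2 σ' (post σ τ z) hσ' (b5 m σ τ z hσ hτ hz)
      linarith)
  exact ⟨σ', post σ τ z, hσ', b5 m σ τ z hσ hτ hz, hσ'U,
    fun t ht => hQ t (b6 m σ τ z t ht), hz1, hz2⟩

end Pool.Agent.H98.BG
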