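import Pool.Agent.H98.BG.Stmt

/-!
# The law of `T` given `m` samples
-/

set_option autoImplicit false
set_option linter.unusedSectionVars false

namespace Pool.Agent.H98.BG

open Finset
open scoped Pointwise

namespace T1L

variable {G : Type} [AddCommGroup G] [Fintype G] [DecidableEq G]

/-- total mass of a product -/
lemma sum_prod_one {m : ℕ} (σ : G → ℝ) (hσ : ∑ x, σ x = 1) :
    ∑ s : Fin m → G, ∏ i, σ (s i) = 1 := by
  rw [← Fintype.sum_pow, hσ, one_pow]

/-- marginals of a product -/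
lemma sum_prod_marg {m : ℕ} (σ ψ : G → ℝ) (hσ : ∑ x, σ x = 1) (i : Fin m) :
    ∑ s : Fin m → G, (∏ j, σ (s j)) * ψ (s i) = ∑ x, σ x * ψ x := by
  have h1 : ∀ s : Fin m → G, (∏ j, σ (s j)) * ψ (s i) =
      ∏ j, (fun (j : Fin m) (x : G) => if j = i then σ x * ψ x else σ x) j (s j) := by
    intro s
    have h2 : ∀ j : Fin m, (if j = i then σ (s j) * ψ (s j) else σ (s j)) =
        σ (s j) * (if j = i then ψ (s j) else 1) := by
      intro j
      split_ifs with h
      · rfl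
      · rw [mul_one]
    simp only [h2]
    rw [Finset.prod_mul_distrib, Finset.prod_ite_eq' Finset.univ i (fun j => ψ (s j))]
    simp
  have h3 : ∑ s : Fin m → G, (∏ j, σ (s j)) * ψ (s i) =
      ∏ j, ∑ x, (fun (j : Fin m) (x : G) => if j = i then σ x * ψ x else σ x) j x := by
    rw [Finset.prod_univ_sum]
    rw [Fintype.piFinset_univ]
    exact Finset.sum_congr rfl (fun s _ => h1 s)
  rw [h3]
  have h4 : ∀ j : Fin m, (∑ x, (fun (j : Fin m) (x : G) => if j = i then σ x * ψ x else σ x) j x) =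
      if j = i then ∑ x, σ x * ψ x else 1 := by
    intro j
    by_cases h : j = i
    · simp [h]
    · simp [h, hσ]
  simp only [h4]
  rw [Finset.prod_ite_eq' Finset.univ i (fun _ => ∑ x, σ x * ψ x)]
  simp

/-- translating all coordinates -/
lemma sum_translate {m : ℕ} (t : G) (F : (Fin m → G) → ℝ) :
    ∑ z : Fin m → G, F z = ∑ s : Fin m → G, F (fun i => s i + t) := by
  have := Equiv.sum_comp (Equiv.addRight (fun _ : Fin m => t)) F
  rw [← this]
  rfl

lemma wt_shift {m : ℕ} (σ τ : G → ℝ) (s : Fin m → G) (t : G) :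
    Wt σ τ (fun i => s i + t) t = τ t * ∏ i, σ (s i) := by
  unfold Wt
  simp

lemma wt_nonneg {m : ℕ} {σ τ : G → ℝ} (hσ : IsP σ) (hτ : IsP τ) (z : Fin m → G) (t : G) :
    0 ≤ Wt σ τ z t :=
  mul_nonneg (hτ.1 t) (Finset.prod_nonneg (fun i _ => hσ.1 _))

lemma pz_nonneg {m : ℕ} {σ τ : G → ℝ} (hσ : IsP σ) (hτ : IsP τ) (z : Fin m → G) :
    0 ≤ Pz σ τ z :=
  Finset.sum_nonneg (fun t _ => wt_nonneg hσ hτ z t)

/-- sums against the law of `z` -/
lemma sum_pz {m : ℕ} (σ τ : G → ℝ) (F : (Fin m → G) → ℝ) :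
    ∑ z : Fin m → G, Pz σ τ z * F z =
      ∑ t, τ t * ∑ s : Fin m → G, (∏ i, σ (s i)) * F (fun i => s i + t) := by
  have h1 : ∑ z : Fin m → G, Pz σ τ z * F z = ∑ z : Fin m → G, ∑ t, Wt σ τ z t * F z := by
    apply Finset.sum_congr rfl
    intro z _
    unfold Pz
    rw [Finset.sum_mul]
  rw [h1, Finset.sum_comm]
  apply Finset.sum_congr rfl
  intro t _
  rw [sum_translate t, Finset.mul_sum]
  apply Finset.sum_congr rfl
  intro s _
  rw [wt_shift]
  ring

lemma sum_pz_one {m : ℕ} {σ τ : G → ℝ} (hσ : IsP σ) (hτ : IsP τ) :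
    ∑ z : Fin m → G, Pz σ τ z = 1 := by
  have h := sum_pz (m := m) σ τ (fun _ => 1)
  simp only [mul_one] at h
  rw [h, sum_prod_one σ hσ.2]
  simp [hτ.2]

lemma sum_pz_marg {m : ℕ} {σ τ : G → ℝ} (hσ : IsP σ) (φ : G → ℝ) (i : Fin m) :
    ∑ z : Fin m → G, Pz σ τ z * φ (z i) = ∑ y, cv σ τ y * φ y := by
  have h := sum_pz (m := m) σ τ (fun z => φ (z i))
  rw [h]
  have h2 : ∀ t, ∑ s : Fin m → G, (∏ j, σ (s j)) * φ (s i + t) = ∑ x, σ x * φ (x + t) := by
    intro t
    exact sum_prod_marg σ (fun x => φ (x + t)) hσ.2 i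
  simp only [h2]
  have h3 : ∀ t, ∑ x, σ x * φ (x + t) = ∑ y, σ (y - t) * φ y := by
    intro t
    have := Equiv.sum_comp (Equiv.addRight t) (fun y => σ (y - t) * φ y)
    rw [← this]
    apply Finset.sum_congr rfl
    intro x _
    simp
  simp only [h3, Finset.mul_sum]
  rw [Finset.sum_comm]
  apply Finset.sum_congr rfl
  intro y _
  unfold cv
  rw [Finset.sum_mul]
  apply Finset.sum_congr rfl
  intro t _
  ring

/-- the entropy function of a product -/
lemma negMulLog_prod {m : ℕ} (f : Fin m → ℝ) :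
    Real.negMulLog (∏ i, f i) = -∑ i, (∏ j, f j) * Real.log (f i) := by
  unfold Real.negMulLog
  by_cases h : ∀ i, f i ≠ 0
  · rw [Real.log_prod (fun i _ => h i), Finset.mul_sum]
    simp only [neg_mul, Finset.sum_neg_distrib]
  · push Not at h
    obtain ⟨i, hi⟩ := h
    have h0 : ∏ j, f j = 0 := Finset.prod_eq_zero (Finset.mem_univ i) hi
    simp [h0]

/-- the joint entropy -/
lemma joint {m : ℕ} {σ τ : G → ℝ} (hσ : IsP σ) (hτ : IsP τ) :
    ∑ z : Fin m → G, ∑ t, Real.negMulLog (Wt σ τ z t) = H τ + m * H σ := by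
  rw [Finset.sum_comm]
  have h1 : ∀ t, ∑ z : Fin m → G, Real.negMulLog (Wt σ τ z t) =
      Real.negMulLog (τ t) + τ t * (m * H σ) := by
    intro t
    rw [sum_translate t]
    simp only [wt_shift, Real.negMulLog_mul]
    rw [Finset.sum_add_distrib, ← Finset.sum_mul, sum_prod_one σ hσ.2, one_mul,
      ← Finset.mul_sum]
    congr 2
    simp only [negMulLog_prod]
    rw [Finset.sum_neg_distrib, Finset.sum_comm]
    have h2 : ∀ i : Fin m, ∑ s : Fin m → G, (∏ j, σ (s j)) * Real.log (σ (s i)) =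
        ∑ x, σ x * Real.log (σ x) := fun i => sum_prod_marg σ (fun x => Real.log (σ x)) hσ.2 i
    simp only [h2, Finset.sum_const, Finset.card_univ, Fintype.card_fin, nsmul_eq_mul]
    unfold H Real.negMulLog
    simp only [neg_mul, Finset.sum_neg_distrib, mul_neg]
  simp only [h1]
  rw [Finset.sum_add_distrib, ← Finset.sum_mul, hτ.2, one_mul]
  rfl

/-- the chain rule -/
lemma chain {m : ℕ} {σ τ : G → ℝ} (hσ : IsP σ) (hτ : IsP τ) (z : Fin m → G) :
    ∑ t, Real.negMulLog (Wt σ τ z t) = Real.negMulLog (Pz σ τ z) +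
      Pz σ τ z * H (post σ τ z) := by
  by_cases h : Pz σ τ z = 0
  · have h0 : ∀ t, Wt σ τ z t = 0 := by
      intro t
      have := (Finset.sum_eq_zero_iff_of_nonneg (s := Finset.univ)
        (fun t _ => wt_nonneg hσ hτ z t)).1 h
      exact this t (Finset.mem_univ t)
    simp [h0, h]
  · have h1 : ∀ t, Wt σ τ z t = Pz σ τ z * post σ τ z t := by
      intro t
      unfold post
      field_simp
    have h2 : ∑ t, post σ τ z t = 1 := by
      unfold post
      rw [← Finset.sum_div]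
      exact div_self h
    have h3 : ∑ t, Real.negMulLog (Wt σ τ z t) =
        ∑ t, (post σ τ z t * Real.negMulLog (Pz σ τ z) +
          Pz σ τ z * Real.negMulLog (post σ τ z t)) := by
      apply Finset.sum_congr rfl
      intro t _
      rw [h1 t, Real.negMulLog_mul]
    rw [h3, Finset.sum_add_distrib, ← Finset.sum_mul, h2, one_mul, ← Finset.mul_sum]
    rfl

end T1L

open T1L in
theorem t1 (gib : GIB) : T1 := by
  intro G _ _ _ m σ τ c L hσ hτ hc
  have hcv0 : ∀ y, 0 ≤ cv σ τ y := fun y =>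
    Finset.sum_nonneg (fun t _ => mul_nonneg (hσ.1 _) (hτ.1 _))
  have hcv1 : ∑ y, cv σ τ y = 1 := by
    unfold cv
    rw [Finset.sum_comm]
    have : ∀ t, ∑ y, σ (y - t) * τ t = τ t := by
      intro t
      rw [← Finset.sum_mul]
      have h := Equiv.sum_comp (Equiv.subRight t) σ
      have h' : ∑ y, σ (y - t) = ∑ y, σ y := by
        rw [← h]
        rfl
      rw [h', hσ.2, one_mul]
    simp only [this]
    exact hτ.2
  -- positivity of the marginals
  have hpos : ∀ z : Fin m → G, Pz σ τ z ≠ 0 → ∀ i, 0 < cv σ τ (z i) := by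
    intro z hz i
    obtain ⟨t, -, ht⟩ := Finset.exists_ne_zero_of_sum_ne_zero hz
    unfold Wt at ht
    have ht1 : τ t ≠ 0 := left_ne_zero_of_mul ht
    have ht2 : ∏ i, σ (z i - t) ≠ 0 := right_ne_zero_of_mul ht
    have ht3 : σ (z i - t) ≠ 0 := by
      intro h0
      exact ht2 (Finset.prod_eq_zero (Finset.mem_univ i) h0)
    have h4 : 0 < σ (z i - t) * τ t :=
      mul_pos (lt_of_le_of_ne (hσ.1 _) (Ne.symm ht3)) (lt_of_le_of_ne (hτ.1 _) (Ne.symm ht1))
    have h5 : σ (z i - t) * τ t ≤ cv σ τ (z i) := by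
      unfold cv
      exact Finset.single_le_sum (f := fun t => σ (z i - t) * τ t)
        (fun t _ => mul_nonneg (hσ.1 _) (hτ.1 _)) (Finset.mem_univ t)
    linarith
  have hPP : IsP (Pz σ τ : (Fin m → G) → ℝ) :=
    ⟨fun z => pz_nonneg hσ hτ z, sum_pz_one hσ hτ⟩
  have hg := gib (Fin m → G) (Pz σ τ) (fun z => ∏ i, cv σ τ (z i)) hPP
    (fun z => Finset.prod_nonneg (fun i _ => hcv0 _))
    (le_of_eq (sum_prod_one (cv σ τ) hcv1))
    (fun z hz => Finset.prod_pos (fun i _ => hpos z hz i))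
  have hg2 : ∑ z : Fin m → G, Pz σ τ z * Real.log (∏ i, cv σ τ (z i)) = -(m * H (cv σ τ)) := by
    have h1 : ∀ z : Fin m → G, Pz σ τ z * Real.log (∏ i, cv σ τ (z i)) =
        ∑ i, Pz σ τ z * Real.log (cv σ τ (z i)) := by
      intro z
      by_cases hz : Pz σ τ z = 0
      · simp [hz]
      · rw [Real.log_prod (fun i _ => ne_of_gt (hpos z hz i)), Finset.mul_sum]
    simp only [h1]
    rw [Finset.sum_comm]
    have h2 : ∀ i : Fin m, ∑ z : Fin m → G, Pz σ τ z * Real.log (cv σ τ (z i)) =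
        ∑ y, cv σ τ y * Real.log (cv σ τ y) :=
      fun i => sum_pz_marg hσ (fun y => Real.log (cv σ τ y)) i
    simp only [h2, Finset.sum_const, Finset.card_univ, Fintype.card_fin, nsmul_eq_mul]
    unfold H Real.negMulLog
    simp only [neg_mul, Finset.sum_neg_distrib, mul_neg, neg_neg]
  rw [hg2, neg_neg] at hg
  have hj := joint (m := m) hσ hτ
  have hj2 : ∑ z : Fin m → G, ∑ t, Real.negMulLog (Wt σ τ z t) =
      H (Pz σ τ : (Fin m → G) → ℝ) + ∑ z : Fin m → G, Pz σ τ z * H (post σ τ z) := by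
    unfold H
    rw [← Finset.sum_add_distrib]
    apply Finset.sum_congr rfl
    intro z _
    exact chain hσ hτ z
  have hfin : ∑ z : Fin m → G, Pz σ τ z * (L - H (post σ τ z)) =
      L - ∑ z : Fin m → G, Pz σ τ z * H (post σ τ z) := by
    simp only [mul_sub]
    rw [Finset.sum_sub_distrib, ← Finset.sum_mul, sum_pz_one hσ hτ, one_mul]
  rw [hfin]
  have hm : (m : ℝ) * (H (cv σ τ) - H σ) ≤ m * c :=
    mul_le_mul_of_nonneg_left hc (Nat.cast_nonneg m)
  linarith [hm, hg, hj, hj2]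

end Pool.Agent.H98.BG
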