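import Pool.Agent.H98.BG.Fin3
import Pool.Agent.H98.BG.GON3
import Pool.Agent.H98.BG.GO03
import Pool.Agent.H98.BG.Step3
import Pool.Agent.H98.BG.GIB
import Pool.Agent.H98.BG.T1
import Pool.Agent.H98.BG.MOM
import Pool.Agent.H98.BG.LGM
import Pool.Agent.H98.BG.S2A
import Pool.Agent.H98.BG.S2B
import Pool.Agent.H98.BG.S2D
import Pool.Agent.H98.BG.FIN1
import Pool.Agent.H98.BG.FIN2
import Pool.Agent.H98.BG.CH1
import Pool.Agent.H98.BG.CH2
import Pool.Agent.H98.BG.CH3
import Pool.Agent.H98.BG.ZNC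
import Pool.Graph.R_seed8.H217R3.AK.Bsg

/-!
# The final result
-/

set_option autoImplicit false

namespace Pool.Agent.H98.BG

open Finset
open scoped Pointwise

/-- sets of small doubling in finite abelian groups -/
theorem fgMain : FG3 := by
  have gib' := gib
  have bas' := bas gib'
  have mom' := mom
  have t1' := t1 gib'
  have st := step3 t1' (s2a gib') (s2b mom') lgm s2d bas'
  exact fg3 (gon3 (go03 bas') (gos3 bas' st)) fin1 fin2 (ch2 gib' ch1) ch3

namespace FinalL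

lemma pow_sub_one_ge (w : ℂ) (hw : ‖w‖ = 1) (R : ℕ) (hR : 1 ≤ R) (h : ‖w - 1‖ ≤ 1 / R) :
    ‖w - 1‖ ≤ 2 / R * ‖w ^ R - 1‖ := by
  have hR0 : (0 : ℝ) < R := by exact_mod_cast hR
  have hk : ∀ k : ℕ, ‖w ^ k - 1‖ ≤ k * ‖w - 1‖ := by
    intro k
    induction k with
    | zero => simp
    | succ k ih =>
      have e : w ^ (k + 1) - 1 = w ^ k * (w - 1) + (w ^ k - 1) := by ring
      rw [e]
      refine (norm_add_le _ _).trans ?_
      rw [norm_mul, norm_pow, hw, one_pow, one_mul]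
      push_cast
      linarith
  have hgeom : w ^ R - 1 = (∑ k ∈ Finset.range R, w ^ k) * (w - 1) := (geom_sum_mul w R).symm
  have hlow : (R : ℝ) / 2 ≤ ‖∑ k ∈ Finset.range R, w ^ k‖ := by
    have e : (∑ k ∈ Finset.range R, w ^ k) = (R : ℂ) + ∑ k ∈ Finset.range R, (w ^ k - 1) := by
      rw [Finset.sum_sub_distrib]; simp
    have h1 : ‖∑ k ∈ Finset.range R, (w ^ k - 1)‖ ≤ (R : ℝ) / 2 := by
      calc ‖∑ k ∈ Finset.range R, (w ^ k - 1)‖ ≤ ∑ k ∈ Finset.range R, ‖w ^ k - 1‖ :=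
            norm_sum_le _ _
        _ ≤ ∑ k ∈ Finset.range R, (k : ℝ) * (1 / R) :=
            Finset.sum_le_sum fun k _ => (hk k).trans
              (mul_le_mul_of_nonneg_left h (Nat.cast_nonneg k))
        _ = (∑ k ∈ Finset.range R, (k : ℝ)) * (1 / R) := by rw [Finset.sum_mul]
        _ ≤ ((R : ℝ) ^ 2 / 2) * (1 / R) := by
            apply mul_le_mul_of_nonneg_right _ (by positivity)
            have h2 := Finset.sum_range_id_mul_two R
            have h3 : ((∑ k ∈ Finset.range R, k : ℕ) : ℝ) * 2 = (R * (R - 1) : ℕ) := by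
              exact_mod_cast congrArg (Nat.cast : ℕ → ℝ) h2
            have h4 : ((R * (R - 1) : ℕ) : ℝ) ≤ (R : ℝ) ^ 2 := by
              have : R * (R - 1) ≤ R ^ 2 := by
                rw [sq]; exact Nat.mul_le_mul_left _ (Nat.sub_le _ _)
              exact_mod_cast this
            rw [Nat.cast_sum] at h3
            linarith
        _ = (R : ℝ) / 2 := by field_simp
    have h5 : ‖(R : ℂ)‖ ≤ ‖∑ k ∈ Finset.range R, w ^ k‖ +
        ‖∑ k ∈ Finset.range R, (w ^ k - 1)‖ := by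
      have : (R : ℂ) = (∑ k ∈ Finset.range R, w ^ k) - ∑ k ∈ Finset.range R, (w ^ k - 1) := by
        rw [e]; ring
      calc ‖(R : ℂ)‖ = ‖(∑ k ∈ Finset.range R, w ^ k) - ∑ k ∈ Finset.range R, (w ^ k - 1)‖ := by
            rw [← this]
        _ ≤ _ := norm_sub_le _ _
    rw [Complex.norm_natCast] at h5
    linarith
  rw [hgeom, norm_mul]
  have h6 : 0 ≤ ‖w - 1‖ := norm_nonneg _
  have h7 : (R : ℝ) / 2 * ‖w - 1‖ ≤ ‖∑ k ∈ Finset.range R, w ^ k‖ * ‖w - 1‖ :=
    mul_le_mul_of_nonneg_right hlow h6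
  calc ‖w - 1‖ = 2 / R * ((R : ℝ) / 2 * ‖w - 1‖) := by field_simp
    _ ≤ _ := mul_le_mul_of_nonneg_left h7 (by positivity)

lemma radc (z : ℂ) (hz : ‖z‖ = 1) (R : ℕ) (hR : 1 ≤ R)
    (h : ∀ j ≤ 2, ‖z ^ (R ^ j) - 1‖ ≤ 1 / R) : ‖z - 1‖ ≤ 4 / (R : ℝ) ^ 3 := by
  have hR0 : (0 : ℝ) < R := by exact_mod_cast hR
  have h0 := h 0 (by norm_num)
  have h1 := h 1 (by norm_num)
  have h2 := h 2 (by norm_num)
  simp only [pow_zero, pow_one] at h0 h1
  have e1 := pow_sub_one_ge z hz R hR h0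
  have e2 := pow_sub_one_ge (z ^ R) (by rw [norm_pow, hz, one_pow]) R hR h1
  rw [← pow_mul, ← sq] at e2
  have h8 : (0 : ℝ) ≤ 2 / R := by positivity
  calc ‖z - 1‖ ≤ 2 / R * ‖z ^ R - 1‖ := e1
    _ ≤ 2 / R * (2 / R * ‖z ^ R ^ 2 - 1‖) := mul_le_mul_of_nonneg_left e2 h8
    _ ≤ 2 / R * (2 / R * (1 / R)) :=
        mul_le_mul_of_nonneg_left (mul_le_mul_of_nonneg_left h2 h8) h8
    _ = 4 / (R : ℝ) ^ 3 := by field_simp; norm_num

end FinalL

open FinalL

/-- sets of large additive energy in finite abelian groups -/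
theorem fgEnergy (n : ℕ) (hn : 1 ≤ n) : ∃ C c : ℝ, 0 < C ∧ 0 < c ∧
    ∀ (G : Type) [AddCommGroup G] [Fintype G] [DecidableEq G] (A : Finset G) (K : ℝ),
      A.Nonempty → 1 ≤ K → (A.card : ℝ) ^ 3 ≤ K * (A.addEnergy A : ℕ) →
      ∃ Γ : Finset (AddChar G ℂ), (Γ.card : ℝ) ≤
          C * (Real.log (2 * Fintype.card G / A.card) +
            Real.log (2 * K) ^ ((2 : ℝ) + 1 / n)) ∧
        ∀ y : G, (∀ χ ∈ Γ, ‖χ y - 1‖ ≤ c / Real.log (2 * Fintype.card G / A.card)) →
          y ∈ (n + 1) • A - (n + 1) • A := by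
  obtain ⟨C0, hC0, h0⟩ := fgMain n hn
  have hn1 : (1 : ℝ) ≤ n := by exact_mod_cast hn
  set e : ℝ := (2 : ℝ) + 1 / n with he
  have he2 : 2 ≤ e := by
    have : (0 : ℝ) ≤ 1 / n := by positivity
    linarith
  have he3 : e ≤ 3 := by
    have : (1 : ℝ) / n ≤ 1 := by rw [div_le_one (by linarith)]; exact hn1
    linarith
  set C1 : ℝ := 13824 * C0 with hC1
  set C2 : ℝ := 200 * (1 + C1) with hC2
  refine ⟨3 * C1, 1 / (C2 + 2), by positivity, by positivity, ?_⟩
  intro G _ _ _ A K hA hK hE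
  have hcA : (0 : ℝ) < A.card := by exact_mod_cast hA.card_pos
  have hcG : (0 : ℝ) < Fintype.card G := by
    have : 0 < Fintype.card G := Fintype.card_pos_iff.2 ⟨hA.choose⟩
    exact_mod_cast this
  have hAG : (A.card : ℝ) ≤ Fintype.card G := by exact_mod_cast Finset.card_le_univ A
  -- the energy is at least `|A|^4/|G|`
  have hE2 : (A.card : ℝ) ^ 3 ≤ (Fintype.card G / A.card) * (A.addEnergy A : ℕ) := by
    have h1 : A.card ^ 2 * A.card ^ 2 ≤ (A + A).card * A.addEnergy A :=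
      Finset.le_card_add_mul_addEnergy A A
    have h2 : (A.card : ℝ) ^ 2 * (A.card : ℝ) ^ 2 ≤ (A + A).card * (A.addEnergy A : ℕ) := by
      exact_mod_cast h1
    have h3 : ((A + A).card : ℝ) ≤ Fintype.card G := by exact_mod_cast Finset.card_le_univ _
    have h4 : (0 : ℝ) ≤ (A.addEnergy A : ℕ) := Nat.cast_nonneg _
    rw [div_mul_eq_mul_div, le_div_iff₀ hcA]
    nlinarith [mul_le_mul_of_nonneg_right h3 h4]
  set K1 : ℝ := min K (Fintype.card G / A.card) with hK1
  have hGA1 : 1 ≤ (Fintype.card G : ℝ) / A.card := by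
    rw [le_div_iff₀ hcA, one_mul]; exact hAG
  have hK11 : 1 ≤ K1 := le_min hK hGA1
  have hE3 : (A.card : ℝ) ^ 3 ≤ K1 * (A.addEnergy A : ℕ) := by
    rcases min_choice K ((Fintype.card G : ℝ) / A.card) with h | h
    · rw [hK1, h]; exact hE
    · rw [hK1, h]; exact hE2
  obtain ⟨B, hBA, hB, hAB, hBB⟩ := Pool.Agent.H217R3.AK.bsg A hA K1 (by linarith) hE3
  have hcB : (0 : ℝ) < B.card := by exact_mod_cast hB.card_pos
  set K2 : ℝ := 2 ^ 22 * K1 ^ 10 with hK2
  have hK21 : 1 ≤ K2 := by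
    have : 1 ≤ K1 ^ 10 := one_le_pow₀ hK11
    rw [hK2]; nlinarith
  obtain ⟨Γ0, hΓc, hΓ⟩ := h0 G B K2 hB hK21 hBB
  set ℓ : ℝ := Real.log (2 * Fintype.card G / A.card) with hℓ
  have hl2 : (0.69 : ℝ) ≤ Real.log 2 := by linarith [Real.log_two_gt_d9]
  have hl2' : Real.log 2 ≤ 0.7 := by linarith [Real.log_two_lt_d9]
  have hℓe : ℓ = Real.log 2 + Real.log (Fintype.card G / A.card) := by
    rw [hℓ, mul_div_assoc, Real.log_mul (by norm_num) (by positivity)]
  have hlGA : 0 ≤ Real.log ((Fintype.card G : ℝ) / A.card) := Real.log_nonneg hGA1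
  have hℓ0 : 0.69 ≤ ℓ := by linarith
  have hlK1 : 0 ≤ Real.log K1 := Real.log_nonneg hK11
  have hlK1' : Real.log K1 ≤ Real.log (Fintype.card G / A.card) :=
    Real.log_le_log (by linarith) (min_le_right _ _)
  have hlKK : Real.log K1 ≤ Real.log K := Real.log_le_log (by linarith) (min_le_left _ _)
  -- the density of `B`
  have hd1 : Real.log ((Fintype.card G : ℝ) / B.card) ≤ 6 * ℓ := by
    have h1 : (Fintype.card G : ℝ) / B.card ≤ 8 * K1 * (Fintype.card G / A.card) := by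
      rw [div_le_iff₀ hcB]
      have : 8 * K1 * ((Fintype.card G : ℝ) / A.card) * B.card =
          Fintype.card G * ((8 * K1 * B.card) / A.card) := by ring
      rw [this]
      have h2 : 1 ≤ (8 * K1 * B.card) / A.card := by
        rw [le_div_iff₀ hcA, one_mul]; exact hAB
      nlinarith
    have h3 : Real.log ((Fintype.card G : ℝ) / B.card) ≤
        Real.log (8 * K1 * (Fintype.card G / A.card)) :=
      Real.log_le_log (by positivity) h1
    have h4 : Real.log (8 * K1 * ((Fintype.card G : ℝ) / A.card)) =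
        Real.log 8 + Real.log K1 + Real.log (Fintype.card G / A.card) := by
      rw [Real.log_mul (by positivity) (by positivity),
        Real.log_mul (by norm_num) (by positivity)]
    have h5 : Real.log 8 = 3 * Real.log 2 := by
      rw [show (8 : ℝ) = 2 ^ 3 by norm_num, Real.log_pow]; norm_num
    rw [h4, h5] at h3
    linarith
  have hlK2 : 1 + Real.log K2 ≤ 24 * Real.log (2 * K1) := by
    rw [hK2, Real.log_mul (by norm_num) (by positivity), Real.log_pow, Real.log_pow,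
      Real.log_mul (by norm_num) (by positivity)]
    push_cast
    linarith
  have hL1 : 0.69 ≤ Real.log (2 * K1) := by
    rw [Real.log_mul (by norm_num) (by positivity)]; linarith
  have hlK20 : 0 ≤ Real.log K2 := Real.log_nonneg hK21
  have hpw : (1 + Real.log K2) ^ e ≤ 13824 * Real.log (2 * K1) ^ e := by
    calc (1 + Real.log K2) ^ e ≤ (24 * Real.log (2 * K1)) ^ e :=
          Real.rpow_le_rpow (by linarith) hlK2 (by linarith)
      _ = 24 ^ e * Real.log (2 * K1) ^ e := Real.mul_rpow (by norm_num) (by linarith)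
      _ ≤ 24 ^ (3 : ℝ) * Real.log (2 * K1) ^ e := by
          apply mul_le_mul_of_nonneg_right
          · exact Real.rpow_le_rpow_of_exponent_le (by norm_num) he3
          · exact Real.rpow_nonneg (by linarith) _
      _ = _ := by norm_num
  have hΓc1 : (Γ0.card : ℝ) ≤ C1 * (ℓ + Real.log (2 * K1) ^ e) := by
    refine hΓc.trans ?_
    rw [hC1, mul_comm 13824 C0, mul_assoc]
    apply mul_le_mul_of_nonneg_left _ hC0.le
    linarith
  -- absolute bound by `ℓ^3`
  have hΓc2 : (Γ0.card : ℝ) ≤ 16 * C1 * ℓ ^ 3 := by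
    have h1 : Real.log (2 * K1) ≤ 2 * ℓ := by
      rw [Real.log_mul (by norm_num) (by positivity)]; linarith
    have h2 : Real.log (2 * K1) ^ e ≤ (2 * ℓ) ^ (3 : ℝ) := by
      calc Real.log (2 * K1) ^ e ≤ (2 * ℓ) ^ e :=
            Real.rpow_le_rpow (by linarith) h1 (by linarith)
        _ ≤ (2 * ℓ) ^ (3 : ℝ) := Real.rpow_le_rpow_of_exponent_le (by linarith) he3
    have h3 : (2 * ℓ) ^ (3 : ℝ) = 8 * ℓ ^ 3 := by
      rw [show (3 : ℝ) = ((3 : ℕ) : ℝ) by norm_num, Real.rpow_natCast]; ring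
    rw [h3] at h2
    have h4 : ℓ ≤ 8 * ℓ ^ 3 := by nlinarith [sq_nonneg (ℓ - 0.69), sq_nonneg ℓ]
    have h5 : ℓ + Real.log (2 * K1) ^ e ≤ 16 * ℓ ^ 3 := by linarith
    calc (Γ0.card : ℝ) ≤ C1 * (ℓ + Real.log (2 * K1) ^ e) := hΓc1
      _ ≤ C1 * (16 * ℓ ^ 3) := mul_le_mul_of_nonneg_left h5 (by positivity)
      _ = _ := by ring
  set R : ℕ := ⌈C2 * ℓ⌉₊ with hR
  have hC20 : 200 ≤ C2 := by rw [hC2]; nlinarith [show 0 < C1 by positivity]
  have hR1 : C2 * ℓ ≤ R := Nat.le_ceil _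
  have hR2 : (R : ℝ) ≤ C2 * ℓ + 1 := (Nat.ceil_lt_add_one (by positivity)).le
  have hR3 : (R : ℝ) ≤ (C2 + 2) * ℓ := by nlinarith
  have hRpos : (0 : ℝ) < R := by nlinarith
  have hR4 : 1 ≤ R := by
    have : 0 < R := by exact_mod_cast hRpos
    omega
  have hR5 : 16 * (Γ0.card : ℝ) ≤ (R : ℝ) ^ 3 := by
    have h1 : (C2 * ℓ) ^ 3 ≤ (R : ℝ) ^ 3 := pow_le_pow_left₀ (by positivity) hR1 3
    have h2 : 256 * C1 ≤ C2 ^ 3 := by
      have : 0 < C1 := by positivity
      have h3 : C2 ≤ C2 ^ 3 := by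
        have : 1 ≤ C2 ^ 2 := by nlinarith
        nlinarith
      have h4 : C2 ^ 3 = C2 * (C2 * C2) := by ring
      nlinarith
    calc 16 * (Γ0.card : ℝ) ≤ 256 * C1 * ℓ ^ 3 := by linarith
      _ ≤ C2 ^ 3 * ℓ ^ 3 := mul_le_mul_of_nonneg_right h2 (by positivity)
      _ = (C2 * ℓ) ^ 3 := by ring
      _ ≤ _ := h1
  classical
  refine ⟨(Γ0 ×ˢ Finset.range 3).image fun p => p.1 ^ (R ^ p.2), ?_, ?_⟩
  · have h1 : (((Γ0 ×ˢ Finset.range 3).image fun p => p.1 ^ (R ^ p.2)).card : ℝ) ≤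
        Γ0.card * 3 := by
      have := Finset.card_image_le (s := Γ0 ×ˢ Finset.range 3)
        (f := fun p : AddChar G ℂ × ℕ => p.1 ^ (R ^ p.2))
      rw [Finset.card_product, Finset.card_range] at this
      exact_mod_cast this
    refine h1.trans ?_
    have h2 : Real.log (2 * K1) ^ e ≤ Real.log (2 * K) ^ e := by
      apply Real.rpow_le_rpow (by linarith) _ (by linarith)
      exact Real.log_le_log (by positivity) (by
        have := min_le_left K ((Fintype.card G : ℝ) / A.card)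
        rw [← hK1] at this
        linarith)
    have h3 : C1 * (ℓ + Real.log (2 * K1) ^ e) ≤ C1 * (ℓ + Real.log (2 * K) ^ e) :=
      mul_le_mul_of_nonneg_left (by linarith) (by positivity)
    linarith
  · intro y hy
    have hyR : ∀ χ ∈ Γ0, ‖χ y - 1‖ ≤ 4 / (R : ℝ) ^ 3 := by
      intro χ hχ
      refine radc (χ y) (AddChar.norm_apply χ y) R hR4 ?_
      intro j hj
      have h1 := hy (χ ^ (R ^ j)) (Finset.mem_image.2 ⟨(χ, j),
        Finset.mem_product.2 ⟨hχ, Finset.mem_range.2 (by simpa using Nat.lt_succ_of_le hj)⟩, rfl⟩)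
      rw [AddChar.pow_apply] at h1
      refine h1.trans ?_
      rw [div_div, div_le_div_iff_of_pos_left one_pos (by positivity) hRpos]
      exact hR3
    have hmem := hΓ y (fun χ hχ => by
      have h1 := hyR χ hχ
      have h2 : (0 : ℝ) ≤ 4 * Γ0.card := by positivity
      calc ‖χ y - 1‖ * (4 * (Γ0.card : ℝ)) ≤ 4 / (R : ℝ) ^ 3 * (4 * Γ0.card) :=
            mul_le_mul_of_nonneg_right h1 h2
        _ = 16 * Γ0.card / (R : ℝ) ^ 3 := by ring
        _ ≤ 1 := by rw [div_le_one (by positivity)]; exact hR5)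
    exact Finset.sub_subset_sub (Finset.nsmul_subset_nsmul_left hBA)
      (Finset.nsmul_subset_nsmul_left hBA) hmem

end Pool.Agent.H98.BG
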