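import Pool.Agent.H98.BG.Defs

/-!
# Statements
-/

set_option autoImplicit false

namespace Pool.Agent.H98.BG

open Finset
open scoped Pointwise

/-- Gibbs' inequality -/
def GIB : Prop := ∀ (α : Type) [Fintype α] (p r : α → ℝ), IsP p → (∀ x, 0 ≤ r x) →
  ∑ x, r x ≤ 1 → (∀ x, p x ≠ 0 → 0 < r x) → H p ≤ -∑ x, p x * Real.log (r x)

/-- the law of `T` given `m` samples -/
def T1 : Prop := ∀ (G : Type) [AddCommGroup G] [Fintype G] [DecidableEq G] (m : ℕ) (σ τ : G → ℝ)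
  (c L : ℝ), IsP σ → IsP τ → H (cv σ τ) - H σ ≤ c →
  ∑ z : Fin m → G, Pz σ τ z * (L - H (post σ τ z)) ≤ (L - H τ) + m * c

/-- moments of the empirical frequency -/
def MOM : Prop := ∀ (G : Type) [AddCommGroup G] [Fintype G] [DecidableEq G] (m q : ℕ) (σ : G → ℝ)
  (B : Finset G) (x : G) (δ : ℝ), IsP σ → pr σ B x ≤ δ → 1 / 2 ≤ δ → δ ≤ 1 → 0 < m → 2 * q ≤ m →
  Ex σ (fun s : Fin m → G => em B s x ^ q) ≤ δ ^ q * Real.exp (2 * (q : ℝ) ^ 2 / m)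

/-- the mean of the logarithm of the empirical frequency -/
def LGM : Prop := ∀ (G : Type) [AddCommGroup G] [Fintype G] [DecidableEq G] (m : ℕ) (σ : G → ℝ)
  (B : Finset G) (x : G), IsP σ → 0 < m → 1 / 2 ≤ pr σ B x →
  Ex σ (fun s : Fin m → G => -Real.log (max (em B s x) (1 / 4))) ≤
    -Real.log (pr σ B x) + 2 / m

/-- the cost of the new pair, first form -/
def S2A : Prop := ∀ (G : Type) [AddCommGroup G] [Fintype G] [DecidableEq G] (m q : ℕ)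
  (σ τ σ' : G → ℝ) (B X Q R : Finset G), IsP σ → IsP τ → IsP σ' →
  (∀ x, σ' x ≠ 0 → x ∈ X) → (∀ t, τ t ≠ 0 → t ∈ Q) → (∀ x ∈ X, ∀ t ∈ Q, x - t ∈ R) →
  ∑ z : Fin m → G, Pz σ τ z * H (cm σ' (post σ τ z)) ≤
    Ex σ (fun s : Fin m → G => -(q : ℝ) * ∑ x, σ' x * Real.log (max (em B s x) (1 / 4)) +
      Real.log (∑ x, em B s x ^ q + (R.card : ℝ) * (1 / 4) ^ q))

/-- the mean of the logarithm of the normalising factor -/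
def S2B : Prop := ∀ (G : Type) [AddCommGroup G] [Fintype G] [DecidableEq G] (m q : ℕ)
  (σ : G → ℝ) (B X C R : Finset G) (β : ℝ), IsP σ → 0 < m → 1 ≤ q → 2 * q ≤ m → C.Nonempty →
  (∀ x ∈ C, pr σ B x = 1) → (∀ x, pr σ B x ≠ 0 → x ∈ X) → (X.card : ℝ) ≤ β * C.card →
  (R.card : ℝ) ≤ β * C.card →
  Ex σ (fun s : Fin m → G => Real.log (∑ x, em B s x ^ q + (R.card : ℝ) * (1 / 4) ^ q)) ≤
    Real.log (∑ x, pr σ B x ^ q) + 2 * (q : ℝ) ^ 2 / m + 2 * β * (1 / 2) ^ q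

/-- the mean of the logarithm of the empirical frequency at a random point -/
def S2C : Prop := ∀ (G : Type) [AddCommGroup G] [Fintype G] [DecidableEq G] (m q : ℕ)
  (σ : G → ℝ) (B X C : Finset G) (β : ℝ), IsP σ → 0 < m → 1 ≤ q → C.Nonempty →
  (∀ x ∈ C, pr σ B x = 1) → (∀ x, pr σ B x ≠ 0 → x ∈ X) → (X.card : ℝ) ≤ β * C.card →
  Ex σ (fun s : Fin m → G =>
      -∑ x, pr σ B x ^ q / (∑ x, pr σ B x ^ q) * Real.log (max (em B s x) (1 / 4))) ≤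
    -(∑ x, pr σ B x ^ q / (∑ x, pr σ B x ^ q) * Real.log (pr σ B x)) + 2 / m + β * (1 / 2) ^ q

/-- the entropy of a power -/
def S2D : Prop := ∀ (G : Type) [AddCommGroup G] [Fintype G] [DecidableEq G] (q : ℕ)
  (f : G → ℝ), 1 ≤ q → (∀ x, 0 ≤ f x) → 0 < ∑ x, f x ^ q →
  H (fun x => f x ^ q / ∑ x, f x ^ q) =
    Real.log (∑ x, f x ^ q) - q * ∑ x, f x ^ q / (∑ x, f x ^ q) * Real.log (f x)

/-- elementary properties -/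
def BAS : Prop := ∀ (G : Type) [AddCommGroup G] [Fintype G] [DecidableEq G],
  -- the entropy of a variable with values in `Q`
  (∀ (τ : G → ℝ) (Q : Finset G), IsP τ → (∀ t, τ t ≠ 0 → t ∈ Q) → H τ ≤ Real.log Q.card) ∧
  -- the entropy of a sum
  (∀ (σ τ : G → ℝ), IsP σ → IsP τ → H σ ≤ H (cm σ τ)) ∧
  -- the laws are probability weights
  (∀ (σ τ : G → ℝ), IsP σ → IsP τ → IsP (cm σ τ) ∧ IsP (cv σ τ)) ∧
  (∀ (m : ℕ) (σ τ : G → ℝ), IsP σ → IsP τ → IsP (Pz σ τ : (Fin m → G) → ℝ)) ∧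
  (∀ (m : ℕ) (σ τ : G → ℝ) (z : Fin m → G), IsP σ → IsP τ → 0 < Pz σ τ z → IsP (post σ τ z)) ∧
  (∀ (m : ℕ) (σ τ : G → ℝ) (z : Fin m → G) (t : G), post σ τ z t ≠ 0 → τ t ≠ 0) ∧
  -- reflection
  (∀ (σ τ : G → ℝ), IsP τ → IsP (fun t => τ (-t)) ∧ H (fun t => τ (-t)) = H τ ∧
    cv σ (fun t => τ (-t)) = cm σ τ)

/-- one step -/
def STEP : Prop := ∀ (G : Type) [AddCommGroup G] [Fintype G] [DecidableEq G] (σ τ : G → ℝ)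
  (P Q C B X R : Finset G) (q m : ℕ) (β c c' L : ℝ), IsP σ → IsP τ → (∀ x, σ x ≠ 0 → x ∈ P) →
  (∀ t, τ t ≠ 0 → t ∈ Q) → C.Nonempty → (∀ a ∈ C, ∀ p ∈ P, a + p ∈ B) →
  (∀ b ∈ B, ∀ p ∈ P, b - p ∈ X) → (∀ x ∈ X, ∀ t ∈ Q, x - t ∈ R) → (X.card : ℝ) ≤ β * C.card →
  (R.card : ℝ) ≤ β * C.card → Real.log Q.card ≤ L → H (cv σ τ) - H σ ≤ c → 0 < m → 1 ≤ q →
  2 * q ≤ m → 16 * (q : ℝ) ^ 2 ≤ c' * m → ((q : ℝ) + 2) * β ≤ 2 ^ q / 64 → 1 / 16 ≤ c' →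
  ∃ σ' τ' : G → ℝ, IsP σ' ∧ IsP τ' ∧ (∀ x, σ' x ≠ 0 → x ∈ X) ∧ (∀ t, τ' t ≠ 0 → t ∈ Q) ∧
    L - H τ' ≤ 2 * ((L - H τ) + m * c) + 1 ∧ H (cm σ' τ') - H σ' ≤ c'

/-- translates of `√σ` -/
def FIN1 : Prop := ∀ (G : Type) [AddCommGroup G] [Fintype G] [DecidableEq G] (σ τ : G → ℝ)
  (c : ℝ), IsP σ → IsP τ → H (cv σ τ) - H σ ≤ c →
  ∑ t, ∑ t', τ t * τ t' * (1 - ∑ x, √(σ x) * √(σ (x + (t - t')))) ≤ c

/-- the Bohr set -/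
def FIN2 : Prop := ∀ (G : Type) [AddCommGroup G] [Fintype G] [DecidableEq G] (σ τ : G → ℝ),
  IsP σ → IsP τ →
  ∑ t, ∑ t', τ t * τ t' * (1 - ∑ x, √(σ x) * √(σ (x + (t - t')))) ≤ 1 / 16 →
  ∀ y : G, (∀ χ : AddChar G ℂ, 1 / 2 ≤ ‖∑ t, (τ t : ℂ) * χ t‖ ^ 2 → ‖χ y - 1‖ ≤ 1 / 4) →
  ∃ u v : G, σ u ≠ 0 ∧ σ v ≠ 0 ∧ y = u - v

/-- dissociated sets of characters -/
def Diss {G : Type} [AddCommGroup G] (Λ : Finset (AddChar G ℂ)) : Prop :=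
  ∀ e : AddChar G ℂ → ℤ, (∀ l, e l = -1 ∨ e l = 0 ∨ e l = 1) → ∏ l ∈ Λ, l ^ e l = 1 →
    ∀ l ∈ Λ, e l = 0

/-- Riesz products -/
def CH1 : Prop := ∀ (G : Type) [AddCommGroup G] [Fintype G] (Λ : Finset (AddChar G ℂ))
  (a : AddChar G ℂ → ℂ), Diss Λ →
  ∑ x : G, Real.exp (∑ l ∈ Λ, (a l * l x).re) ≤
    (Fintype.card G : ℝ) * Real.exp (∑ l ∈ Λ, ‖a l‖ ^ 2 / 2)

/-- dissociated sets in the large spectrum -/
def CH2 : Prop := ∀ (G : Type) [AddCommGroup G] [Fintype G] [DecidableEq G] (τ : G → ℝ)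
  (Λ : Finset (AddChar G ℂ)) (D : ℝ), IsP τ → Real.log (Fintype.card G) - H τ ≤ D → Diss Λ →
  (∀ l ∈ Λ, 1 / 2 ≤ ‖∑ t, (τ t : ℂ) * l t‖ ^ 2) → (Λ.card : ℝ) ≤ 4 * D

/-- the span of a maximal dissociated subset -/
def CH3 : Prop := ∀ (G : Type) [AddCommGroup G] [Fintype G] (S : Finset (AddChar G ℂ)),
  ∃ Λ ⊆ S, Diss Λ ∧ ∀ χ ∈ S, ∀ (y : G) (ε : ℝ), (∀ l ∈ Λ, ‖l y - 1‖ ≤ ε) →
    ‖χ y - 1‖ ≤ Λ.card * ε

/-- the state after `i` steps -/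
def Good {G : Type} [AddCommGroup G] [Fintype G] [DecidableEq G] (A : Finset G) (i : ℕ)
    (d c : ℝ) : Prop :=
  ∃ σ τ : G → ℝ, IsP σ ∧ IsP τ ∧ (∀ x, σ x ≠ 0 → x ∈ (2 ^ i) • A - (2 ^ i - 1) • A) ∧
    ((∀ t, τ t ≠ 0 → t ∈ A) ∨ (∀ t, τ t ≠ 0 → t ∈ -A)) ∧
    Real.log A.card - H τ ≤ d ∧ H (cv σ τ) - H σ ≤ c

/-- the start -/
def GO0 : Prop := ∀ (G : Type) [AddCommGroup G] [Fintype G] [DecidableEq G] (A : Finset G)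
  (K : ℝ), A.Nonempty → ((A - A).card : ℝ) ≤ K * A.card → Good A 0 0 (Real.log K)

/-- one step -/
def GOS : Prop := ∀ (G : Type) [AddCommGroup G] [Fintype G] [DecidableEq G] (A : Finset G)
  (K : ℝ) (n i q m : ℕ) (d c c' : ℝ), A.Nonempty → 1 ≤ K → ((A - A).card : ℝ) ≤ K * A.card →
  i < n → Good A i d c → 0 < m → 1 ≤ q → 2 * q ≤ m → 16 * (q : ℝ) ^ 2 ≤ c' * m →
  ((q : ℝ) + 2) * K ^ (2 ^ (n + 3)) ≤ 2 ^ q / 64 → 1 / 16 ≤ c' →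
  Good A (i + 1) (2 * (d + m * c) + 1) c'

/-- `n` steps -/
def GON : Prop := ∀ n : ℕ, 1 ≤ n → ∃ C : ℝ, 0 < C ∧ ∀ (G : Type) [AddCommGroup G] [Fintype G]
  [DecidableEq G] (A : Finset G) (K : ℝ), A.Nonempty → 1 ≤ K →
  ((A - A).card : ℝ) ≤ K * A.card →
  Good A n (C * (1 + Real.log K) ^ ((2 : ℝ) + 1 / n)) (1 / 16)

/-- the result for finite groups, sets of small doubling -/
def FG : Prop := ∀ n : ℕ, 1 ≤ n → ∃ C : ℝ, 0 < C ∧ ∀ (G : Type) [AddCommGroup G] [Fintype G]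
  [DecidableEq G] (A : Finset G) (K : ℝ), A.Nonempty → 1 ≤ K →
  ((A - A).card : ℝ) ≤ K * A.card →
  ∃ Γ : Finset (AddChar G ℂ), (Γ.card : ℝ) ≤
      C * (Real.log ((Fintype.card G : ℝ) / A.card) + (1 + Real.log K) ^ ((2 : ℝ) + 1 / n)) ∧
    ∀ y : G, (∀ χ ∈ Γ, ‖χ y - 1‖ * (4 * (Γ.card : ℝ)) ≤ 1) →
      y ∈ (2 ^ (n + 1) - 1) • A - (2 ^ (n + 1) - 1) • A

/-- distance to the nearest integer of `γ x / N` -/
noncomputable def nn {N : ℕ} (γ x : ZMod N) : ℝ :=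
  |((γ * x).val : ℝ) / N - (round (((γ * x).val : ℝ) / N) : ℤ)|

/-- the characters of `ℤ/N` -/
def ZNC : Prop := ∀ (N : ℕ), 0 < N → ∀ χ : AddChar (ZMod N) ℂ, ∃ γ : ZMod N, ∀ x : ZMod N,
  ‖χ x - 1‖ ≤ 2 * Real.pi * nn γ x

/-- small distances from multiples -/
def RAD : Prop := ∀ (N : ℕ), 0 < N → ∀ (γ x : ZMod N) (R J : ℕ), 1 ≤ R →
  (∀ j ≤ J, nn ((R : ZMod N) ^ j * γ) x ≤ 1 / (2 * R)) → nn γ x ≤ 1 / (2 * (R : ℝ) ^ (J + 1))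

end Pool.Agent.H98.BG
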