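import Pool.Agent.H98.BG.Stmt

/-!
# Statements, sharper form: `(n+1)A - (n+1)A` instead of `(2^(n+1)-1)A - (2^(n+1)-1)A`
-/

set_option autoImplicit false

namespace Pool.Agent.H98.BG

open Finset
open scoped Pointwise

/-- one step; the new law is supported on the points `x` with `pr σ B x ≥ 3/4` -/
def STEP3 : Prop := ∀ (G : Type) [AddCommGroup G] [Fintype G] [DecidableEq G] (σ τ : G → ℝ)
  (P Q C B X R : Finset G) (q m : ℕ) (β c c' L : ℝ), IsP σ → IsP τ → (∀ x, σ x ≠ 0 → x ∈ P) →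
  (∀ t, τ t ≠ 0 → t ∈ Q) → C.Nonempty → (∀ a ∈ C, ∀ p ∈ P, a + p ∈ B) →
  (∀ b ∈ B, ∀ p ∈ P, b - p ∈ X) → (∀ x ∈ X, ∀ t ∈ Q, x - t ∈ R) → (X.card : ℝ) ≤ β * C.card →
  (R.card : ℝ) ≤ β * C.card → Real.log Q.card ≤ L → H (cv σ τ) - H σ ≤ c → 0 < m → 1 ≤ q →
  2 * q ≤ m → 16 * (q : ℝ) ^ 2 ≤ c' * m → β * (3 / 4) ^ q ≤ 1 / 256 → 1 / 16 ≤ c' →
  ∃ σ' τ' : G → ℝ, IsP σ' ∧ IsP τ' ∧ (∀ x, σ' x ≠ 0 → 3 / 4 ≤ pr σ B x) ∧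
    (∀ t, τ' t ≠ 0 → t ∈ Q) ∧
    L - H τ' ≤ 2 * ((L - H τ) + m * c) + 1 ∧ H (cm σ' τ') - H σ' ≤ c'

/-- the state after `i` steps -/
def Good3 {G : Type} [AddCommGroup G] [Fintype G] [DecidableEq G] (A : Finset G) (i : ℕ)
    (d c : ℝ) : Prop :=
  ∃ (Φ : Finset G → Finset G) (a b : ℕ) (σ τ : G → ℝ), a + b + i + 2 ≤ 2 ^ (i + 1) ∧
    (∀ W W' : Finset G, W ⊆ W' → Φ W ⊆ Φ W') ∧
    (∀ (g : G) (W : Finset G), ∀ y ∈ Φ W, g + y ∈ Φ ({g} + W)) ∧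
    (∀ W : Finset G, ∀ y ∈ Φ W, ∀ y' ∈ Φ W, y - y' ∈ W - W) ∧
    (∀ W : Finset G, Φ W ⊆ W - (a • A - b • A)) ∧
    IsP σ ∧ IsP τ ∧ (∀ x, σ x ≠ 0 → x ∈ Φ ((i + 1) • A)) ∧
    ((∀ t, τ t ≠ 0 → t ∈ A) ∨ (∀ t, τ t ≠ 0 → t ∈ -A)) ∧
    Real.log A.card - H τ ≤ d ∧ H (cv σ τ) - H σ ≤ c

/-- the start -/
def GO03 : Prop := ∀ (G : Type) [AddCommGroup G] [Fintype G] [DecidableEq G] (A : Finset G)
  (K : ℝ), A.Nonempty → ((A - A).card : ℝ) ≤ K * A.card → Good3 A 0 0 (Real.log K)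

/-- one step -/
def GOS3 : Prop := ∀ (G : Type) [AddCommGroup G] [Fintype G] [DecidableEq G] (A : Finset G)
  (K : ℝ) (n i q m : ℕ) (d c c' : ℝ), A.Nonempty → 1 ≤ K → ((A - A).card : ℝ) ≤ K * A.card →
  i < n → Good3 A i d c → 0 < m → 1 ≤ q → 2 * q ≤ m → 16 * (q : ℝ) ^ 2 ≤ c' * m →
  K ^ (2 ^ (n + 3)) * (3 / 4) ^ q ≤ 1 / 256 → 1 / 16 ≤ c' →
  Good3 A (i + 1) (2 * (d + m * c) + 1) c'

/-- `n` steps -/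
def GON3 : Prop := ∀ n : ℕ, 1 ≤ n → ∃ C : ℝ, 0 < C ∧ ∀ (G : Type) [AddCommGroup G] [Fintype G]
  [DecidableEq G] (A : Finset G) (K : ℝ), A.Nonempty → 1 ≤ K →
  ((A - A).card : ℝ) ≤ K * A.card →
  Good3 A n (C * (1 + Real.log K) ^ ((2 : ℝ) + 1 / n)) (1 / 16)

/-- the result for finite groups, sets of small doubling -/
def FG3 : Prop := ∀ n : ℕ, 1 ≤ n → ∃ C : ℝ, 0 < C ∧ ∀ (G : Type) [AddCommGroup G] [Fintype G]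
  [DecidableEq G] (A : Finset G) (K : ℝ), A.Nonempty → 1 ≤ K →
  ((A - A).card : ℝ) ≤ K * A.card →
  ∃ Γ : Finset (AddChar G ℂ), (Γ.card : ℝ) ≤
      C * (Real.log ((Fintype.card G : ℝ) / A.card) + (1 + Real.log K) ^ ((2 : ℝ) + 1 / n)) ∧
    ∀ y : G, (∀ χ ∈ Γ, ‖χ y - 1‖ * (4 * (Γ.card : ℝ)) ≤ 1) →
      y ∈ (n + 1) • A - (n + 1) • A

end Pool.Agent.H98.BG
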