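import Pool.Agent.H98.BG.Stmt

set_option autoImplicit false

namespace Pool.Agent.H98.BG

open Finset
open scoped Pointwise

namespace ZNCL

/-- the distance to the nearest integer -/
noncomputable def di (t : ℝ) : ℝ := |t - (round t : ℤ)|

theorem di_add_int (t : ℝ) (m : ℤ) : di (t + m) = di t := by
  unfold di
  rw [round_add_intCast]
  push_cast
  congr 1
  ring

theorem di_small (t : ℝ) (h : |t| ≤ 1 / 2) : di t = |t| := by
  unfold di
  have h1 := round_le t 0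
  simp only [Int.cast_zero, sub_zero] at h1
  by_cases h0 : round t = 0
  · rw [h0]; simp
  · have h2 : (1 : ℝ) ≤ |((round t : ℤ) : ℝ)| := by
      have : (1 : ℤ) ≤ |round t| := Int.one_le_abs h0
      exact_mod_cast this
    have h3 : |((round t : ℤ) : ℝ)| - |t| ≤ |t - (round t : ℤ)| := by
      rw [abs_sub_comm]
      exact abs_sub_abs_le_abs_sub _ _
    linarith

theorem nn_eq {N : ℕ} (γ x : ZMod N) : nn γ x = di (((γ * x).val : ℝ) / N) := rfl

theorem exp_bound (t : ℝ) : ‖Complex.exp (2 * Real.pi * Complex.I * (t : ℂ)) - 1‖ ≤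
    2 * Real.pi * di t := by
  have h1 : Complex.exp (2 * Real.pi * Complex.I * (t : ℂ)) =
      Complex.exp (Complex.I * ((2 * Real.pi * (t - (round t : ℤ)) : ℝ) : ℂ)) := by
    have h2 : (2 * Real.pi * Complex.I * (t : ℂ)) =
        Complex.I * ((2 * Real.pi * (t - (round t : ℤ)) : ℝ) : ℂ) +
          ((round t : ℤ) : ℂ) * (2 * Real.pi * Complex.I) := by
      push_cast
      ring
    rw [h2, Complex.exp_add, Complex.exp_int_mul_two_pi_mul_I, mul_one]
  rw [h1]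
  refine (Real.norm_exp_I_mul_ofReal_sub_one_le).trans ?_
  rw [Real.norm_eq_abs, abs_mul, abs_of_pos Real.two_pi_pos]
  rfl

theorem ex_gamma (N : ℕ) [NeZero N] (χ : AddChar (ZMod N) ℂ) :
    ∃ γ : ZMod N, ∀ x : ZMod N, χ x =
      Complex.exp (2 * Real.pi * Complex.I * ((((γ * x).val : ℝ) / N : ℝ) : ℂ)) := by
  obtain ⟨γ, hγ⟩ := (AddChar.zmodAddEquiv (n := N)).surjective χ
  refine ⟨γ, fun x => ?_⟩
  rw [← hγ, AddChar.zmodAddEquiv_apply]
  have h1 : (AddChar.circleEquivComplex (AddChar.zmod N γ)) x = ((ZMod.toCircle (γ * x) : Circle) : ℂ) := by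
    rfl
  rw [h1, ZMod.toCircle_apply]
  congr 1
  push_cast
  ring

theorem val_di (N : ℕ) [NeZero N] (a y : ZMod N) (M : ℕ) (h : a = (M : ZMod N) * y) :
    di ((a.val : ℝ) / N) = di ((M : ℝ) * ((y.val : ℝ) / N)) := by
  have hN : (N : ℝ) ≠ 0 := by exact_mod_cast NeZero.ne N
  have h1 : (((M * y.val : ℕ) : ZMod N)) = ((a.val : ℕ) : ZMod N) := by
    rw [Nat.cast_mul, ZMod.natCast_zmod_val, ZMod.natCast_zmod_val, h]
  have h2 : ((M * y.val : ℕ) : ℤ) ≡ ((a.val : ℕ) : ℤ) [ZMOD N] := by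
    have := (ZMod.natCast_eq_natCast_iff _ _ N).1 h1
    exact (Int.natCast_modEq_iff).2 this
  obtain ⟨m, hm⟩ := (Int.modEq_iff_dvd.1 h2.symm)
  have h3 : (M : ℝ) * ((y.val : ℝ) / N) = ((a.val : ℝ) / N) + (m : ℤ) := by
    have h4 : (((M * y.val : ℕ) : ℤ) : ℝ) - (((a.val : ℕ) : ℤ) : ℝ) = ((N : ℤ) : ℝ) * (m : ℤ) := by
      exact_mod_cast hm
    push_cast at h4
    field_simp
    linarith
  rw [h3, di_add_int]

theorem rad_ind (t : ℝ) (R J : ℕ) (hR : 1 ≤ R)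
    (h : ∀ j ≤ J, di ((R : ℝ) ^ j * t) ≤ 1 / (2 * R)) :
    ∀ j ≤ J, di t ≤ 1 / (2 * (R : ℝ) ^ (j + 1)) := by
  have hR0 : (0 : ℝ) < R := by exact_mod_cast hR
  intro j
  induction j with
  | zero =>
    intro hj
    have := h 0 hj
    simpa using this
  | succ j ih =>
    intro hj
    have h1 := ih (by omega)
    have h2 := h (j + 1) hj
    set θ : ℝ := t - (round t : ℤ) with hθ
    have h3 : di t = |θ| := rfl
    have h4 : di ((R : ℝ) ^ (j + 1) * t) = di ((R : ℝ) ^ (j + 1) * θ) := by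
      have h5 : (R : ℝ) ^ (j + 1) * t =
          (R : ℝ) ^ (j + 1) * θ + (((R : ℤ) ^ (j + 1) * round t : ℤ) : ℝ) := by
        rw [hθ]
        push_cast
        ring
      rw [h5, di_add_int]
    have hpos : (0 : ℝ) < (R : ℝ) ^ (j + 1) := pow_pos hR0 _
    have h6 : |(R : ℝ) ^ (j + 1) * θ| ≤ 1 / 2 := by
      rw [abs_mul, abs_of_pos hpos]
      rw [h3] at h1
      calc (R : ℝ) ^ (j + 1) * |θ| ≤ (R : ℝ) ^ (j + 1) * (1 / (2 * (R : ℝ) ^ (j + 1))) :=
            mul_le_mul_of_nonneg_left h1 hpos.le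
        _ = 1 / 2 := by field_simp
    rw [h4, di_small _ h6, abs_mul, abs_of_pos hpos] at h2
    rw [h3, le_div_iff₀ (by positivity)]
    rw [le_div_iff₀ (by positivity)] at h2
    calc |θ| * (2 * (R : ℝ) ^ (j + 1 + 1)) = (R : ℝ) ^ (j + 1) * |θ| * (2 * R) := by ring
      _ ≤ 1 := h2

end ZNCL

theorem znc : ZNC := by
  intro N hN χ
  have : NeZero N := ⟨hN.ne'⟩
  obtain ⟨γ, hγ⟩ := ZNCL.ex_gamma N χ
  refine ⟨γ, fun x => ?_⟩
  rw [hγ x, ZNCL.nn_eq]
  exact ZNCL.exp_bound _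

theorem rad : RAD := by
  intro N hN γ x R J hR h
  have : NeZero N := ⟨hN.ne'⟩
  rw [ZNCL.nn_eq]
  refine ZNCL.rad_ind _ R J hR (fun j hj => ?_) J le_rfl
  have h1 := h j hj
  rw [ZNCL.nn_eq] at h1
  have h2 := ZNCL.val_di N ((R : ZMod N) ^ j * γ * x) (γ * x) (R ^ j) (by push_cast; ring)
  rw [h2] at h1
  push_cast at h1
  exact h1

end Pool.Agent.H98.BG
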